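import Pool.Agent.Lib.H91.SplitBlock

set_option autoImplicit false

namespace H91.Split

open Finset Matrix

theorem rot_skew {R : T6} (h : ∀ i j k l, R i j k l = - R j i k l) (g : M6) :
    ∀ i j k l, rot g R i j k l = - rot g R j i k l := by
  intro i j k l
  simp only [rot, ← sum_neg_distrib]
  rw [sum_comm]
  refine sum_congr rfl fun a _ => sum_congr rfl fun b _ => sum_congr rfl fun c _ =>
    sum_congr rfl fun d _ => ?_
  rw [h b a c d]
  ring

theorem sum4_swap (f : Fin 6 → Fin 6 → Fin 6 → Fin 6 → ℝ) :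
    ∑ a, ∑ b, ∑ c, ∑ d, f a b c d = ∑ c, ∑ d, ∑ a, ∑ b, f a b c d := by
  calc ∑ a, ∑ b, ∑ c, ∑ d, f a b c d = ∑ a, ∑ c, ∑ b, ∑ d, f a b c d :=
        sum_congr rfl fun a _ => sum_comm
    _ = ∑ c, ∑ a, ∑ b, ∑ d, f a b c d := sum_comm
    _ = ∑ c, ∑ a, ∑ d, ∑ b, f a b c d :=
        sum_congr rfl fun c _ => sum_congr rfl fun a _ => sum_comm
    _ = ∑ c, ∑ d, ∑ a, ∑ b, f a b c d := sum_congr rfl fun c _ => sum_comm

theorem rot_pair {R : T6} (h : ∀ i j k l, R i j k l = R k l i j) (g : M6) :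
    ∀ i j k l, rot g R i j k l = rot g R k l i j := by
  intro i j k l
  simp only [rot]
  rw [sum4_swap]
  refine sum_congr rfl fun a _ => sum_congr rfl fun b _ => sum_congr rfl fun c _ =>
    sum_congr rfl fun d _ => ?_
  rw [h c d a b]
  ring

theorem sum3_rot (f : Fin 6 → Fin 6 → Fin 6 → ℝ) :
    ∑ a, ∑ b, ∑ c, f a b c = ∑ a, ∑ b, ∑ c, f b c a := by
  calc ∑ a, ∑ b, ∑ c, f a b c = ∑ a, ∑ c, ∑ b, f a b c :=
        sum_congr rfl fun a _ => sum_comm
    _ = ∑ c, ∑ a, ∑ b, f a b c := sum_comm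

theorem rot_bianchi {R : T6} (h : ∀ i j k l, R i j k l + R j k i l + R k i j l = 0) (g : M6) :
    ∀ i j k l, rot g R i j k l + rot g R j k i l + rot g R k i j l = 0 := by
  intro i j k l
  have e : ∀ p q r : Fin 6, rot g R p q r l = ∑ a, ∑ b, ∑ c, ∑ d,
      g a p * g b q * g c r * g d l * R a b c d := fun p q r => rfl
  have e2 : rot g R j k i l = ∑ a, ∑ b, ∑ c, ∑ d,
      g b j * g c k * g a i * g d l * R b c a d := by
    rw [e]
    exact sum3_rot (fun a b c => ∑ d, g a j * g b k * g c i * g d l * R a b c d)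
  have e3 : rot g R k i j l = ∑ a, ∑ b, ∑ c, ∑ d,
      g c k * g a i * g b j * g d l * R c a b d := by
    rw [e, sum3_rot (fun a b c => ∑ d, g a k * g b i * g c j * g d l * R a b c d)]
    exact sum3_rot (fun a b c => ∑ d, g b k * g c i * g a j * g d l * R b c a d)
  rw [e2, e3, e]
  simp only [← sum_add_distrib]
  refine sum_eq_zero fun a _ => sum_eq_zero fun b _ => sum_eq_zero fun c _ =>
    sum_eq_zero fun d _ => ?_
  linear_combination (g a i * g b j * g c k * g d l) * h a b c d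

theorem rot_isAlgCurv {R : T6} (h : HopfSix.IsAlgCurv R) (g : M6) :
    HopfSix.IsAlgCurv (rot g R) :=
  ⟨rot_skew h.skew g, rot_pair h.pair g, rot_bianchi h.bianchi g⟩

/-- Ricci tensor in the sign convention of `HopfSix`. -/
def ric (R : T6) (i k : Fin 6) : ℝ := ∑ j, R i j k j

theorem ric_rot (R : T6) (g : M6) (hg : g * gᵀ = 1) (i k : Fin 6) :
    ric (rot g R) i k = ∑ a, ∑ c, g a i * g c k * ric R a c := by
  simp only [ric, rot]
  rw [move_in]
  have hg' : ∀ b d, ∑ j, g b j * g d j = if b = d then 1 else 0 := by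
    intro b d
    have := congrFun (congrFun hg b) d
    simpa [Matrix.mul_apply, Matrix.one_apply] using this
  refine sum_congr rfl fun a _ => ?_
  rw [sum_comm]
  refine sum_congr rfl fun c _ => ?_
  rw [mul_sum]
  refine sum_congr rfl fun b _ => ?_
  have : ∀ d, ∑ j, g a i * g b j * g c k * g d j * R a b c d =
      (if b = d then 1 else 0) * (g a i * g c k * R a b c d) := by
    intro d
    rw [← hg' b d, sum_mul]
    exact sum_congr rfl fun j _ => by ring
  simp only [this]
  simp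

theorem ric_rot_const {R : T6} {lam : ℝ} (hR : ∀ i k, ric R i k = if i = k then lam else 0)
    (g : M6) (hg : gᵀ * g = 1) (i k : Fin 6) :
    ric (rot g R) i k = if i = k then lam else 0 := by
  rw [ric_rot R g (mul_eq_one_comm.1 hg)]
  simp only [hR]
  have := congrFun (congrFun hg i) k
  simp only [Matrix.mul_apply, Matrix.transpose_apply, Matrix.one_apply] at this
  have e : ∀ a, ∑ c, g a i * g c k * (if a = c then lam else 0) = g a i * g a k * lam := by
    intro a
    simp
  simp only [e]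
  rw [← sum_mul, this]
  split_ifs <;> simp

theorem hi_ne_lo : ∀ α a : Fin 3, hi α ≠ lo a := by decide

/-- **Best splitting of an Einstein curvature tensor.** -/
theorem exists_split {R : T6} (hA : HopfSix.IsAlgCurv R) {lam : ℝ}
    (hR : ∀ i k, ric R i k = if i = k then lam else 0) :
    ∃ O : M6, Oᵀ * O = 1 ∧ HopfSix.IsAlgCurv (rot O R) ∧
      (∀ i k, ric (rot O R) i k = if i = k then lam else 0) ∧
      (∀ g : M6, gᵀ * g = 1 → ell (rot g (rot O R)) ≤ ell (rot O R)) ∧
      (∀ α a, ∑ b, rot O R (hi α) (lo b) (lo a) (lo b) = 0) ∧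
      (∀ α a, ∑ β, rot O R (hi α) (hi β) (lo a) (hi β) = 0) ∧
      (∀ x : Fin 3 → Fin 3 → ℝ, secondVar (rot O R) x ≤ 0) := by
  obtain ⟨O, hO, hmax, hX⟩ := exists_best R
  have hAO := rot_isAlgCurv hA O
  have hRO := ric_rot_const hR O hO
  have h1 : ∀ α a, ∑ b, rot O R (hi α) (lo b) (lo a) (lo b) = 0 := by
    intro α a
    have h := (hX (offd fun β b => if β = α ∧ b = a then 1 else 0) (offd_skew _)).1
    rw [ell_lie hAO] at h
    have e : ∑ β, ∑ c, (if β = α ∧ c = a then (1 : ℝ) else 0) *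
        ∑ b, rot O R (hi β) (lo b) (lo c) (lo b) = ∑ b, rot O R (hi α) (lo b) (lo a) (lo b) := by
      rw [Finset.sum_eq_single α, Finset.sum_eq_single a]
      · simp
      · intro c _ hc; simp [hc]
      · intro h; exact absurd (mem_univ _) h
      · intro β _ hβ; simp [hβ]
      · intro h; exact absurd (mem_univ _) h
    rw [e] at h
    linarith
  refine ⟨O, hO, hAO, hRO, hmax, h1, ?_, ?_⟩
  · intro α a
    have h2 := hRO (hi α) (lo a)
    have hne : hi α ≠ lo a := hi_ne_lo α a
    rw [if_neg hne] at h2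
    have h3 := h1 α a
    unfold ric at h2
    rw [Fin.sum_univ_six] at h2
    simp only [Fin.sum_univ_three] at h3 ⊢
    have l0 : lo 0 = 0 := rfl
    have l1 : lo 1 = 1 := rfl
    have l2 : lo 2 = 2 := rfl
    have i0 : hi 0 = 3 := rfl
    have i1 : hi 1 = 4 := rfl
    have i2 : hi 2 = 5 := rfl
    rw [l0, l1, l2] at h3
    rw [i0, i1, i2]
    linarith
  · intro x
    have h := (hX (offd x) (offd_skew x)).2
    rw [ell_lie_lie hAO] at h
    linarith

end H91.Split
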