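import Pool.Agent.Lib.H91.Split
import Pool.Agent.Lib.H87.HopfKC.Reduce
import Pool.Agent.Lib.H87.HopfKC.Einstein

/-!
# Admissible curvature tensors and the maximum principle over block rotations
-/

set_option autoImplicit false

namespace H91.Split

open Finset Matrix NormedSpace

/-- Block diagonal matrices for the 3 + 3 splitting. -/
def IsBlk (g : M6) : Prop := ∀ a α, g (lo a) (hi α) = 0 ∧ g (hi α) (lo a) = 0

/-- Admissible tensors: algebraic curvature tensor, Ricci tensor `5 δ`, maximal scalar curvature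
of the first coordinate three-plane, nonnegative complex sectional curvature. -/
structure Adm (R : T6) : Prop where
  alg : HopfSix.IsAlgCurv R
  ein : ∀ i k, ric R i k = if i = k then 5 else 0
  mx : ∀ g : M6, gᵀ * g = 1 → ell (rot g R) ≤ ell R
  kc : HopfKC.KCnonneg R

theorem rot_eq_pull (g : M6) (R : T6) :
    rot g R = Pool.Agent.H69Hopf.pull (fun i => gᵀ i) R := by
  funext i j k l
  simp only [rot, Pool.Agent.H69Hopf.pull, Pool.Agent.H69Hopf.ev, Matrix.transpose_apply]
  refine sum_congr rfl fun a _ => sum_congr rfl fun b _ => sum_congr rfl fun c _ =>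
    sum_congr rfl fun d _ => ?_
  ring

theorem kc_rot {R : T6} (h : HopfKC.KCnonneg R) (g : M6) : HopfKC.KCnonneg (rot g R) := by
  intro z w
  rw [rot_eq_pull, HopfKC.kc_pull]
  exact h _ _

theorem gb_rot (R : T6) {g : M6} (hg : gᵀ * g = 1) :
    HopfSix.gaussBonnet (rot g R) = HopfSix.gaussBonnet R := by
  rw [rot_eq_pull]
  have h1 := HopfKC.gb_pull R gᵀ
  rw [h1, Matrix.det_transpose]
  have h2 : g.det * g.det = 1 := by
    have := congrArg Matrix.det hg
    rwa [Matrix.det_mul, Matrix.det_transpose, Matrix.det_one] at this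
  rw [sq, h2, one_mul]

theorem orth_mul {g h : M6} (hg : gᵀ * g = 1) (hh : hᵀ * h = 1) : (g * h)ᵀ * (g * h) = 1 := by
  rw [Matrix.transpose_mul, mul_assoc, ← mul_assoc gᵀ, hg, one_mul, hh]

theorem orth_transpose {g : M6} (hg : gᵀ * g = 1) : gᵀᵀ * gᵀ = 1 := by
  rw [Matrix.transpose_transpose]
  exact mul_eq_one_comm.1 hg

/-- (B) -/
theorem exists_adm {R : T6} (hA : HopfSix.IsAlgCurv R)
    (hR : ∀ i k, ric R i k = if i = k then 5 else 0) (hK : HopfKC.KCnonneg R) :
    ∃ S : T6, Adm S ∧ HopfSix.gaussBonnet S = HopfSix.gaussBonnet R := by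
  obtain ⟨O, hO, hmax, _⟩ := exists_best R
  exact ⟨rot O R, ⟨rot_isAlgCurv hA O, ric_rot_const hR O hO, hmax, kc_rot hK O⟩, gb_rot R hO⟩

/-- The first and second order relations at a tensor whose first coordinate three-plane has
maximal scalar curvature. -/
theorem Adm.split {R : T6} (h : Adm R) :
    (∀ α a, ∑ b, R (hi α) (lo b) (lo a) (lo b) = 0) ∧
      (∀ α a, ∑ β, R (hi α) (hi β) (lo a) (hi β) = 0) ∧
      (∀ x : Fin 3 → Fin 3 → ℝ, secondVar R x ≤ 0) := by
  have hX : ∀ X : M6, Xᵀ = -X → ell (lie X R) = 0 ∧ ell (lie X (lie X R)) ≤ 0 := by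
    intro X hX
    have hd : ∀ t, ∀ i j k l, HasDerivAt (fun s : ℝ => rot (exp (s • X)) R i j k l)
        (lie X (rot (exp (t • X)) R) i j k l) t := fun t i j k l =>
      hasDerivAt_rot (g := fun s : ℝ => exp (s • X)) (fun a b => hasDerivAt_exp_entry X t a b)
        i j k l
    have h1 : ∀ t, HasDerivAt (fun s : ℝ => ell (rot (exp (s • X)) R))
        (ell (lie X (rot (exp (t • X)) R))) t := fun t => hasDerivAt_ell (hd t)
    have h2 : HasDerivAt (fun s : ℝ => ell (lie X (rot (exp (s • X)) R)))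
        (ell (lie X (lie X (rot (exp ((0 : ℝ) • X)) R)))) 0 :=
      hasDerivAt_ell (hasDerivAt_lie (hd 0))
    have h0 : rot (exp ((0 : ℝ) • X)) R = R := by
      rw [zero_smul, exp_zero, rot_one]
    have := second_order h1 h2 (fun t => by
      simp only [zero_smul, exp_zero, rot_one]
      exact h.mx _ (exp_orth hX t))
    rw [h0] at this
    exact this
  have h1 : ∀ α a, ∑ b, R (hi α) (lo b) (lo a) (lo b) = 0 := by
    intro α a
    have h' := (hX (offd fun β b => if β = α ∧ b = a then 1 else 0) (offd_skew _)).1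
    rw [ell_lie h.alg] at h'
    have e : ∑ β, ∑ c, (if β = α ∧ c = a then (1 : ℝ) else 0) *
        ∑ b, R (hi β) (lo b) (lo c) (lo b) = ∑ b, R (hi α) (lo b) (lo a) (lo b) := by
      rw [Finset.sum_eq_single α, Finset.sum_eq_single a]
      · simp
      · intro c _ hc; simp [hc]
      · intro h; exact absurd (mem_univ _) h
      · intro β _ hβ; simp [hβ]
      · intro h; exact absurd (mem_univ _) h
    rw [e] at h'
    linarith
  refine ⟨h1, ?_, ?_⟩
  · intro α a
    have h2 := h.ein (hi α) (lo a)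
    have hne : hi α ≠ lo a := hi_ne_lo α a
    rw [if_neg hne] at h2
    have h3 := h1 α a
    unfold ric at h2
    rw [Fin.sum_univ_six] at h2
    simp only [Fin.sum_univ_three] at h3 ⊢
    have l0 : lo 0 = 0 := rfl
    have l1 : lo 1 = 1 := rfl
    have l2 : lo 2 = 2 := rfl
    have i0 : hi 0 = 3 := rfl
    have i1 : hi 1 = 4 := rfl
    have i2 : hi 2 = 5 := rfl
    rw [l0, l1, l2] at h3
    rw [i0, i1, i2]
    linarith
  · intro x
    have h' := (hX (offd x) (offd_skew x)).2
    rw [ell_lie_lie h.alg] at h'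
    linarith

/-- (C) -/
theorem Adm.best {R : T6} (h : Adm R) : HopfKC.Best R :=
  ⟨h.alg, h.ein, h.split.1, h.split.2.1, h.split.2.2⟩

theorem sum_split (f : Fin 6 → ℝ) : ∑ i, f i = ∑ a, f (lo a) + ∑ α, f (hi α) := by
  rw [Fin.sum_univ_six, Fin.sum_univ_three, Fin.sum_univ_three]
  have l0 : lo 0 = 0 := rfl
  have l1 : lo 1 = 1 := rfl
  have l2 : lo 2 = 2 := rfl
  have i0 : hi 0 = 3 := rfl
  have i1 : hi 1 = 4 := rfl
  have i2 : hi 2 = 5 := rfl
  rw [l0, l1, l2, i0, i1, i2]
  ring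

theorem IsBlk.mul {g h : M6} (hg : IsBlk g) (hh : IsBlk h) : IsBlk (g * h) := by
  intro a α
  constructor
  · rw [Matrix.mul_apply, sum_split]
    simp [(hh _ α).1, (hg a _).1]
  · rw [Matrix.mul_apply, sum_split]
    simp [(hh a _).2, (hg _ α).2]

theorem isBlk_one : IsBlk (1 : M6) := by
  intro a α
  fin_cases a <;> fin_cases α <;> simp [lo, hi, Matrix.one_apply]

theorem ell_eq {R : T6} (hA : HopfSix.IsAlgCurv R) :
    ell R = (1 / 2) * ∑ a : Fin 3, ∑ b : Fin 3, R (lo a) (lo b) (lo a) (lo b) := by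
  have h0 : ∀ i k l, R i i k l = 0 := fun i k l => by have := hA.skew i i k l; linarith
  have q : ∀ i j, R i j i j = R j i j i := fun i j => by
    have h1 := hA.skew i j i j
    have h2 := hA.pair j i i j
    have h3 := hA.skew i j j i
    linarith
  simp only [Fin.sum_univ_three]
  have l0 : lo 0 = 0 := rfl
  have l1 : lo 1 = 1 := rfl
  have l2 : lo 2 = 2 := rfl
  rw [l0, l1, l2, h0, h0, h0, q 1 0, q 2 0, q 2 1]
  unfold ell
  ring

theorem rot_lo (g : M6) (hg : IsBlk g) (R : T6) (a b c d : Fin 3) :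
    rot g R (lo a) (lo b) (lo c) (lo d) = ∑ a', ∑ b', ∑ c', ∑ d',
      g (lo a') (lo a) * g (lo b') (lo b) * g (lo c') (lo c) * g (lo d') (lo d) *
        R (lo a') (lo b') (lo c') (lo d') := by
  have hz : ∀ x y : Fin 3, g (hi x) (lo y) = 0 := fun x y => (hg y x).2
  simp only [rot]
  rw [sum_split]
  simp only [hz, zero_mul, sum_const_zero, add_zero]
  refine sum_congr rfl fun a' _ => ?_
  rw [sum_split]
  simp only [hz, zero_mul, mul_zero, sum_const_zero, add_zero]
  refine sum_congr rfl fun b' _ => ?_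
  rw [sum_split]
  simp only [hz, zero_mul, mul_zero, sum_const_zero, add_zero]
  refine sum_congr rfl fun c' _ => ?_
  rw [sum_split]
  simp only [hz, zero_mul, mul_zero, sum_const_zero, add_zero]

theorem lo_inj : ∀ a b : Fin 3, (lo a = lo b) ↔ a = b := by decide

theorem blk_orth {g : M6} (hg : IsBlk g) (ho : gᵀ * g = 1) (a b : Fin 3) :
    ∑ c, g (lo a) (lo c) * g (lo b) (lo c) = if a = b then 1 else 0 := by
  have h0 : g * gᵀ = 1 := mul_eq_one_comm.1 ho
  have h := congrFun (congrFun h0 (lo a)) (lo b)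
  rw [Matrix.mul_apply, sum_split] at h
  simp only [Matrix.transpose_apply, (hg _ _).1, zero_mul, sum_const_zero, add_zero] at h
  rw [h, Matrix.one_apply]
  simp only [lo_inj]

theorem move3 (f : Fin 3 → Fin 3 → Fin 3 → Fin 3 → Fin 3 → ℝ) :
    ∑ k, ∑ a, ∑ b, ∑ c, ∑ d, f k a b c d = ∑ a, ∑ b, ∑ c, ∑ d, ∑ k, f k a b c d := by
  rw [sum_comm]
  refine sum_congr rfl fun a _ => ?_
  rw [sum_comm]
  refine sum_congr rfl fun b _ => ?_
  rw [sum_comm]
  refine sum_congr rfl fun c _ => ?_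
  rw [sum_comm]

theorem ell_rot_blk {R : T6} (hA : HopfSix.IsAlgCurv R) {g : M6} (hg : IsBlk g)
    (ho : gᵀ * g = 1) : ell (rot g R) = ell R := by
  rw [ell_eq (rot_isAlgCurv hA g), ell_eq hA]
  congr 1
  simp only [rot_lo g hg]
  calc ∑ a : Fin 3, ∑ b : Fin 3, ∑ a', ∑ b', ∑ c', ∑ d',
        g (lo a') (lo a) * g (lo b') (lo b) * g (lo c') (lo a) * g (lo d') (lo b) *
          R (lo a') (lo b') (lo c') (lo d')
      = ∑ a', ∑ b', ∑ c', ∑ d', (∑ a, g (lo a') (lo a) * g (lo c') (lo a)) *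
          (∑ b, g (lo b') (lo b) * g (lo d') (lo b)) * R (lo a') (lo b') (lo c') (lo d') := by
        have e1 : ∀ a : Fin 3, ∑ b : Fin 3, ∑ a', ∑ b', ∑ c', ∑ d',
            g (lo a') (lo a) * g (lo b') (lo b) * g (lo c') (lo a) * g (lo d') (lo b) *
              R (lo a') (lo b') (lo c') (lo d') =
            ∑ a', ∑ b', ∑ c', ∑ d', ∑ b,
              g (lo a') (lo a) * g (lo b') (lo b) * g (lo c') (lo a) * g (lo d') (lo b) *
              R (lo a') (lo b') (lo c') (lo d') := fun a => move3 _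
        simp only [e1]
        rw [move3]
        refine sum_congr rfl fun a' _ => sum_congr rfl fun b' _ => sum_congr rfl fun c' _ =>
          sum_congr rfl fun d' _ => ?_
        rw [sum_mul_sum, sum_mul]
        refine sum_congr rfl fun a _ => ?_
        rw [sum_mul]
        refine sum_congr rfl fun b _ => ?_
        ring
    _ = ∑ a : Fin 3, ∑ b : Fin 3, R (lo a) (lo b) (lo a) (lo b) := by
        simp only [blk_orth hg ho, ite_mul, one_mul, zero_mul, mul_ite, mul_one, mul_zero]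
        simp

/-- (D) -/
theorem Adm.rot {R : T6} (h : Adm R) {g : M6} (hg : IsBlk g) (ho : gᵀ * g = 1) :
    Adm (rot g R) := by
  refine ⟨rot_isAlgCurv h.alg g, ric_rot_const h.ein g ho, ?_, kc_rot h.kc g⟩
  intro k hk
  rw [ell_rot_blk h.alg hg ho, rot_rot]
  exact h.mx _ (orth_mul ho hk)

/-! ### Evaluation of cubic forms in finitely many entries -/

/-- The coordinates: `1` at `0`, tensor entries elsewhere. -/
def vq (q : ℕ → Fin 6 × Fin 6 × Fin 6 × Fin 6) (R : T6) (i : ℕ) : ℝ :=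
  if i = 0 then 1 else R (q i).1 (q i).2.1 (q i).2.2.1 (q i).2.2.2

/-- The linearised coordinates. -/
def dq (q : ℕ → Fin 6 × Fin 6 × Fin 6 × Fin 6) (R : T6) (i : ℕ) : ℝ :=
  if i = 0 then 0 else R (q i).1 (q i).2.1 (q i).2.2.1 (q i).2.2.2

/-- Cubic form with coefficients `f`. -/
def P (f : ℕ → ℕ → ℕ → ℝ) (n : ℕ) (v : ℕ → ℝ) : ℝ :=
  ∑ k ∈ range n, ∑ i ∈ range n, ∑ j ∈ range n, f k i j * (v k * v i * v j)

theorem isCompact_blk : IsCompact {O : Fin 6 → Fin 6 → ℝ |
    (∀ i j, ∑ m, O m i * O m j = if i = j then 1 else 0) ∧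
      ∀ a α, O (lo a) (hi α) = 0 ∧ O (hi α) (lo a) = 0} := by
  refine isCompact_orth.of_isClosed_subset ?_ ?_
  · have : {O : Fin 6 → Fin 6 → ℝ |
        (∀ i j, ∑ m, O m i * O m j = if i = j then 1 else 0) ∧
          ∀ a α, O (lo a) (hi α) = 0 ∧ O (hi α) (lo a) = 0} =
        (⋂ i, ⋂ j, {O | ∑ m, O m i * O m j = if i = j then 1 else 0}) ∩
        ⋂ a, ⋂ α, ({O | O (lo a) (hi α) = 0} ∩ {O | O (hi α) (lo a) = 0}) := by
      ext O
      simp only [Set.mem_ofPred_eq, Set.mem_inter_iff, Set.mem_iInter]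
    rw [this]
    refine IsClosed.inter ?_ ?_
    · exact isClosed_iInter fun i => isClosed_iInter fun j =>
        isClosed_eq (by fun_prop) continuous_const
    · exact isClosed_iInter fun a => isClosed_iInter fun α =>
        (isClosed_eq (by fun_prop) continuous_const).inter
          (isClosed_eq (by fun_prop) continuous_const)
  · intro O hO
    exact hO.1

/-- (E) -/
theorem exists_max {R : T6} (h : Adm R) (f : ℕ → ℕ → ℕ → ℝ) (n : ℕ)
    (q : ℕ → Fin 6 × Fin 6 × Fin 6 × Fin 6) :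
    ∃ S : T6, Adm S ∧ HopfSix.gaussBonnet S = HopfSix.gaussBonnet R ∧
      ∀ g : M6, IsBlk g → gᵀ * g = 1 → P f n (vq q (rot g S)) ≤ P f n (vq q S) := by
  have hc : Continuous fun O : Fin 6 → Fin 6 → ℝ => P f n (vq q (rot (Matrix.of O) R)) := by
    have hv : ∀ i, Continuous fun O : Fin 6 → Fin 6 → ℝ => vq q (rot (Matrix.of O) R) i := by
      intro i
      unfold vq
      by_cases hi : i = 0
      · simp only [hi, if_true]; exact continuous_const
      · simp only [hi, if_false, rot, Matrix.of_apply]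
        fun_prop
    unfold P
    refine continuous_finsetSum _ fun k _ => continuous_finsetSum _ fun i _ =>
      continuous_finsetSum _ fun j _ => ?_
    exact continuous_const.mul (((hv k).mul (hv i)).mul (hv j))
  have hne : ({O : Fin 6 → Fin 6 → ℝ |
    (∀ i j, ∑ m, O m i * O m j = if i = j then 1 else 0) ∧
      ∀ a α, O (lo a) (hi α) = 0 ∧ O (hi α) (lo a) = 0}).Nonempty := by
    refine ⟨fun i j => (1 : M6) i j, (orth_iff (1 : M6)).1 (by simp), ?_⟩
    exact isBlk_one
  obtain ⟨O, hO, hmax⟩ := isCompact_blk.exists_isMaxOn hne hc.continuousOn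
  have hO1 : (Matrix.of O : M6)ᵀ * Matrix.of O = 1 := (orth_iff _).2 hO.1
  have hO2 : IsBlk (Matrix.of O : M6) := hO.2
  refine ⟨rot (Matrix.of O) R, h.rot hO2 hO1, gb_rot R hO1, ?_⟩
  intro g hg ho
  rw [rot_rot]
  have h2 := isMaxOn_iff.1 hmax (Matrix.of.symm (Matrix.of O * g : M6))
    ⟨(orth_iff _).1 (orth_mul hO1 ho), hO2.mul hg⟩
  simpa using h2

/-- The signature matrix of the splitting. -/
def Dg : M6 := Matrix.diagonal ![1, 1, 1, -1, -1, -1]

theorem isBlk_of_comm {g : M6} (h : g * Dg = Dg * g) : IsBlk g := by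
  intro a α
  have h1 := congrFun (congrFun h (lo a)) (hi α)
  have h2 := congrFun (congrFun h (hi α)) (lo a)
  rw [Dg, Matrix.mul_diagonal, Matrix.diagonal_mul] at h1 h2
  have e1 : (![1, 1, 1, -1, -1, -1] : Fin 6 → ℝ) (hi α) = -1 := by
    fin_cases α <;> simp [hi]
  have e2 : (![1, 1, 1, -1, -1, -1] : Fin 6 → ℝ) (lo a) = 1 := by
    fin_cases a <;> simp [lo]
  rw [e1, e2] at h1 h2
  constructor <;> linarith

theorem comm_of_isBlk {g : M6} (h : IsBlk g) : g * Dg = Dg * g := by
  ext i j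
  rw [Dg, Matrix.mul_diagonal, Matrix.diagonal_mul]
  have h03 : g 0 3 = 0 ∧ g 3 0 = 0 := h 0 0
  have h04 : g 0 4 = 0 ∧ g 4 0 = 0 := h 0 1
  have h05 : g 0 5 = 0 ∧ g 5 0 = 0 := h 0 2
  have h13 : g 1 3 = 0 ∧ g 3 1 = 0 := h 1 0
  have h14 : g 1 4 = 0 ∧ g 4 1 = 0 := h 1 1
  have h15 : g 1 5 = 0 ∧ g 5 1 = 0 := h 1 2
  have h23 : g 2 3 = 0 ∧ g 3 2 = 0 := h 2 0
  have h24 : g 2 4 = 0 ∧ g 4 2 = 0 := h 2 1
  have h25 : g 2 5 = 0 ∧ g 5 2 = 0 := h 2 2
  fin_cases i <;> fin_cases j <;> simp [h03, h04, h05, h13, h14, h15, h23, h24, h25]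

section
open scoped Norms.Operator

theorem exp_blk {X : M6} (hX : IsBlk X) (t : ℝ) : IsBlk (exp (t • X)) := by
  apply isBlk_of_comm
  have h1 : Commute (t • X) Dg := (show Commute X Dg from comm_of_isBlk hX).smul_left t
  exact h1.exp_left

end

/-- (F) -/
theorem second_order_P {S : T6} {f : ℕ → ℕ → ℕ → ℝ} {n : ℕ}
    {q : ℕ → Fin 6 × Fin 6 × Fin 6 × Fin 6}
    (hmax : ∀ g : M6, IsBlk g → gᵀ * g = 1 → P f n (vq q (rot g S)) ≤ P f n (vq q S))
    {X : M6} (hX : Xᵀ = -X) (hB : IsBlk X) :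
    ∑ k ∈ range n, ∑ i ∈ range n, ∑ j ∈ range n, f k i j *
      (dq q (lie X (lie X S)) k * vq q S i * vq q S j
        + vq q S k * dq q (lie X (lie X S)) i * vq q S j
        + vq q S k * vq q S i * dq q (lie X (lie X S)) j
        + 2 * (dq q (lie X S) k * dq q (lie X S) i * vq q S j
          + dq q (lie X S) k * vq q S i * dq q (lie X S) j
          + vq q S k * dq q (lie X S) i * dq q (lie X S) j)) ≤ 0 := by
  have hd : ∀ t, ∀ i j k l, HasDerivAt (fun s : ℝ => rot (exp (s • X)) S i j k l)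
      (lie X (rot (exp (t • X)) S) i j k l) t := fun t i j k l =>
    hasDerivAt_rot (g := fun s : ℝ => exp (s • X)) (fun a b => hasDerivAt_exp_entry X t a b)
      i j k l
  have hv : ∀ t i, HasDerivAt (fun s : ℝ => vq q (rot (exp (s • X)) S) i)
      (dq q (lie X (rot (exp (t • X)) S)) i) t := by
    intro t i
    unfold vq dq
    by_cases hi : i = 0
    · simp only [hi, if_true]
      exact hasDerivAt_const _ _
    · simp only [hi, if_false]
      exact hd t _ _ _ _
  have hw : ∀ i, HasDerivAt (fun s : ℝ => dq q (lie X (rot (exp (s • X)) S)) i)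
      (dq q (lie X (lie X (rot (exp ((0 : ℝ) • X)) S))) i) 0 := by
    intro i
    unfold dq
    by_cases hi : i = 0
    · simp only [hi, if_true]
      exact hasDerivAt_const _ _
    · simp only [hi, if_false]
      exact hasDerivAt_lie (hd 0) _ _ _ _
  have h0 : rot (exp ((0 : ℝ) • X)) S = S := by
    rw [zero_smul, exp_zero, rot_one]
  have h1 : ∀ t, HasDerivAt (fun s : ℝ => P f n (vq q (rot (exp (s • X)) S)))
      (∑ k ∈ range n, ∑ i ∈ range n, ∑ j ∈ range n, f k i j *
        ((dq q (lie X (rot (exp (t • X)) S)) k * vq q (rot (exp (t • X)) S) i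
          + vq q (rot (exp (t • X)) S) k * dq q (lie X (rot (exp (t • X)) S)) i)
          * vq q (rot (exp (t • X)) S) j
        + vq q (rot (exp (t • X)) S) k * vq q (rot (exp (t • X)) S) i
          * dq q (lie X (rot (exp (t • X)) S)) j)) t := by
    intro t
    unfold P
    refine HasDerivAt.fun_sum fun k _ => HasDerivAt.fun_sum fun i _ =>
      HasDerivAt.fun_sum fun j _ => ?_
    exact (((hv t k).mul (hv t i)).mul (hv t j)).const_mul _
  have h2 : HasDerivAt (fun s : ℝ => ∑ k ∈ range n, ∑ i ∈ range n, ∑ j ∈ range n, f k i j *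
        ((dq q (lie X (rot (exp (s • X)) S)) k * vq q (rot (exp (s • X)) S) i
          + vq q (rot (exp (s • X)) S) k * dq q (lie X (rot (exp (s • X)) S)) i)
          * vq q (rot (exp (s • X)) S) j
        + vq q (rot (exp (s • X)) S) k * vq q (rot (exp (s • X)) S) i
          * dq q (lie X (rot (exp (s • X)) S)) j))
      (∑ k ∈ range n, ∑ i ∈ range n, ∑ j ∈ range n, f k i j *
        (((dq q (lie X (lie X (rot (exp ((0 : ℝ) • X)) S))) k
              * vq q (rot (exp ((0 : ℝ) • X)) S) i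
            + dq q (lie X (rot (exp ((0 : ℝ) • X)) S)) k
              * dq q (lie X (rot (exp ((0 : ℝ) • X)) S)) i
            + (dq q (lie X (rot (exp ((0 : ℝ) • X)) S)) k
              * dq q (lie X (rot (exp ((0 : ℝ) • X)) S)) i
            + vq q (rot (exp ((0 : ℝ) • X)) S) k
              * dq q (lie X (lie X (rot (exp ((0 : ℝ) • X)) S))) i))
            * vq q (rot (exp ((0 : ℝ) • X)) S) j
          + (dq q (lie X (rot (exp ((0 : ℝ) • X)) S)) k * vq q (rot (exp ((0 : ℝ) • X)) S) i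
              + vq q (rot (exp ((0 : ℝ) • X)) S) k
                * dq q (lie X (rot (exp ((0 : ℝ) • X)) S)) i)
            * dq q (lie X (rot (exp ((0 : ℝ) • X)) S)) j)
        + ((dq q (lie X (rot (exp ((0 : ℝ) • X)) S)) k * vq q (rot (exp ((0 : ℝ) • X)) S) i
              + vq q (rot (exp ((0 : ℝ) • X)) S) k
                * dq q (lie X (rot (exp ((0 : ℝ) • X)) S)) i)
            * dq q (lie X (rot (exp ((0 : ℝ) • X)) S)) j
          + vq q (rot (exp ((0 : ℝ) • X)) S) k * vq q (rot (exp ((0 : ℝ) • X)) S) i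
            * dq q (lie X (lie X (rot (exp ((0 : ℝ) • X)) S))) j))) 0 := by
    refine HasDerivAt.fun_sum fun k _ => HasDerivAt.fun_sum fun i _ =>
      HasDerivAt.fun_sum fun j _ => ?_
    exact (((((hw k).mul (hv 0 i)).add ((hv 0 k).mul (hw i))).mul (hv 0 j)).add
      (((hv 0 k).mul (hv 0 i)).mul (hw j))).const_mul _
  have h3 := second_order h1 h2 (fun t => by
    simp only [zero_smul, exp_zero, rot_one]
    exact hmax _ (exp_blk hB t) (exp_orth hX t))
  rw [h0] at h3
  refine le_of_eq_of_le ?_ h3.2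
  refine sum_congr rfl fun k _ => sum_congr rfl fun i _ => sum_congr rfl fun j _ => ?_
  ring

end H91.Split
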