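import Pool.Agent.Lib.H91.HopfAct
import Pool.Agent.Lib.H87.HopfKC.Cert.Gen

set_option autoImplicit false

namespace HopfKC.Act

open Finset Matrix
open H91.Split (T6 M6 IsBlk rot lie ric)

/-- Coefficient of a sparse linear form. -/
noncomputable def lc (l : List (ℕ × ℤ)) (k : ℕ) : ℤ :=
  lsum l fun e => bif Nat.beq e.1 k then e.2 else .ofNat 0

/-- The list of one plane in a column of the derivation table. -/
noncomputable def xs (a : ℕ) (s : ℕ) : List (ℕ × ℤ) := List.getD (Tr.get xtT a) s []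

/-- Planes as literals. -/
def F6 : List (Fin 6) := [0, 1, 2, 3, 4, 5]

/-- Row of twice the derivation matrix, from the entries. -/
def lrow (s : Fin 6) (k : ℕ) : List (ℕ × ℤ) :=
  if k = 0 then [] else lent s (qd k).1 (qd k).2.1 (qd k).2.2.1 (qd k).2.2.2

noncomputable def chkA (s : Fin 6) : Bool :=
  I76.all fun k => I76.all fun a =>
    isz (Int.sub (lc (lrow s k) a) (Int.mul (.ofNat 2) (lc (xs a s) k)))

noncomputable def keys (l : List (ℕ × ℤ)) : Bool := l.all fun e => Nat.ble e.1 75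

noncomputable def chkB : Bool :=
  I76.all fun k => (Nat.beq (Tr.get xtT k).length 6) && keys (Tr.get ctT k) &&
    F6.all fun s => keys (lrow s k) && keys (xs k s)

noncomputable def chkC : Bool :=
  I76.all fun a => I76.all fun k =>
    isz (Int.sub (lc (Tr.get ctT a) k)
      (lsum F6 fun s => lsum (xs a s) fun e => Int.mul e.2 (lc (xs e.1 s) k)))

theorem chkB_eq : chkB = true := by decide +kernel
theorem chkC_eq : chkC = true := by decide +kernel
theorem chkA0 : chkA 0 = true := by decide +kernel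
theorem chkA1 : chkA 1 = true := by decide +kernel
theorem chkA2 : chkA 2 = true := by decide +kernel
theorem chkA3 : chkA 3 = true := by decide +kernel
theorem chkA4 : chkA 4 = true := by decide +kernel
theorem chkA5 : chkA 5 = true := by decide +kernel

theorem chkA_eq (s : Fin 6) : chkA s = true := by
  fin_cases s
  · exact chkA0
  · exact chkA1
  · exact chkA2
  · exact chkA3
  · exact chkA4
  · exact chkA5

/-! ### Lists and sums -/

theorem isz_iff {z : ℤ} (h : isz z = true) : z = 0 := by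
  cases z with
  | ofNat n =>
    have : Nat.beq n 0 = true := h
    have := Nat.eq_of_beq_eq_true this
    simp [this]
  | negSucc n => exact absurd h (by simp [isz])

theorem lsum_nil {α : Type} (f : α → ℤ) : lsum [] f = 0 := rfl
theorem lsum_cons {α : Type} (a : α) (l : List α) (f : α → ℤ) :
    lsum (a :: l) f = f a + lsum l f := rfl
theorem isum_nil : isum [] = 0 := rfl
theorem isum_cons (a : ℤ) (l : List ℤ) : isum (a :: l) = a + isum l := rfl

theorem lc_nil (k : ℕ) : lc [] k = 0 := rfl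
theorem lc_cons (e : ℕ × ℤ) (l : List (ℕ × ℤ)) (k : ℕ) :
    lc (e :: l) k = (if e.1 = k then e.2 else 0) + lc l k := by
  rw [lc, lsum_cons]
  congr 1
  by_cases h : e.1 = k
  · simp [h]
  · have : Nat.beq e.1 k = false := by
      rw [← Bool.not_eq_true]
      exact fun h' => h (Nat.eq_of_beq_eq_true h')
    rw [this, if_neg h]
    rfl

theorem keys_cons {e : ℕ × ℤ} {l : List (ℕ × ℤ)} (h : keys (e :: l) = true) :
    e.1 < 76 ∧ keys l = true := by
  simp only [keys, List.all_cons, Bool.and_eq_true] at h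
  refine ⟨?_, h.2⟩
  have := Nat.le_of_ble_eq_true h.1
  omega

theorem lsum_lc (g : ℕ → ℤ) : ∀ l : List (ℕ × ℤ), keys l = true →
    lsum l (fun e => Int.mul e.2 (g e.1)) = ∑ k ∈ range 76, lc l k * g k
  | [], _ => by simp [lsum_nil, lc_nil]
  | e :: l, h => by
    obtain ⟨h1, h2⟩ := keys_cons h
    have he : e.1 ∈ range 76 := mem_range.2 h1
    rw [lsum_cons, lsum_lc g l h2]
    simp only [lc_cons, add_mul, sum_add_distrib, ite_mul, zero_mul, sum_ite_eq, he, if_true]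
    rfl

theorem lev_lc (v : ℕ → ℝ) : ∀ l : List (ℕ × ℤ), keys l = true →
    lev v l = ∑ k ∈ range 76, (lc l k : ℝ) * v k
  | [], _ => by simp [lev_nil, lc_nil]
  | e :: l, h => by
    obtain ⟨h1, h2⟩ := keys_cons h
    have he : e.1 ∈ range 76 := mem_range.2 h1
    rw [lev_cons, lev_lc v l h2]
    simp only [lc_cons, Int.cast_add, add_mul, sum_add_distrib, Int.cast_ite, Int.cast_zero,
      ite_mul, zero_mul, sum_ite_eq, he, if_true]

theorem mem_I76 {k : ℕ} (h : k < 76) : k ∈ I76 := by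
  have : I76 = List.range 76 := by decide
  rw [this]
  exact List.mem_range.2 h

theorem mem_F6 (s : Fin 6) : s ∈ F6 := by
  fin_cases s <;> decide

theorem factB {k : ℕ} (h : k < 76) : (Tr.get xtT k).length = 6 ∧ keys (Tr.get ctT k) = true ∧
    ∀ s : Fin 6, keys (lrow s k) = true ∧ keys (xs k s) = true := by
  have h1 := List.all_eq_true.1 chkB_eq k (mem_I76 h)
  simp only [Bool.and_eq_true, List.all_eq_true] at h1
  exact ⟨Nat.eq_of_beq_eq_true h1.1.1, h1.1.2, fun s => h1.2 s (mem_F6 s)⟩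

theorem factA {s : Fin 6} {k a : ℕ} (hk : k < 76) (ha : a < 76) :
    lc (lrow s k) a = 2 * lc (xs a s) k := by
  have h1 := List.all_eq_true.1 (chkA_eq s) k (mem_I76 hk)
  have h2 := List.all_eq_true.1 h1 a (mem_I76 ha)
  have h3 := isz_iff h2
  exact sub_eq_zero.1 h3

theorem factC {k a : ℕ} (hk : k < 76) (ha : a < 76) :
    lc (Tr.get ctT a) k = ∑ s : Fin 6, ∑ m ∈ range 76, lc (xs a s) m * lc (xs m s) k := by
  have h1 := List.all_eq_true.1 chkC_eq a (mem_I76 ha)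
  have h2 := List.all_eq_true.1 h1 k (mem_I76 hk)
  have h3 := sub_eq_zero.1 (isz_iff h2)
  rw [h3]
  have h4 : ∀ s : Fin 6, lsum (xs a s) (fun e => Int.mul e.2 (lc (xs e.1 s) k)) =
      ∑ m ∈ range 76, lc (xs a s) m * lc (xs m s) k := fun s =>
    lsum_lc (fun m => lc (xs m s) k) _ ((factB ha).2.2 s).2
  simp only [F6, lsum_cons, lsum_nil, h4, Fin.sum_univ_six]
  ring

/-- The derivative in coordinates. -/
theorem cv_lie {c : ℝ} {R : T6'} (h : Lin c R) (s : Fin 6) {k : ℕ} (hk : k < 76) :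
    cv 0 (lie (Gs s) R) k = ∑ a ∈ range 76, (lc (xs a s) k : ℝ) * cv c R a := by
  have h1 : lev (cv c R) (lrow s k) = 2 * cv 0 (lie (Gs s) R) k := by
    by_cases h0 : k = 0
    · simp [lrow, h0, lev_nil, cv]
    · rw [lrow, if_neg h0, lev_lent h, cv, if_neg h0]
  rw [lev_lc _ _ ((factB hk).2.2 s).1] at h1
  have h2 : ∑ a ∈ range 76, (lc (lrow s k) a : ℝ) * cv c R a =
      2 * ∑ a ∈ range 76, (lc (xs a s) k : ℝ) * cv c R a := by
    rw [mul_sum]
    refine sum_congr rfl fun a ha => ?_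
    rw [factA hk (mem_range.1 ha)]
    push_cast
    ring
  linarith

theorem zip6 (f : List (ℕ × ℤ) → List (ℕ × ℤ) → ℤ) : ∀ L M : List (List (ℕ × ℤ)),
    L.length = 6 → M.length = 6 →
    isum (List.zipWith f L M) = ∑ s : Fin 6, f (L.getD s []) (M.getD s [])
  | [a, b, c, d, e, g], [a', b', c', d', e', g'], _, _ => by
    simp [List.zipWith, isum_cons, isum_nil, Fin.sum_univ_six]
    ring

theorem ccg_eq (f : ℕ → ℕ → ℕ → ℤ) {a i j : ℕ} (ha : a < 76) :
    ccg f a i j = ∑ k ∈ range 76, lc (Tr.get ctT a) k * f k i j :=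
  lsum_lc (fun k => f k i j) _ (factB ha).2.1

theorem ddg_eq (f : ℕ → ℕ → ℕ → ℤ) {l m : List (ℕ × ℤ)} (hl : keys l = true)
    (hm : keys m = true) (j : ℕ) :
    ddg f l m j = ∑ k ∈ range 76, ∑ i ∈ range 76, lc l k * lc m i * f k i j := by
  have h1 : ∀ e : ℕ × ℤ, lsum m (fun e' => Int.mul (Int.mul e.2 e'.2) (f e.1 e'.1 j)) =
      Int.mul e.2 (∑ i ∈ range 76, lc m i * f e.1 i j) := by
    intro e
    rw [← lsum_lc (fun i => f e.1 i j) m hm]
    clear hm
    induction m with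
    | nil => simp [lsum_nil]
    | cons e' m ih =>
      rw [lsum_cons, lsum_cons, ih]
      simp only [Int.mul_def]
      ring
  rw [ddg]
  simp only [h1]
  rw [lsum_lc (fun k => ∑ i ∈ range 76, lc m i * f k i j) l hl]
  refine sum_congr rfl fun k _ => ?_
  rw [mul_sum]
  exact sum_congr rfl fun i _ => by ring

theorem xxg_eq (f : ℕ → ℕ → ℕ → ℤ) {a b : ℕ} (ha : a < 76) (hb : b < 76) (j : ℕ) :
    xxg f a b j = ∑ s : Fin 6, ∑ k ∈ range 76, ∑ i ∈ range 76,
      lc (xs a s) k * lc (xs b s) i * f k i j := by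
  rw [xxg, zip6 _ _ _ (factB ha).1 (factB hb).1]
  exact sum_congr rfl fun s _ => ddg_eq f ((factB ha).2.2 s).2 ((factB hb).2.2 s).2 j

/-! ### The cubic sums -/

section sums

variable (r : Finset ℕ)

/-- Contraction of a transposed matrix. -/
theorem contr (X : ℕ → ℕ → ℝ) (G v : ℕ → ℝ) :
    ∑ a ∈ r, (∑ k ∈ r, X k a * G k) * v a = ∑ k ∈ r, G k * ∑ a ∈ r, X k a * v a := by
  simp only [sum_mul, mul_sum]
  rw [sum_comm]
  exact sum_congr rfl fun k _ => sum_congr rfl fun a _ => by ring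

theorem pull3 (F : ℕ → ℕ → ℕ → ℝ) (X : ℕ → ℝ) (G : ℕ → ℕ → ℝ) :
    ∑ i ∈ r, ∑ j ∈ r, (∑ k ∈ r, X k * F k i j) * G i j =
      ∑ k ∈ r, X k * (∑ i ∈ r, ∑ j ∈ r, F k i j * G i j) := by
  simp only [sum_mul, mul_sum]
  have h1 : ∀ i ∈ r, ∑ j ∈ r, ∑ k ∈ r, X k * F k i j * G i j =
      ∑ k ∈ r, ∑ j ∈ r, X k * (F k i j * G i j) := fun i _ => by
    rw [sum_comm]
    exact sum_congr rfl fun k _ => sum_congr rfl fun a _ => by ring
  rw [sum_congr rfl h1, sum_comm]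

theorem contr1 (X : ℕ → ℕ → ℝ) (F : ℕ → ℕ → ℕ → ℝ) (v : ℕ → ℝ) :
    ∑ a ∈ r, ∑ i ∈ r, ∑ j ∈ r, (∑ k ∈ r, X k a * F k i j) * (v a * v i * v j) =
      ∑ k ∈ r, ∑ i ∈ r, ∑ j ∈ r, F k i j * ((∑ a ∈ r, X k a * v a) * v i * v j) := by
  have h1 : ∀ a ∈ r, ∑ i ∈ r, ∑ j ∈ r, (∑ k ∈ r, X k a * F k i j) * (v a * v i * v j) =
      (∑ k ∈ r, X k a * (∑ i ∈ r, ∑ j ∈ r, F k i j * (v i * v j))) * v a := by
    intro a _
    rw [← pull3 r F (fun k => X k a) (fun i j => v i * v j), sum_mul]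
    refine sum_congr rfl fun i _ => ?_
    rw [sum_mul]
    exact sum_congr rfl fun j _ => by ring
  rw [sum_congr rfl h1, contr]
  refine sum_congr rfl fun k _ => ?_
  rw [sum_mul]
  refine sum_congr rfl fun i _ => ?_
  rw [sum_mul]
  exact sum_congr rfl fun j _ => by ring

theorem contr2 (X : ℕ → ℕ → ℝ) (F : ℕ → ℕ → ℕ → ℝ) (v : ℕ → ℝ) :
    ∑ a ∈ r, ∑ b ∈ r, ∑ j ∈ r, (∑ k ∈ r, ∑ i ∈ r, X k a * X i b * F k i j) * (v a * v b * v j) =
      ∑ k ∈ r, ∑ i ∈ r, ∑ j ∈ r, F k i j *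
        ((∑ a ∈ r, X k a * v a) * (∑ b ∈ r, X i b * v b) * v j) := by
  have h1 : ∀ a b j : ℕ, ∑ k ∈ r, ∑ i ∈ r, X k a * X i b * F k i j =
      ∑ k ∈ r, X k a * (∑ i ∈ r, X i b * F k i j) := fun a b j => by
    refine sum_congr rfl fun k _ => ?_
    rw [mul_sum]
    exact sum_congr rfl fun i _ => by ring
  simp only [h1]
  rw [contr1 r X (fun k b j => ∑ i ∈ r, X i b * F k i j) v]
  refine sum_congr rfl fun k _ => ?_
  have h2 : ∀ b ∈ r, ∑ j ∈ r, (∑ i ∈ r, X i b * F k i j) * ((∑ a ∈ r, X k a * v a) * v b * v j) =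
      (∑ i ∈ r, X i b * (∑ j ∈ r, F k i j * v j)) * ((∑ a ∈ r, X k a * v a) * v b) := by
    intro b _
    generalize ∑ a ∈ r, X k a * v a = U
    simp only [sum_mul, mul_sum]
    rw [sum_comm]
    exact sum_congr rfl fun i _ => sum_congr rfl fun j _ => by ring
  rw [sum_congr rfl h2]
  have h3 := contr r X (fun i => ∑ j ∈ r, F k i j * v j) (fun b => (∑ a ∈ r, X k a * v a) * v b)
  rw [h3]
  refine sum_congr rfl fun i _ => ?_
  rw [sum_mul]
  refine sum_congr rfl fun j _ => ?_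
  have h4 : ∑ a ∈ r, X i a * ((∑ a ∈ r, X k a * v a) * v a) =
      (∑ a ∈ r, X k a * v a) * ∑ b ∈ r, X i b * v b := by
    rw [mul_sum]
    exact sum_congr rfl fun a _ => by ring
  rw [h4]
  ring

theorem swap12 (F : ℕ → ℕ → ℕ → ℝ) (hF : ∀ k i j, F k i j = F i k j) (G : ℕ → ℕ → ℕ → ℝ) :
    ∑ k ∈ r, ∑ i ∈ r, ∑ j ∈ r, F k i j * G i k j = ∑ k ∈ r, ∑ i ∈ r, ∑ j ∈ r, F k i j * G k i j := by
  rw [sum_comm]
  exact sum_congr rfl fun i _ => sum_congr rfl fun k _ => sum_congr rfl fun j _ => by rw [hF]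

theorem swap23 (F : ℕ → ℕ → ℕ → ℝ) (hF : ∀ k i j, F k i j = F k j i) (G : ℕ → ℕ → ℕ → ℝ) :
    ∑ k ∈ r, ∑ i ∈ r, ∑ j ∈ r, F k i j * G k j i = ∑ k ∈ r, ∑ i ∈ r, ∑ j ∈ r, F k i j * G k i j := by
  refine sum_congr rfl fun k _ => ?_
  rw [sum_comm]
  exact sum_congr rfl fun i _ => sum_congr rfl fun j _ => by rw [hF]

/-- Symmetrisation of the second order expression. -/
theorem symm_second (F : ℕ → ℕ → ℕ → ℝ) (h12 : ∀ k i j, F k i j = F i k j)
    (h23 : ∀ k i j, F k i j = F k j i) (v u w : ℕ → ℝ) :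
    ∑ k ∈ r, ∑ i ∈ r, ∑ j ∈ r, F k i j * (w k * v i * v j + v k * w i * v j + v k * v i * w j
        + 2 * (u k * u i * v j + u k * v i * u j + v k * u i * u j)) =
      3 * ∑ k ∈ r, ∑ i ∈ r, ∑ j ∈ r, F k i j * (w k * v i * v j)
        + 6 * ∑ k ∈ r, ∑ i ∈ r, ∑ j ∈ r, F k i j * (u k * u i * v j) := by
  have a1 := swap12 r F h12 (fun k i j => w k * v i * v j)
  have a2 := swap23 r F h23 (fun k i j => v k * w i * v j)
  have b1 := swap23 r F h23 (fun k i j => u k * u i * v j)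
  have b2 := swap12 r F h12 (fun k i j => u k * v i * u j)
  have e1 : ∑ k ∈ r, ∑ i ∈ r, ∑ j ∈ r, F k i j * (w k * v i * v j + v k * w i * v j
        + v k * v i * w j + 2 * (u k * u i * v j + u k * v i * u j + v k * u i * u j)) =
      ∑ k ∈ r, ∑ i ∈ r, ∑ j ∈ r, F k i j * (w k * v i * v j)
      + ∑ k ∈ r, ∑ i ∈ r, ∑ j ∈ r, F k i j * (w i * v k * v j)
      + ∑ k ∈ r, ∑ i ∈ r, ∑ j ∈ r, F k i j * (v k * w j * v i)
      + 2 * ∑ k ∈ r, ∑ i ∈ r, ∑ j ∈ r, F k i j * (u k * u i * v j)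
      + 2 * ∑ k ∈ r, ∑ i ∈ r, ∑ j ∈ r, F k i j * (u k * u j * v i)
      + 2 * ∑ k ∈ r, ∑ i ∈ r, ∑ j ∈ r, F k i j * (u i * v k * u j) := by
    simp only [mul_sum, ← sum_add_distrib]
    exact sum_congr rfl fun k _ => sum_congr rfl fun i _ => sum_congr rfl fun j _ => by ring
  have a3 : ∑ k ∈ r, ∑ i ∈ r, ∑ j ∈ r, F k i j * (v k * w i * v j) =
      ∑ k ∈ r, ∑ i ∈ r, ∑ j ∈ r, F k i j * (w i * v k * v j) :=
    sum_congr rfl fun k _ => sum_congr rfl fun i _ => sum_congr rfl fun j _ => by ring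
  have b3 : ∑ k ∈ r, ∑ i ∈ r, ∑ j ∈ r, F k i j * (u k * v i * u j) =
      ∑ k ∈ r, ∑ i ∈ r, ∑ j ∈ r, F k i j * (u k * u j * v i) :=
    sum_congr rfl fun k _ => sum_congr rfl fun i _ => sum_congr rfl fun j _ => by ring
  rw [e1]
  linarith

end sums

/-- The coordinates of the derivative of the derivative. -/
theorem cv_lie2 {S : T6'} (hS : Lin 1 S) {k : ℕ} (hk : k < 76) :
    ∑ s : Fin 6, cv 0 (lie (Gs s) (lie (Gs s) S)) k =
      ∑ a ∈ range 76, (lc (Tr.get ctT a) k : ℝ) * cv 1 S a := by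
  have h1 : ∀ s : Fin 6, cv 0 (lie (Gs s) (lie (Gs s) S)) k =
      ∑ a ∈ range 76, (∑ m ∈ range 76, (lc (xs a s) m : ℝ) * (lc (xs m s) k : ℝ)) * cv 1 S a := by
    intro s
    rw [cv_lie (lin_lie hS (Gs_skew s) (Gs_blk s)) s hk,
      contr (range 76) (fun m a => (lc (xs a s) m : ℝ)) (fun m => (lc (xs m s) k : ℝ))]
    exact sum_congr rfl fun m hm => by rw [cv_lie hS s (mem_range.1 hm)]
  simp only [h1]
  rw [sum_comm]
  refine sum_congr rfl fun a ha => ?_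
  rw [factC hk (mem_range.1 ha), ← sum_mul]
  push_cast
  rfl

/-- The action lemma, arbitrary symmetric coefficients. -/
theorem casimirg_le {f : ℕ → ℕ → ℕ → ℤ} (f12 : ∀ k i j, f k i j = f i k j)
    (f23 : ∀ k i j, f k i j = f k j i) {S : T6'} (hS : Lin 1 S)
    (hso : ∀ s : Fin 6, ∑ k ∈ range 76, ∑ i ∈ range 76, ∑ j ∈ range 76, (f k i j : ℝ) *
      (cv 0 (lie (Gs s) (lie (Gs s) S)) k * cv 1 S i * cv 1 S j
        + cv 1 S k * cv 0 (lie (Gs s) (lie (Gs s) S)) i * cv 1 S j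
        + cv 1 S k * cv 1 S i * cv 0 (lie (Gs s) (lie (Gs s) S)) j
        + 2 * (cv 0 (lie (Gs s) S) k * cv 0 (lie (Gs s) S) i * cv 1 S j
          + cv 0 (lie (Gs s) S) k * cv 1 S i * cv 0 (lie (Gs s) S) j
          + cv 1 S k * cv 0 (lie (Gs s) S) i * cv 0 (lie (Gs s) S) j)) ≤ 0) :
    ∑ k ∈ range 76, ∑ i ∈ range 76, ∑ j ∈ range 76, ((3 * ccg f k i j + 6 * xxg f k i j : ℤ) : ℝ) *
      (cv 1 S k * cv 1 S i * cv 1 S j) ≤ 0 := by
  have h12 : ∀ k i j, (f k i j : ℝ) = (f i k j : ℝ) := fun k i j => by rw [f12]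
  have h23 : ∀ k i j, (f k i j : ℝ) = (f k j i : ℝ) := fun k i j => by rw [f23]
  have h1 := sum_nonpos fun (s : Fin 6) (_ : s ∈ univ) => hso s
  simp only [symm_second (range 76) (fun k i j => (f k i j : ℝ)) h12 h23 (cv 1 S)] at h1
  rw [sum_add_distrib, ← mul_sum, ← mul_sum] at h1
  have e1 : ∑ s : Fin 6, ∑ k ∈ range 76, ∑ i ∈ range 76, ∑ j ∈ range 76, (f k i j : ℝ) *
      (cv 0 (lie (Gs s) (lie (Gs s) S)) k * cv 1 S i * cv 1 S j) =
      ∑ k ∈ range 76, ∑ i ∈ range 76, ∑ j ∈ range 76, (ccg f k i j : ℝ) *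
        (cv 1 S k * cv 1 S i * cv 1 S j) := by
    have e2 : ∀ k ∈ range 76, ∀ i ∈ range 76, ∀ j ∈ range 76, (ccg f k i j : ℝ) *
        (cv 1 S k * cv 1 S i * cv 1 S j) = (∑ m ∈ range 76, (lc (Tr.get ctT k) m : ℝ) *
          (f m i j : ℝ)) * (cv 1 S k * cv 1 S i * cv 1 S j) := by
      intro k hk i _ j _
      rw [ccg_eq f (mem_range.1 hk)]
      push_cast
      rfl
    rw [sum_congr rfl fun k hk => sum_congr rfl fun i hi => sum_congr rfl (e2 k hk i hi),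
      contr1 (range 76) (fun m a => (lc (Tr.get ctT a) m : ℝ)) (fun k i j => (f k i j : ℝ)),
      sum_comm]
    refine sum_congr rfl fun k hk => ?_
    rw [sum_comm]
    refine sum_congr rfl fun i _ => ?_
    rw [sum_comm]
    refine sum_congr rfl fun j _ => ?_
    rw [← cv_lie2 hS (mem_range.1 hk), sum_mul, sum_mul, mul_sum]
  have e3 : ∑ s : Fin 6, ∑ k ∈ range 76, ∑ i ∈ range 76, ∑ j ∈ range 76, (f k i j : ℝ) *
      (cv 0 (lie (Gs s) S) k * cv 0 (lie (Gs s) S) i * cv 1 S j) =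
      ∑ k ∈ range 76, ∑ i ∈ range 76, ∑ j ∈ range 76, (xxg f k i j : ℝ) *
        (cv 1 S k * cv 1 S i * cv 1 S j) := by
    have e2 : ∀ k ∈ range 76, ∀ i ∈ range 76, ∀ j ∈ range 76, (xxg f k i j : ℝ) *
        (cv 1 S k * cv 1 S i * cv 1 S j) = ∑ s : Fin 6, (∑ m ∈ range 76, ∑ n ∈ range 76,
          (lc (xs k s) m : ℝ) * (lc (xs i s) n : ℝ) * (f m n j : ℝ)) *
            (cv 1 S k * cv 1 S i * cv 1 S j) := by
      intro k hk i hi j _
      rw [xxg_eq f (mem_range.1 hk) (mem_range.1 hi), ← sum_mul]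
      push_cast
      rfl
    rw [sum_congr rfl fun k hk => sum_congr rfl fun i hi => sum_congr rfl (e2 k hk i hi)]
    have e4 : ∀ G : ℕ → ℕ → ℕ → Fin 6 → ℝ,
        ∑ k ∈ range 76, ∑ i ∈ range 76, ∑ j ∈ range 76, ∑ s : Fin 6, G k i j s =
        ∑ s : Fin 6, ∑ k ∈ range 76, ∑ i ∈ range 76, ∑ j ∈ range 76, G k i j s := by
      intro G
      calc _ = ∑ k ∈ range 76, ∑ i ∈ range 76, ∑ s : Fin 6, ∑ j ∈ range 76, G k i j s :=
            sum_congr rfl fun k _ => sum_congr rfl fun i _ => sum_comm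
        _ = ∑ k ∈ range 76, ∑ s : Fin 6, ∑ i ∈ range 76, ∑ j ∈ range 76, G k i j s :=
            sum_congr rfl fun k _ => sum_comm
        _ = _ := sum_comm
    rw [e4]
    refine sum_congr rfl fun s _ => ?_
    rw [contr2 (range 76) (fun m a => (lc (xs a s) m : ℝ)) (fun k i j => (f k i j : ℝ))]
    refine sum_congr rfl fun k hk => sum_congr rfl fun i hi => sum_congr rfl fun j _ => ?_
    rw [cv_lie hS s (mem_range.1 hk), cv_lie hS s (mem_range.1 hi)]
  rw [e1, e3] at h1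
  have e5 : ∑ k ∈ range 76, ∑ i ∈ range 76, ∑ j ∈ range 76, ((3 * ccg f k i j + 6 * xxg f k i j : ℤ) : ℝ)
      * (cv 1 S k * cv 1 S i * cv 1 S j) =
      3 * ∑ k ∈ range 76, ∑ i ∈ range 76, ∑ j ∈ range 76, (ccg f k i j : ℝ) *
        (cv 1 S k * cv 1 S i * cv 1 S j) +
      6 * ∑ k ∈ range 76, ∑ i ∈ range 76, ∑ j ∈ range 76, (xxg f k i j : ℝ) *
        (cv 1 S k * cv 1 S i * cv 1 S j) := by
    simp only [mul_sum, ← sum_add_distrib]
    refine sum_congr rfl fun k _ => sum_congr rfl fun i _ => sum_congr rfl fun j _ => ?_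
    push_cast
    ring
  rw [e5]
  exact h1

/-- The action lemma for a tensor which maximises a cubic with symmetric coefficients over block
rotations. -/
theorem casimirg_le_of_max {f : ℕ → ℕ → ℕ → ℤ} (f12 : ∀ k i j, f k i j = f i k j)
    (f23 : ∀ k i j, f k i j = f k j i) {S : T6'} (hS : Lin 1 S)
    (hmax : ∀ g : M6, IsBlk g → gᵀ * g = 1 →
      H91.Split.P (fun k i j => (f k i j : ℝ)) 76 (H91.Split.vq qd (rot g S)) ≤
        H91.Split.P (fun k i j => (f k i j : ℝ)) 76 (H91.Split.vq qd S)) :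
    ∑ k ∈ range 76, ∑ i ∈ range 76, ∑ j ∈ range 76, ((3 * ccg f k i j + 6 * xxg f k i j : ℤ) : ℝ) *
      (cv 1 S k * cv 1 S i * cv 1 S j) ≤ 0 :=
  casimirg_le f12 f23 hS fun s => H91.Split.second_order_P hmax (Gs_skew s) (Gs_blk s)

/-- The action lemma for the auxiliary cubic `fh`. -/
theorem casimir_le_of_max {S : T6'} (hS : Lin 1 S)
    (hmax : ∀ g : M6, IsBlk g → gᵀ * g = 1 →
      H91.Split.P (fun k i j => (fh k i j : ℝ)) 76 (H91.Split.vq qd (rot g S)) ≤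
        H91.Split.P (fun k i j => (fh k i j : ℝ)) 76 (H91.Split.vq qd S)) :
    ∑ k ∈ range 76, ∑ i ∈ range 76, ∑ j ∈ range 76, ((3 * cc k i j + 6 * xx k i j : ℤ) : ℝ) *
      (cv 1 S k * cv 1 S i * cv 1 S j) ≤ 0 :=
  casimirg_le_of_max (fun k i j => fhg_symm12 fT i k j) (fun k i j => fhg_symm23 fT k j i) hS hmax

end HopfKC.Act
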