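import Pool.Agent.Lib.H91.Mat3Pos

set_option autoImplicit false

namespace H91.Mat3

open Finset Matrix

/-- The identity-like tensor. -/
def dl : T4 := fun i k j l => (if i = j then 1 else 0) * (if k = l then 1 else 0)

/-- The perturbed tensor. -/
def pert (T : T4) (ε : ℝ) : T4 := fun i k j l => T i k j l + ε * dl i k j l

theorem Sy_pert {T : T4} (hs : Sy T) (ε : ℝ) : Sy (pert T ε) := by
  intro i k j l
  simp only [pert, dl, hs i k j l, eq_comm]

/-- real vectors -/
theorem GP_real {T : T4} (hG : GP T) (x y : Fin 3 → ℝ) :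
    0 ≤ ∑ i, ∑ k, ∑ j, ∑ l, T i k j l * (x i * y k * x j * y l) := by
  have h := hG (fun i => (x i : ℂ)) (fun k => (y k : ℂ))
  simp only [Complex.conj_ofReal] at h
  have e : (∑ i, ∑ k, ∑ j, ∑ l, ((T i k j l : ℝ) : ℂ) * ((x i : ℂ) * (y k : ℂ) * (x j : ℂ) *
      (y l : ℂ))) = ((∑ i, ∑ k, ∑ j, ∑ l, T i k j l * (x i * y k * x j * y l) : ℝ) : ℂ) := by
    push_cast
    rfl
  rw [e, Complex.ofReal_re] at h
  exact h

theorem NT_nonneg {T : T4} (hG : GP T) (g h : Mr) : 0 ≤ NT T g h := by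
  have e : NT T g h = ∑ a, ∑ b, ∑ i, ∑ k, ∑ j, ∑ l,
      T i k j l * (g i a * h k b * g j a * h l b) := by
    have h1 : ∑ a, ∑ b, ∑ i, ∑ k, ∑ j, ∑ l, T i k j l * (g i a * h k b * g j a * h l b) =
        ∑ i, ∑ k, ∑ j, ∑ l, ∑ a, ∑ b, T i k j l * (g i a * h k b * g j a * h l b) := by
      calc _ = ∑ a, ∑ i, ∑ k, ∑ j, ∑ l, ∑ b, T i k j l * (g i a * h k b * g j a * h l b) :=
            sum_congr rfl fun a _ => move_in (fun b i k j l =>
              T i k j l * (g i a * h k b * g j a * h l b))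
        _ = _ := move_in (fun a i k j l => ∑ b, T i k j l * (g i a * h k b * g j a * h l b))
    rw [h1, NT]
    refine sum_congr rfl fun i _ => ?_
    rw [sum_comm]
    refine sum_congr rfl fun k _ => sum_congr rfl fun j _ => sum_congr rfl fun l _ => ?_
    simp only [Matrix.mul_apply, Matrix.transpose_apply]
    rw [mul_assoc, sum_mul_sum, mul_sum]
    refine sum_congr rfl fun a _ => ?_
    rw [mul_sum]
    refine sum_congr rfl fun b _ => ?_
    ring
  rw [e]
  exact sum_nonneg fun a _ => sum_nonneg fun b _ => GP_real hG (fun i => g i a) (fun k => h k b)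

theorem NT_dl (g h : Mr) : NT dl g h = (g * gᵀ).trace * (h * hᵀ).trace := by
  unfold NT dl
  simp [Matrix.trace, sum_mul_sum]

theorem NT_pert (T : T4) (ε : ℝ) (g h : Mr) :
    NT (pert T ε) g h = NT T g h + ε * ((g * gᵀ).trace * (h * hᵀ).trace) := by
  rw [← NT_dl]
  simp only [NT, pert, mul_sum, ← sum_add_distrib]
  refine sum_congr rfl fun i _ => sum_congr rfl fun k _ => sum_congr rfl fun j _ =>
    sum_congr rfl fun l _ => ?_
  ring

theorem trace_mul_transpose (g : Mr) : (g * gᵀ).trace = ∑ i, ∑ j, g i j ^ 2 := by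
  simp only [Matrix.trace, Matrix.diag, Matrix.mul_apply, Matrix.transpose_apply, pow_two]

theorem sq_le_trace (g : Mr) (i j : Fin 3) : g i j ^ 2 ≤ (g * gᵀ).trace := by
  rw [trace_mul_transpose]
  calc g i j ^ 2 ≤ ∑ j, g i j ^ 2 :=
        single_le_sum (f := fun j => g i j ^ 2) (fun _ _ => sq_nonneg _) (mem_univ j)
    _ ≤ ∑ i, ∑ j, g i j ^ 2 :=
        single_le_sum (f := fun i => ∑ j, g i j ^ 2)
          (fun _ _ => sum_nonneg fun _ _ => sq_nonneg _) (mem_univ i)

theorem trace_lb (g : Mr) (hg : g.det = 1) : 1 / 9 ≤ (g * gᵀ).trace := by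
  by_contra hcon
  push Not at hcon
  have hb : ∀ i j, |g i j| ≤ 1 / 3 := by
    intro i j
    have h1 := sq_le_trace g i j
    have : |g i j| ^ 2 ≤ (1 / 3 : ℝ) ^ 2 := by rw [sq_abs]; linarith
    exact abs_le_of_sq_le_sq' (by linarith [sq_abs (g i j)]) (by norm_num) |>.2
  have hprod : ∀ a b c : ℝ, |a| ≤ 1 / 3 → |b| ≤ 1 / 3 → |c| ≤ 1 / 3 → |a * b * c| ≤ 1 / 27 := by
    intro a b c ha hb hc
    rw [abs_mul, abs_mul]
    calc |a| * |b| * |c| ≤ 1 / 3 * (1 / 3) * (1 / 3) := by gcongr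
      _ = 1 / 27 := by norm_num
  rw [Matrix.det_fin_three] at hg
  have t1 := abs_le.1 (hprod _ _ _ (hb 0 0) (hb 1 1) (hb 2 2))
  have t2 := abs_le.1 (hprod _ _ _ (hb 0 0) (hb 1 2) (hb 2 1))
  have t3 := abs_le.1 (hprod _ _ _ (hb 0 1) (hb 1 0) (hb 2 2))
  have t4 := abs_le.1 (hprod _ _ _ (hb 0 1) (hb 1 2) (hb 2 0))
  have t5 := abs_le.1 (hprod _ _ _ (hb 0 2) (hb 1 0) (hb 2 1))
  have t6 := abs_le.1 (hprod _ _ _ (hb 0 2) (hb 1 1) (hb 2 0))
  linarith [t1.2, t2.1, t3.1, t4.2, t5.2, t6.1]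

/-- Existence of a minimiser. -/
theorem exists_min {T : T4} (hG : GP T) {ε : ℝ} (hε : 0 < ε) :
    ∃ g h : Mr, g.det = 1 ∧ h.det = 1 ∧ ∀ g' h' : Mr, g'.det = 1 → h'.det = 1 →
      NT (pert T ε) g h ≤ NT (pert T ε) g' h' := by
  set N1 := NT (pert T ε) 1 1 with hN1
  set K : Set ((Fin 3 → Fin 3 → ℝ) × (Fin 3 → Fin 3 → ℝ)) :=
    {p | (Matrix.of p.1).det = 1 ∧ (Matrix.of p.2).det = 1 ∧
      NT (pert T ε) (Matrix.of p.1) (Matrix.of p.2) ≤ N1} with hK
  have cdet1 : Continuous fun p : (Fin 3 → Fin 3 → ℝ) × (Fin 3 → Fin 3 → ℝ) =>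
      (Matrix.of p.1 : Mr).det := by
    simp only [Matrix.det_fin_three, Matrix.of_apply]
    fun_prop
  have cdet2 : Continuous fun p : (Fin 3 → Fin 3 → ℝ) × (Fin 3 → Fin 3 → ℝ) =>
      (Matrix.of p.2 : Mr).det := by
    simp only [Matrix.det_fin_three, Matrix.of_apply]
    fun_prop
  have cNT : Continuous fun p : (Fin 3 → Fin 3 → ℝ) × (Fin 3 → Fin 3 → ℝ) =>
      NT (pert T ε) (Matrix.of p.1) (Matrix.of p.2) := by
    simp only [NT, Matrix.mul_apply, Matrix.transpose_apply, Matrix.of_apply]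
    fun_prop
  have hclosed : IsClosed K := by
    have : K = {p | (Matrix.of p.1 : Mr).det = 1} ∩ ({p | (Matrix.of p.2 : Mr).det = 1} ∩
        {p | NT (pert T ε) (Matrix.of p.1) (Matrix.of p.2) ≤ N1}) := rfl
    rw [this]
    exact (isClosed_eq cdet1 continuous_const).inter
      ((isClosed_eq cdet2 continuous_const).inter (isClosed_le cNT continuous_const))
  have hbd : ∀ p ∈ K, (∀ i j, p.1 i j ∈ Set.Icc (-(9 * N1 / ε + 1)) (9 * N1 / ε + 1)) ∧
      (∀ i j, p.2 i j ∈ Set.Icc (-(9 * N1 / ε + 1)) (9 * N1 / ε + 1)) := by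
    rintro ⟨g, h⟩ ⟨hg, hh, hN⟩
    simp only at hg hh hN
    have lg := trace_lb _ hg
    have lh := trace_lb _ hh
    rw [NT_pert] at hN
    have hnn := NT_nonneg hG (Matrix.of g) (Matrix.of h)
    set a := ((Matrix.of g : Mr) * (Matrix.of g)ᵀ).trace with ha
    set b := ((Matrix.of h : Mr) * (Matrix.of h)ᵀ).trace with hb
    have hab : ε * (a * b) ≤ N1 := by linarith
    have hA : a ≤ 9 * N1 / ε := by
      rw [le_div_iff₀ hε]
      have : a * (1 / 9) ≤ a * b := mul_le_mul_of_nonneg_left lh (by linarith)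
      nlinarith
    have hB : b ≤ 9 * N1 / ε := by
      rw [le_div_iff₀ hε]
      have : (1 / 9) * b ≤ a * b := mul_le_mul_of_nonneg_right lg (by linarith)
      nlinarith
    constructor
    · intro i j
      have h1 := sq_le_trace (Matrix.of g) i j
      rw [← ha] at h1
      have h2 : (g i j) ^ 2 ≤ 9 * N1 / ε := le_trans h1 hA
      rw [Set.mem_Icc]
      constructor <;> nlinarith [sq_nonneg (g i j - 1), sq_nonneg (g i j + 1)]
    · intro i j
      have h1 := sq_le_trace (Matrix.of h) i j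
      rw [← hb] at h1
      have h2 : (h i j) ^ 2 ≤ 9 * N1 / ε := le_trans h1 hB
      rw [Set.mem_Icc]
      constructor <;> nlinarith [sq_nonneg (h i j - 1), sq_nonneg (h i j + 1)]
  have hcomp : IsCompact K := by
    set B := 9 * N1 / ε + 1
    have hbox : IsCompact ((Set.univ.pi fun _ : Fin 3 => Set.univ.pi fun _ : Fin 3 =>
        Set.Icc (-B) B) ×ˢ (Set.univ.pi fun _ : Fin 3 => Set.univ.pi fun _ : Fin 3 =>
        Set.Icc (-B) B) : Set ((Fin 3 → Fin 3 → ℝ) × (Fin 3 → Fin 3 → ℝ))) := by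
      apply IsCompact.prod <;>
      exact isCompact_univ_pi fun _ => isCompact_univ_pi fun _ => isCompact_Icc
    refine hbox.of_isClosed_subset hclosed fun p hp => ?_
    obtain ⟨h1, h2⟩ := hbd p hp
    refine ⟨?_, ?_⟩
    · intro i _ j _
      exact h1 i j
    · intro i _ j _
      exact h2 i j
  have hone : ((fun i j => (1 : Mr) i j), (fun i j => (1 : Mr) i j)) ∈ K := by
    refine ⟨?_, ?_, ?_⟩
    · exact Matrix.det_one
    · exact Matrix.det_one
    · exact le_refl N1
  obtain ⟨p, hpK, hp⟩ := hcomp.exists_isMinOn ⟨_, hone⟩ cNT.continuousOn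
  refine ⟨Matrix.of p.1, Matrix.of p.2, hpK.1, hpK.2.1, fun g' h' hg' hh' => ?_⟩
  by_cases hle : NT (pert T ε) g' h' ≤ N1
  · have hmem : ((Matrix.of.symm g' : Fin 3 → Fin 3 → ℝ), (Matrix.of.symm h' : Fin 3 → Fin 3 → ℝ))
        ∈ K := by
      rw [hK, Set.mem_ofPred_eq]
      simp only [Equiv.apply_symm_apply]
      exact ⟨hg', hh', hle⟩
    have := isMinOn_iff.1 hp _ hmem
    simp only [Equiv.apply_symm_apply] at this
    exact this
  · push Not at hle
    exact le_trans hpK.2.2 hle.le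

theorem QP_pert_nonneg {T : T4} (hs : Sy T) (hG : GP T) {ε : ℝ} (hε : 0 < ε)
    (hGp : GP (pert T ε)) : 0 ≤ QP (pert T ε) := by
  obtain ⟨g, h, hg, hh, hmin⟩ := exists_min hG hε
  set S := pert T ε with hS
  have hsS : Sy S := Sy_pert hs ε
  -- first factor
  have f1 : ∃ c : ℝ, gᵀ * R1 S h * g = c • (1 : Mr) := by
    apply firstorder
    · rw [Matrix.transpose_mul, Matrix.transpose_mul, Matrix.transpose_transpose, R1_symm hsS,
        mul_assoc]
    · intro g1 hg1
      have := hmin (g * g1) h (by rw [Matrix.det_mul, hg, hg1, one_mul]) hh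
      rw [NT_eq1, NT_eq1] at this
      calc (gᵀ * R1 S h * g).trace ≤ _ := this
        _ = _ := by
          rw [Matrix.transpose_mul]
          simp only [mul_assoc]
  have f2 : ∃ c : ℝ, hᵀ * R2 S g * h = c • (1 : Mr) := by
    apply firstorder
    · rw [Matrix.transpose_mul, Matrix.transpose_mul, Matrix.transpose_transpose, R2_symm hsS,
        mul_assoc]
    · intro h1 hh1
      have := hmin g (h * h1) hg (by rw [Matrix.det_mul, hh, hh1, one_mul])
      rw [NT_eq2, NT_eq2] at this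
      calc (hᵀ * R2 S g * h).trace ≤ _ := this
        _ = _ := by
          rw [Matrix.transpose_mul]
          simp only [mul_assoc]
  obtain ⟨c, hc⟩ := f1
  obtain ⟨c', hc'⟩ := f2
  have hcc : c = c' := by
    have e1 := NT_eq1 S g h
    have e2 := NT_eq2 S g h
    rw [hc] at e1
    rw [hc'] at e2
    rw [e1] at e2
    simp [Matrix.trace_smul] at e2
    exact e2
  have hb := balanced_real (act g h S) (Sy_act g h hsS) (GP_act g h hGp) c
    (fun i j => by rw [marg1, hc, Matrix.smul_apply, Matrix.one_apply]; simp)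
    (fun k l => by rw [marg2, hc', hcc, Matrix.smul_apply, Matrix.one_apply]; simp)
  rw [QP_act, hg, hh] at hb
  simpa using hb

theorem GP_pert {T : T4} (hG : GP T) {ε : ℝ} (hε : 0 ≤ ε) : GP (pert T ε) := by
  intro x y
  have e : (∑ i, ∑ k, ∑ j, ∑ l, ((pert T ε i k j l : ℝ) : ℂ) *
      (x i * y k * (starRingEnd ℂ) (x j) * (starRingEnd ℂ) (y l))) =
      (∑ i, ∑ k, ∑ j, ∑ l, ((T i k j l : ℝ) : ℂ) *
      (x i * y k * (starRingEnd ℂ) (x j) * (starRingEnd ℂ) (y l))) +
      ((ε * ((∑ i, Complex.normSq (x i)) * ∑ k, Complex.normSq (y k)) : ℝ) : ℂ) := by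
    have e1 : ((ε * ((∑ i, Complex.normSq (x i)) * ∑ k, Complex.normSq (y k)) : ℝ) : ℂ) =
        ∑ i, ∑ k, ∑ j, ∑ l, ((ε * dl i k j l : ℝ) : ℂ) *
      (x i * y k * (starRingEnd ℂ) (x j) * (starRingEnd ℂ) (y l)) := by
      simp only [dl]
      push_cast
      rw [sum_mul_sum, mul_sum]
      refine sum_congr rfl fun i _ => ?_
      rw [mul_sum]
      refine sum_congr rfl fun k _ => ?_
      rw [← Complex.mul_conj, ← Complex.mul_conj]
      rw [Finset.sum_eq_single i, Finset.sum_eq_single k]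
      · rw [if_pos rfl, if_pos rfl]
        push_cast
        ring
      · intro l _ hl
        rw [if_neg (Ne.symm hl)]
        simp
      · intro h
        exact absurd (mem_univ _) h
      · intro j _ hj
        rw [if_neg (Ne.symm hj)]
        simp
      · intro h
        exact absurd (mem_univ _) h
    rw [e1]
    simp only [← sum_add_distrib, pert]
    refine sum_congr rfl fun i _ => sum_congr rfl fun k _ => sum_congr rfl fun j _ =>
      sum_congr rfl fun l _ => ?_
    push_cast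
    ring
  rw [e, Complex.add_re, Complex.ofReal_re]
  have h1 := hG x y
  have h2 : 0 ≤ ε * ((∑ i, Complex.normSq (x i)) * ∑ k, Complex.normSq (y k)) :=
    mul_nonneg hε (mul_nonneg (sum_nonneg fun _ _ => Complex.normSq_nonneg _)
      (sum_nonneg fun _ _ => Complex.normSq_nonneg _))
  linarith

/-- **The `Mat₃` theorem.** If the real tensor `T i k j l = T j l i k` is Griffiths nonnegative
over the complex numbers, then its antisymmetrised cubic form is nonnegative. -/
theorem QP_nonneg (T : T4) (hs : Sy T) (hG : GP T) : 0 ≤ QP T := by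
  have hc : Continuous fun ε : ℝ => QP (pert T ε) := by
    unfold QP pert
    fun_prop
  have h0 : QP (pert T 0) = QP T := by
    congr 1
    funext i k j l
    simp [pert]
  rw [← h0]
  have ht : Filter.Tendsto (fun ε : ℝ => QP (pert T ε)) (nhdsWithin 0 (Set.Ioi 0))
      (nhds (QP (pert T 0))) := (hc.tendsto 0).mono_left nhdsWithin_le_nhds
  exact ge_of_tendsto ht (Filter.eventually_of_mem self_mem_nhdsWithin fun ε hε =>
    QP_pert_nonneg hs hG hε (GP_pert hG (le_of_lt hε)))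

end H91.Mat3
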