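import Pool.Agent.Lib.H91.Mat3Bal

set_option autoImplicit false

namespace H91.Mat3

open Finset Matrix
open scoped ComplexOrder

/-- Real four-tensors `T i k j l`. -/
abbrev T4 : Type := Fin 3 → Fin 3 → Fin 3 → Fin 3 → ℝ

/-- The antisymmetrised cubic form `E |det v|²` of `T i k j l = E (v i k * v j l)`. -/
noncomputable def QP (T : T4) : ℝ :=
  ∑ ρ : Equiv.Perm (Fin 3), ∑ π : Equiv.Perm (Fin 3), ∑ τ : Equiv.Perm (Fin 3),
    (((Equiv.Perm.sign ρ : ℤˣ) : ℤ) : ℝ) * (((Equiv.Perm.sign π : ℤˣ) : ℤ) : ℝ) *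
      (((Equiv.Perm.sign τ : ℤˣ) : ℤ) : ℝ) * ∏ a, T a (π a) (ρ a) (τ a)

/-- Griffiths nonnegativity over the complex numbers. -/
def GP (T : T4) : Prop := ∀ x y : Fin 3 → ℂ, 0 ≤ (∑ i, ∑ k, ∑ j, ∑ l, ((T i k j l : ℝ) : ℂ) *
  (x i * y k * (starRingEnd ℂ) (x j) * (starRingEnd ℂ) (y l))).re

/-- Symmetry under exchange of the two pairs. -/
def Sy (T : T4) : Prop := ∀ i k j l, T i k j l = T j l i k

/-- Blocks of `T` as complex matrices. -/
noncomputable def BT (T : T4) (i j : Fin 3) : Mc := Matrix.of fun k l => ((T i k j l : ℝ) : ℂ)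

theorem BT_apply (T : T4) (i j k l : Fin 3) : BT T i j k l = ((T i k j l : ℝ) : ℂ) := rfl

theorem QP_eq (T : T4) : ((QP T : ℝ) : ℂ) =
    ∑ ρ : Equiv.Perm (Fin 3), (((Equiv.Perm.sign ρ : ℤˣ) : ℤ) : ℂ) *
      DD (BT T 0 (ρ 0)) (BT T 1 (ρ 1)) (BT T 2 (ρ 2)) := by
  unfold QP
  push_cast
  refine sum_congr rfl fun ρ _ => ?_
  rw [DD_apply, mul_sum]
  refine sum_congr rfl fun π _ => ?_
  rw [mul_sum]
  refine sum_congr rfl fun τ _ => ?_
  rw [Fin.prod_univ_three]
  simp only [BT_apply]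
  ring

theorem AA_apply (T : T4) (m : Fin 31) (k l : Fin 3) : AA (BT T) m k l =
    ∑ i, ∑ j, (cu m i * (starRingEnd ℂ) (cu m j)) * ((T i k j l : ℝ) : ℂ) := by
  simp only [AA, Matrix.sum_apply, Matrix.smul_apply, smul_eq_mul, BT_apply]

theorem AA_herm (T : T4) (hs : Sy T) (m : Fin 31) : (AA (BT T) m).IsHermitian := by
  ext k l
  rw [Matrix.conjTranspose_apply, AA_apply, AA_apply]
  simp only [star_sum, star_mul', RCLike.star_def, Complex.conj_ofReal, Complex.conj_conj]
  rw [sum_comm]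
  refine sum_congr rfl fun i _ => sum_congr rfl fun j _ => ?_
  rw [hs j l i k]
  ring

theorem AA_posSemidef (T : T4) (hs : Sy T) (hG : GP T) (m : Fin 31) :
    (AA (BT T) m).PosSemidef := by
  refine Matrix.PosSemidef.of_dotProduct_mulVec_nonneg (AA_herm T hs m) fun y => ?_
  rw [Complex.le_def]
  refine ⟨?_, ?_⟩
  · have h := hG (cu m) (fun k => (starRingEnd ℂ) (y k))
    have e : (∑ i, ∑ k, ∑ j, ∑ l, ((T i k j l : ℝ) : ℂ) *
        (cu m i * (starRingEnd ℂ) (y k) * (starRingEnd ℂ) (cu m j) *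
          (starRingEnd ℂ) ((starRingEnd ℂ) (y l)))) = star y ⬝ᵥ AA (BT T) m *ᵥ y := by
      have e2 : star y ⬝ᵥ AA (BT T) m *ᵥ y = ∑ k, ∑ l, ∑ i, ∑ j, ((T i k j l : ℝ) : ℂ) *
        (cu m i * (starRingEnd ℂ) (y k) * (starRingEnd ℂ) (cu m j) *
          (starRingEnd ℂ) ((starRingEnd ℂ) (y l))) := by
        simp only [dotProduct, mulVec, AA_apply, Pi.star_apply, RCLike.star_def, mul_sum, sum_mul,
          Complex.conj_conj]
        refine sum_congr rfl fun k _ => sum_congr rfl fun l _ => sum_congr rfl fun i _ =>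
          sum_congr rfl fun j _ => ?_
        ring
      rw [e2, sum_comm]
      refine sum_congr rfl fun k _ => ?_
      rw [sum_comm' (s := univ) (t := fun _ => univ) (t' := univ) (s' := fun _ => univ)
        (h := by simp)]
      rw [sum_comm]
      symm
      rw [sum_comm]
      refine sum_congr rfl fun i _ => ?_
      rw [sum_comm]
    rw [e] at h
    exact h
  · have := Matrix.IsHermitian.im_star_dotProduct_mulVec_self (AA_herm T hs m) y
    simpa using this.symm

/-- The balanced case for real tensors. -/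
theorem balanced_real (T : T4) (hs : Sy T) (hG : GP T) (c : ℝ)
    (h1 : ∀ i j, ∑ k, T i k j k = if i = j then c else 0)
    (h2 : ∀ k l, ∑ i, T i k i l = if k = l then c else 0) : 0 ≤ QP T := by
  have h := balanced (BT T) c ?_ ?_ (AA_posSemidef T hs hG)
  · rw [← QP_eq] at h
    have e : (6 * ((QP T : ℝ) : ℂ)).re = 6 * QP T := by
      rw [show (6 : ℂ) * ((QP T : ℝ) : ℂ) = ((6 * QP T : ℝ) : ℂ) by push_cast; ring,
        Complex.ofReal_re]
    rw [e] at h
    linarith
  · intro i j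
    have := congrArg (fun x : ℝ => (x : ℂ)) (h1 i j)
    simp only [Complex.ofReal_sum] at this
    rw [Matrix.trace]
    simp only [Matrix.diag, BT_apply]
    rw [this]
    split_ifs <;> simp
  · ext k l
    rw [Matrix.sum_apply]
    simp only [BT_apply, Matrix.smul_apply, smul_eq_mul, Matrix.one_apply]
    have := congrArg (fun x : ℝ => (x : ℂ)) (h2 k l)
    simp only [Complex.ofReal_sum] at this
    rw [this]
    split_ifs <;> simp

end H91.Mat3
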