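import Pool.Agent.Lib.H91.HopfMax
import Pool.Agent.Lib.H87.HopfKC.Ent
import Pool.Agent.Lib.H87.HopfKC.Cert.Def

/-!
# The action lemma: second order condition in coordinates
-/

set_option autoImplicit false

namespace HopfKC.Act

open Finset Matrix
open H91.Split (T6 M6 IsBlk rot lie ric)

/-! ### The six rotation planes -/

/-- Planes. -/
def pl : Fin 6 → Fin 6 × Fin 6 := ![(0, 1), (0, 2), (1, 2), (3, 4), (3, 5), (4, 5)]

/-- Generators. -/
def Gs (s : Fin 6) : M6 := fun m a =>
  if a = (pl s).1 ∧ m = (pl s).2 then 1 else if a = (pl s).2 ∧ m = (pl s).1 then -1 else 0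

theorem Gs_skew (s : Fin 6) : (Gs s)ᵀ = -Gs s := by
  ext m a
  simp only [Matrix.transpose_apply, Matrix.neg_apply, Gs]
  fin_cases s <;> fin_cases m <;> fin_cases a <;> simp [pl]

theorem Gs_blk (s : Fin 6) : IsBlk (Gs s) := by
  intro a α
  simp only [Gs]
  fin_cases s <;> fin_cases a <;> fin_cases α <;> simp [pl, H91.Split.lo, H91.Split.hi]

/-- Linear forms: one slot. -/
def sl (s a : Fin 6) (F : Fin 6 → List (ℕ × ℤ)) : List (ℕ × ℤ) :=
  if a = (pl s).1 then F (pl s).2
  else if a = (pl s).2 then (F (pl s).1).map fun e => (e.1, (-1) * e.2) else []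

theorem pl_ne (s : Fin 6) : (pl s).1 ≠ (pl s).2 := by
  fin_cases s <;> decide

theorem lev_sl (v : ℕ → ℝ) (s a : Fin 6) (F : Fin 6 → List (ℕ × ℤ)) :
    lev v (sl s a F) = ∑ m, Gs s m a * lev v (F m) := by
  have hne := pl_ne s
  simp only [sl, Gs]
  by_cases h1 : a = (pl s).1
  · have h2 : a ≠ (pl s).2 := fun h => hne (h1.symm.trans h)
    simp [h1, hne]
  · by_cases h2 : a = (pl s).2
    · subst h2
      simp only [h1, if_false, if_true, false_and, true_and, lev_scale]
      simp
    · simp [h1, h2, lev_nil]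

/-- Linear form of twice an entry of the derivative. -/
def lent (s a b c d : Fin 6) : List (ℕ × ℤ) :=
  sl s a (fun m => ent m b c d) ++ (sl s b (fun m => ent a m c d) ++
    (sl s c (fun m => ent a b m d) ++ sl s d (fun m => ent a b c m)))

theorem lev_lent {c : ℝ} {R : T6'} (h : Lin c R) (s a b i d : Fin 6) :
    lev (cv c R) (lent s a b i d) = 2 * lie (Gs s) R a b i d := by
  simp only [lent, lev_append, lev_sl, lev_ent h, lie, sum_add_distrib, mul_add, mul_sum]
  have e : ∀ x y z w : Fin 6 → ℝ, (∑ i, x i = ∑ i, y i) → (∑ i, x i + ∑ i, z i =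
    ∑ i, y i + ∑ i, z i) := fun x y z w h => by rw [h]
  have r : ∀ x y : ℝ, x * (2 * y) = 2 * (x * y) := fun x y => by ring
  simp only [r]
  ring

/-! ### The derivative satisfies the homogeneous linear relations -/

theorem sum_lohi (f : Fin 6 → ℝ) : ∑ i, f i = ∑ a, f (lo a) + ∑ α, f (hi α) :=
  H91.Split.sum_split f

theorem lie_isAlgCurv {R : T6'} (hA : HopfSix.IsAlgCurv R) (X : M6) :
    HopfSix.IsAlgCurv (lie X R) := by
  refine ⟨fun i j k l => ?_, fun i j k l => ?_, fun i j k l => ?_⟩
  · simp only [lie, ← sum_neg_distrib]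
    refine sum_congr rfl fun m _ => ?_
    rw [hA.skew m j k l, hA.skew i m k l, hA.skew i j m l, hA.skew i j k m]
    ring
  · simp only [lie]
    refine sum_congr rfl fun m _ => ?_
    rw [hA.pair m j k l, hA.pair i m k l, hA.pair i j m l, hA.pair i j k m]
    ring
  · simp only [lie, ← sum_add_distrib]
    refine sum_eq_zero fun m _ => ?_
    linear_combination X m i * hA.bianchi m j k l + X m j * hA.bianchi i m k l +
      X m k * hA.bianchi i j m l + X m l * hA.bianchi i j k m

/-- Double sums against a skew matrix. -/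
theorem skew_sum {n : ℕ} (X F : Fin n → Fin n → ℝ) (hx : ∀ i j, X i j = - X j i) :
    ∑ b, ∑ c, X c b * (F c b + F b c) = 0 := by
  have h : ∑ b, ∑ c, X c b * (F c b + F b c) = - ∑ b, ∑ c, X c b * (F c b + F b c) := by
    conv_lhs => rw [sum_comm]
    rw [← sum_neg_distrib]
    refine sum_congr rfl fun b _ => ?_
    rw [← sum_neg_distrib]
    refine sum_congr rfl fun c _ => ?_
    rw [hx b c]
    ring
  linarith

theorem lin_lie {c : ℝ} {R : T6'} (h : Lin c R) {X : M6} (hX : Xᵀ = -X) (hB : IsBlk X) :
    Lin 0 (lie X R) := by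
  have hx : ∀ i j, X i j = - X j i := fun i j => by
    have := congrFun (congrFun hX j) i
    simpa [Matrix.transpose_apply] using this
  have hb1 : ∀ a α, X (lo a) (hi α) = 0 := fun a α => (hB a α).1
  have hb2 : ∀ a α, X (hi α) (lo a) = 0 := fun a α => (hB a α).2
  have hA := h.alg
  refine ⟨lie_isAlgCurv hA X, fun i k => ?_, fun α a => ?_, fun α a => ?_⟩
  · have e1 : H91.Split.ric (lie X R) i k = ∑ m, X m i * H91.Split.ric R m k
        + (∑ j, ∑ m, X m j * (R i m k j + R i j k m)) + ∑ m, X m k * H91.Split.ric R i m := by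
      simp only [H91.Split.ric, lie, mul_sum]
      rw [sum_comm (s := univ) (t := univ) (f := fun m j => X m i * R m j k j),
        sum_comm (s := univ) (t := univ) (f := fun m j => X m k * R i j m j),
        ← sum_add_distrib, ← sum_add_distrib]
      refine sum_congr rfl fun j _ => ?_
      rw [← sum_add_distrib, ← sum_add_distrib]
      refine sum_congr rfl fun m _ => ?_
      ring
    have e2 := skew_sum (fun a b => X a b) (fun m j => R i m k j) hx
    rw [e1, e2]
    simp only [h.ein, mul_ite, mul_zero, sum_ite_eq', sum_ite_eq, mem_univ, if_true]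
    rw [hx i k]
    split_ifs <;> ring
  · have e1 : ∑ b, lie X R (hi α) (lo b) (lo a) (lo b) =
        ∑ m, X m (hi α) * (∑ b, R m (lo b) (lo a) (lo b))
        + (∑ b, ∑ m, X m (lo b) * (R (hi α) m (lo a) (lo b) + R (hi α) (lo b) (lo a) m))
        + ∑ m, X m (lo a) * ∑ b, R (hi α) (lo b) m (lo b) := by
      simp only [lie, mul_sum]
      rw [sum_comm (s := univ) (t := univ) (f := fun m b => X m (hi α) * R m (lo b) (lo a) (lo b)),
        sum_comm (s := univ) (t := univ) (f := fun m b => X m (lo a) * R (hi α) (lo b) m (lo b)),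
        ← sum_add_distrib, ← sum_add_distrib]
      refine sum_congr rfl fun j _ => ?_
      rw [← sum_add_distrib, ← sum_add_distrib]
      refine sum_congr rfl fun m _ => ?_
      ring
    have e2 := skew_sum (fun b c => X (lo b) (lo c))
      (fun c b => R (hi α) (lo c) (lo a) (lo b)) (fun b c => hx _ _)
    rw [e1]
    simp only [sum_lohi, hb1, hb2, h.fo1, mul_zero, zero_mul, sum_const_zero, add_zero, e2]
  · have e1 : ∑ b, lie X R (hi α) (hi b) (lo a) (hi b) =
        ∑ m, X m (hi α) * (∑ b, R m (hi b) (lo a) (hi b))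
        + (∑ b, ∑ m, X m (hi b) * (R (hi α) m (lo a) (hi b) + R (hi α) (hi b) (lo a) m))
        + ∑ m, X m (lo a) * ∑ b, R (hi α) (hi b) m (hi b) := by
      simp only [lie, mul_sum]
      rw [sum_comm (s := univ) (t := univ) (f := fun m b => X m (hi α) * R m (hi b) (lo a) (hi b)),
        sum_comm (s := univ) (t := univ) (f := fun m b => X m (lo a) * R (hi α) (hi b) m (hi b)),
        ← sum_add_distrib, ← sum_add_distrib]
      refine sum_congr rfl fun j _ => ?_
      rw [← sum_add_distrib, ← sum_add_distrib]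
      refine sum_congr rfl fun m _ => ?_
      ring
    have e2 := skew_sum (fun b c => X (hi b) (hi c))
      (fun c b => R (hi α) (hi c) (lo a) (hi b)) (fun b c => hx _ _)
    rw [e1]
    simp only [sum_lohi, hb1, hb2, h.fo2, mul_zero, zero_mul, sum_const_zero, zero_add, add_zero,
      e2]

end HopfKC.Act
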