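import Pool.Agent.Lib.H91.Mat3Real

set_option autoImplicit false

namespace H91.Mat3

open Finset Matrix

abbrev Mr : Type := Matrix (Fin 3) (Fin 3) ℝ

/-! ### Slot actions and the antisymmetrised form -/

/-- Action on the last slot. -/
def s4 (h : Mr) (T : T4) : T4 := fun i k j l => ∑ l', T i k j l' * h l' l
/-- Action on the second slot. -/
def s2 (h : Mr) (T : T4) : T4 := fun i k j l => ∑ k', T i k' j l * h k' k
/-- Action on the third slot. -/
def s3 (h : Mr) (T : T4) : T4 := fun i k j l => ∑ j', T i k j' l * h j' j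
/-- Action on the first slot. -/
def s1 (h : Mr) (T : T4) : T4 := fun i k j l => ∑ i', T i' k j l * h i' i

theorem QP_s4 (h : Mr) (T : T4) : QP (s4 h T) = h.det * QP T := by
  unfold QP
  rw [mul_sum]
  refine sum_congr rfl fun ρ _ => ?_
  rw [mul_sum]
  refine sum_congr rfl fun π _ => ?_
  have key : ∀ S : T4, ∑ τ : Equiv.Perm (Fin 3), (((Equiv.Perm.sign ρ : ℤˣ) : ℤ) : ℝ) *
      (((Equiv.Perm.sign π : ℤˣ) : ℤ) : ℝ) * (((Equiv.Perm.sign τ : ℤˣ) : ℤ) : ℝ) *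
        ∏ a, S a (π a) (ρ a) (τ a) = (((Equiv.Perm.sign ρ : ℤˣ) : ℤ) : ℝ) *
      (((Equiv.Perm.sign π : ℤˣ) : ℤ) : ℝ) * (Matrix.of fun b a => S a (π a) (ρ a) b).det := by
    intro S
    rw [Matrix.det_apply', mul_sum]
    refine sum_congr rfl fun τ _ => ?_
    simp only [Matrix.of_apply]
    ring
  rw [key, key]
  have : (Matrix.of fun b a => s4 h T a (π a) (ρ a) b) =
      hᵀ * (Matrix.of fun b a => T a (π a) (ρ a) b) := by
    ext b a
    simp only [s4, Matrix.of_apply, Matrix.mul_apply, Matrix.transpose_apply]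
    exact sum_congr rfl fun l _ => mul_comm _ _
  rw [this, Matrix.det_mul, Matrix.det_transpose]
  ring

theorem QP_swap24 (T : T4) : QP (fun i k j l => T i l j k) = QP T := by
  unfold QP
  refine sum_congr rfl fun ρ _ => ?_
  rw [sum_comm]
  refine sum_congr rfl fun π _ => sum_congr rfl fun τ _ => ?_
  ring

theorem QP_swap34 (T : T4) : QP (fun i k j l => T i k l j) = QP T := by
  unfold QP
  rw [sum_comm]
  have : ∀ π : Equiv.Perm (Fin 3), ∑ ρ : Equiv.Perm (Fin 3), ∑ τ : Equiv.Perm (Fin 3),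
    (((Equiv.Perm.sign ρ : ℤˣ) : ℤ) : ℝ) * (((Equiv.Perm.sign π : ℤˣ) : ℤ) : ℝ) *
      (((Equiv.Perm.sign τ : ℤˣ) : ℤ) : ℝ) * ∏ a, T a (π a) (τ a) (ρ a) =
      ∑ ρ : Equiv.Perm (Fin 3), ∑ τ : Equiv.Perm (Fin 3),
    (((Equiv.Perm.sign ρ : ℤˣ) : ℤ) : ℝ) * (((Equiv.Perm.sign π : ℤˣ) : ℤ) : ℝ) *
      (((Equiv.Perm.sign τ : ℤˣ) : ℤ) : ℝ) * ∏ a, T a (π a) (ρ a) (τ a) := by
    intro π
    rw [sum_comm]
    refine sum_congr rfl fun ρ _ => sum_congr rfl fun τ _ => ?_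
    ring
  simp only [this]
  rw [sum_comm]

theorem QP_swap13 (T : T4) : QP (fun i k j l => T j k i l) = QP T := by
  unfold QP
  rw [← Equiv.sum_comp (Equiv.inv (Equiv.Perm (Fin 3)))]
  refine sum_congr rfl fun ρ _ => ?_
  rw [← Equiv.sum_comp (Equiv.mulRight ρ⁻¹)]
  refine sum_congr rfl fun π _ => ?_
  rw [← Equiv.sum_comp (Equiv.mulRight ρ⁻¹)]
  refine sum_congr rfl fun τ _ => ?_
  have e1 : ∏ a, T ((Equiv.inv (Equiv.Perm (Fin 3)) ρ) a) ((Equiv.mulRight ρ⁻¹ π) a) a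
      ((Equiv.mulRight ρ⁻¹ τ) a) = ∏ a, T a (π a) (ρ a) (τ a) := by
    rw [← Equiv.prod_comp ρ]
    simp
  rw [e1]
  simp only [Equiv.inv_apply, Equiv.coe_mulRight, Equiv.Perm.sign_mul, Equiv.Perm.sign_inv,
    Units.val_mul, Int.cast_mul]
  have h2 : ((((Equiv.Perm.sign ρ : ℤˣ) : ℤ) : ℝ)) * (((Equiv.Perm.sign ρ : ℤˣ) : ℤ) : ℝ) = 1 := by
    rcases Int.units_eq_one_or (Equiv.Perm.sign ρ) with h | h <;> rw [h] <;> norm_num
  linear_combination (((Equiv.Perm.sign ρ : ℤˣ) : ℤ) : ℝ) * (((Equiv.Perm.sign π : ℤˣ) : ℤ) : ℝ) *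
      (((Equiv.Perm.sign τ : ℤˣ) : ℤ) : ℝ) * (∏ a, T a (π a) (ρ a) (τ a)) * h2

theorem QP_s2 (h : Mr) (T : T4) : QP (s2 h T) = h.det * QP T := by
  have : s2 h T = fun i k j l => (s4 h (fun i k j l => T i l j k)) i l j k := rfl
  rw [this, QP_swap24, QP_s4, QP_swap24]

theorem QP_s3 (h : Mr) (T : T4) : QP (s3 h T) = h.det * QP T := by
  have : s3 h T = fun i k j l => (s4 h (fun i k j l => T i k l j)) i k l j := rfl
  rw [this, QP_swap34, QP_s4, QP_swap34]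

theorem QP_s1 (h : Mr) (T : T4) : QP (s1 h T) = h.det * QP T := by
  have : s1 h T = fun i k j l => (s3 h (fun i k j l => T j k i l)) j k i l := rfl
  rw [this, QP_swap13, QP_s3, QP_swap13]

/-- Action of a pair of matrices. -/
def act (g h : Mr) (T : T4) : T4 := fun i k j l =>
  ∑ i', ∑ k', ∑ j', ∑ l', T i' k' j' l' * (g i' i * h k' k * g j' j * h l' l)

theorem act_eq (g h : Mr) (T : T4) : act g h T = s1 g (s2 h (s3 g (s4 h T))) := by
  funext i k j l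
  simp only [act, s1, s2, s3, s4, sum_mul]
  refine sum_congr rfl fun i' _ => sum_congr rfl fun k' _ => sum_congr rfl fun j' _ =>
    sum_congr rfl fun l' _ => ?_
  ring

theorem QP_act (g h : Mr) (T : T4) : QP (act g h T) = g.det ^ 2 * h.det ^ 2 * QP T := by
  rw [act_eq, QP_s1, QP_s2, QP_s3, QP_s4]
  ring

theorem Sy_act (g h : Mr) {T : T4} (hs : Sy T) : Sy (act g h T) := by
  intro i k j l
  simp only [act]
  -- swap (i',k') with (j',l')
  have : ∀ f : Fin 3 → Fin 3 → Fin 3 → Fin 3 → ℝ, ∑ a, ∑ b, ∑ c, ∑ d, f a b c d =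
      ∑ c, ∑ d, ∑ a, ∑ b, f a b c d := by
    intro f
    calc ∑ a, ∑ b, ∑ c, ∑ d, f a b c d = ∑ a, ∑ c, ∑ b, ∑ d, f a b c d :=
          sum_congr rfl fun a _ => sum_comm
      _ = ∑ c, ∑ a, ∑ b, ∑ d, f a b c d := sum_comm
      _ = ∑ c, ∑ a, ∑ d, ∑ b, f a b c d :=
          sum_congr rfl fun c _ => sum_congr rfl fun a _ => sum_comm
      _ = ∑ c, ∑ d, ∑ a, ∑ b, f a b c d := sum_congr rfl fun c _ => sum_comm
  rw [this]
  refine sum_congr rfl fun c _ => sum_congr rfl fun d _ => sum_congr rfl fun a _ =>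
    sum_congr rfl fun b _ => ?_
  rw [hs a b c d]
  ring

end H91.Mat3
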