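import Pool.Agent.Lib.H91.Mat3Design

set_option autoImplicit false

namespace H91.Mat3

open Finset

/-- The vectors of the design as complex vectors. -/
noncomputable def cu (m : Fin 31) (i : Fin 3) : ℂ := GaussianInt.toComplex (du m i)

theorem toComplex_star (z : GaussianInt) :
    GaussianInt.toComplex (star z) = (starRingEnd ℂ) (GaussianInt.toComplex z) := by
  rw [GaussianInt.toComplex_star]

theorem cdesign3 (i₀ j₀ i₁ j₁ i₂ j₂ : Fin 3) :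
    ∑ m : Fin 31, ((dw m : ℤ) : ℂ) * ((cu m i₀ * (starRingEnd ℂ) (cu m j₀)) *
      (cu m i₁ * (starRingEnd ℂ) (cu m j₁)) * (cu m i₂ * (starRingEnd ℂ) (cu m j₂))) =
    16 * ((if j₀ = i₀ ∧ j₁ = i₁ ∧ j₂ = i₂ then 1 else 0) +
      (if j₀ = i₁ ∧ j₁ = i₀ ∧ j₂ = i₂ then 1 else 0) +
      (if j₀ = i₂ ∧ j₁ = i₁ ∧ j₂ = i₀ then 1 else 0) +
      (if j₀ = i₀ ∧ j₁ = i₂ ∧ j₂ = i₁ then 1 else 0) +
      (if j₀ = i₁ ∧ j₁ = i₂ ∧ j₂ = i₀ then 1 else 0) +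
      (if j₀ = i₂ ∧ j₁ = i₀ ∧ j₂ = i₁ then 1 else 0)) := by
  have h := congrArg GaussianInt.toComplex (design3 i₀ j₀ i₁ j₁ i₂ j₂)
  simp only [map_sum, map_mul, map_add, toComplex_star, apply_ite GaussianInt.toComplex,
    map_one, map_zero, map_intCast, map_ofNat] at h
  exact h

theorem cdesign2 (i₀ j₀ i₁ j₁ : Fin 3) :
    ∑ m : Fin 31, ((dw m : ℤ) : ℂ) * ((∑ a, cu m a * (starRingEnd ℂ) (cu m a)) *
      ((cu m i₀ * (starRingEnd ℂ) (cu m j₀)) * (cu m i₁ * (starRingEnd ℂ) (cu m j₁)))) =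
    80 * ((if j₀ = i₀ ∧ j₁ = i₁ then 1 else 0) + (if j₀ = i₁ ∧ j₁ = i₀ then 1 else 0)) := by
  have h := congrArg GaussianInt.toComplex (design2 i₀ j₀ i₁ j₁)
  simp only [map_sum, map_mul, map_add, toComplex_star, apply_ite GaussianInt.toComplex,
    map_one, map_zero, map_intCast, map_ofNat] at h
  exact h

theorem cdesign0 :
    ∑ m : Fin 31, ((dw m : ℤ) : ℂ) * (∑ a, cu m a * (starRingEnd ℂ) (cu m a)) ^ 3 = 960 := by
  have h := congrArg GaussianInt.toComplex design0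
  simp only [map_sum, map_mul, toComplex_star, map_pow, map_intCast, map_ofNat] at h
  exact h

variable {V : Type*} [AddCommGroup V] [Module ℂ V]

/-- The vector `A_u` for the `m`-th vector of the design. -/
noncomputable def AA (b : Fin 3 → Fin 3 → V) (m : Fin 31) : V :=
  ∑ i, ∑ j, (cu m i * (starRingEnd ℂ) (cu m j)) • b i j

theorem avg3 (D : V →ₗ[ℂ] V →ₗ[ℂ] V →ₗ[ℂ] ℂ) (b : Fin 3 → Fin 3 → V) :
    ∑ m : Fin 31, ((dw m : ℤ) : ℂ) * D (AA b m) (AA b m) (AA b m) =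
    16 * ∑ i₀, ∑ i₁, ∑ i₂, (D (b i₀ i₀) (b i₁ i₁) (b i₂ i₂) + D (b i₀ i₁) (b i₁ i₀) (b i₂ i₂)
      + D (b i₀ i₂) (b i₁ i₁) (b i₂ i₀) + D (b i₀ i₀) (b i₁ i₂) (b i₂ i₁)
      + D (b i₀ i₁) (b i₁ i₂) (b i₂ i₀) + D (b i₀ i₂) (b i₁ i₀) (b i₂ i₁)) := by
  have hexp : ∀ m, D (AA b m) (AA b m) (AA b m) =
      ∑ i₀, ∑ j₀, ∑ i₁, ∑ j₁, ∑ i₂, ∑ j₂,
        ((cu m i₀ * (starRingEnd ℂ) (cu m j₀)) * (cu m i₁ * (starRingEnd ℂ) (cu m j₁)) *
          (cu m i₂ * (starRingEnd ℂ) (cu m j₂))) * D (b i₂ j₂) (b i₁ j₁) (b i₀ j₀) := by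
    intro m
    simp only [AA, map_sum, LinearMap.sum_apply, map_smul, LinearMap.smul_apply, smul_eq_mul,
      mul_sum]
    simp only [← mul_assoc]
  have hsw : ∑ m : Fin 31, ((dw m : ℤ) : ℂ) * D (AA b m) (AA b m) (AA b m) =
      ∑ i₀, ∑ j₀, ∑ i₁, ∑ j₁, ∑ i₂, ∑ j₂,
        (∑ m : Fin 31, ((dw m : ℤ) : ℂ) * ((cu m i₀ * (starRingEnd ℂ) (cu m j₀)) *
          (cu m i₁ * (starRingEnd ℂ) (cu m j₁)) *
          (cu m i₂ * (starRingEnd ℂ) (cu m j₂)))) * D (b i₂ j₂) (b i₁ j₁) (b i₀ j₀) := by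
    simp only [hexp, mul_sum, sum_mul]
    rw [sum_comm]
    refine sum_congr rfl fun i₀ _ => ?_
    rw [sum_comm]
    refine sum_congr rfl fun j₀ _ => ?_
    rw [sum_comm]
    refine sum_congr rfl fun i₁ _ => ?_
    rw [sum_comm]
    refine sum_congr rfl fun j₁ _ => ?_
    rw [sum_comm]
    refine sum_congr rfl fun i₂ _ => ?_
    rw [sum_comm]
    refine sum_congr rfl fun j₂ _ => ?_
    refine sum_congr rfl fun m _ => ?_
    ring
  rw [hsw]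
  simp only [cdesign3]
  simp only [mul_add, add_mul, sum_add_distrib]
  simp [Fin.sum_univ_three]
  ring

theorem avg2 (D : V →ₗ[ℂ] V →ₗ[ℂ] ℂ) (b : Fin 3 → Fin 3 → V) :
    ∑ m : Fin 31, ((dw m : ℤ) : ℂ) * ((∑ a, cu m a * (starRingEnd ℂ) (cu m a)) *
      D (AA b m) (AA b m)) =
    80 * ∑ i₀, ∑ i₁, (D (b i₀ i₀) (b i₁ i₁) + D (b i₀ i₁) (b i₁ i₀)) := by
  have hexp : ∀ m, D (AA b m) (AA b m) =
      ∑ i₀, ∑ j₀, ∑ i₁, ∑ j₁,
        ((cu m i₀ * (starRingEnd ℂ) (cu m j₀)) * (cu m i₁ * (starRingEnd ℂ) (cu m j₁))) *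
          D (b i₁ j₁) (b i₀ j₀) := by
    intro m
    simp only [AA, map_sum, LinearMap.sum_apply, map_smul, LinearMap.smul_apply, smul_eq_mul,
      mul_sum]
    simp only [← mul_assoc]
  have hsw : ∑ m : Fin 31, ((dw m : ℤ) : ℂ) * ((∑ a, cu m a * (starRingEnd ℂ) (cu m a)) *
      D (AA b m) (AA b m)) =
      ∑ i₀, ∑ j₀, ∑ i₁, ∑ j₁,
        (∑ m : Fin 31, ((dw m : ℤ) : ℂ) * ((∑ a, cu m a * (starRingEnd ℂ) (cu m a)) *
          ((cu m i₀ * (starRingEnd ℂ) (cu m j₀)) *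
          (cu m i₁ * (starRingEnd ℂ) (cu m j₁))))) * D (b i₁ j₁) (b i₀ j₀) := by
    simp only [hexp]
    set nn : Fin 31 → ℂ := fun m => ∑ a, cu m a * (starRingEnd ℂ) (cu m a) with hnn
    have hn : ∀ m, ∑ a, cu m a * (starRingEnd ℂ) (cu m a) = nn m := fun m => rfl
    simp only [hn, mul_sum, sum_mul]
    rw [sum_comm]
    refine sum_congr rfl fun i₀ _ => ?_
    rw [sum_comm]
    refine sum_congr rfl fun j₀ _ => ?_
    rw [sum_comm]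
    refine sum_congr rfl fun i₁ _ => ?_
    rw [sum_comm]
    refine sum_congr rfl fun j₁ _ => ?_
    refine sum_congr rfl fun m _ => ?_
    ring
  rw [hsw]
  simp only [cdesign2]
  simp only [mul_add, add_mul, sum_add_distrib]
  simp [Fin.sum_univ_three]
  ring

end H91.Mat3
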