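import Pool.Agent.Lib.H91.Mat3Point

set_option autoImplicit false

namespace H91.Mat3

open Finset Matrix
open scoped ComplexOrder

abbrev Mc : Type := Matrix (Fin 3) (Fin 3) ℂ

/-- Coordinate functional. -/
noncomputable def cf (k l : Fin 3) : Mc →ₗ[ℂ] ℂ where
  toFun X := X k l
  map_add' _ _ := rfl
  map_smul' _ _ := rfl

theorem cf_apply (k l : Fin 3) (X : Mc) : cf k l X = X k l := rfl

/-- The polarised determinant. -/
noncomputable def DD : Mc →ₗ[ℂ] Mc →ₗ[ℂ] Mc →ₗ[ℂ] ℂ :=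
  ∑ π : Equiv.Perm (Fin 3), ∑ τ : Equiv.Perm (Fin 3),
    ((((Equiv.Perm.sign π : ℤˣ) : ℤ) : ℂ) * (((Equiv.Perm.sign τ : ℤˣ) : ℤ) : ℂ)) •
      (cf (π 0) (τ 0)).smulRight ((cf (π 1) (τ 1)).smulRight (cf (π 2) (τ 2)))

theorem DD_apply (X Y Z : Mc) : DD X Y Z =
    ∑ π : Equiv.Perm (Fin 3), ∑ τ : Equiv.Perm (Fin 3),
      (((Equiv.Perm.sign π : ℤˣ) : ℤ) : ℂ) * (((Equiv.Perm.sign τ : ℤˣ) : ℤ) : ℂ) *
        (X (π 0) (τ 0) * Y (π 1) (τ 1) * Z (π 2) (τ 2)) := by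
  simp only [DD, LinearMap.sum_apply, LinearMap.smul_apply, LinearMap.smulRight_apply, cf_apply,
    smul_eq_mul]
  refine sum_congr rfl fun π _ => sum_congr rfl fun τ _ => ?_
  ring

theorem perm3 {M : Type*} [AddCommMonoid M] (f : Equiv.Perm (Fin 3) → M) :
    ∑ π, f π = f 1 + f (Equiv.swap 0 1) + f (Equiv.swap 0 2) + f (Equiv.swap 1 2) +
      f (Equiv.swap 0 1 * Equiv.swap 1 2) + f (Equiv.swap 0 2 * Equiv.swap 1 2) := by
  have h : (univ : Finset (Equiv.Perm (Fin 3))) = {1, Equiv.swap 0 1, Equiv.swap 0 2,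
      Equiv.swap 1 2, Equiv.swap 0 1 * Equiv.swap 1 2, Equiv.swap 0 2 * Equiv.swap 1 2} := by
    decide
  rw [h]
  rw [sum_insert (by decide), sum_insert (by decide), sum_insert (by decide),
    sum_insert (by decide), sum_insert (by decide), sum_singleton]
  simp only [add_assoc]

theorem DD_explicit (X Y Z : Mc) : DD X Y Z =
      X 0 0 * Y 1 1 * Z 2 2 - X 0 0 * Y 1 2 * Z 2 1 - X 0 1 * Y 1 0 * Z 2 2
      + X 0 1 * Y 1 2 * Z 2 0 + X 0 2 * Y 1 0 * Z 2 1 - X 0 2 * Y 1 1 * Z 2 0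
      - X 0 0 * Y 2 1 * Z 1 2 + X 0 0 * Y 2 2 * Z 1 1 + X 0 1 * Y 2 0 * Z 1 2
      - X 0 1 * Y 2 2 * Z 1 0 - X 0 2 * Y 2 0 * Z 1 1 + X 0 2 * Y 2 1 * Z 1 0
      - X 1 0 * Y 0 1 * Z 2 2 + X 1 0 * Y 0 2 * Z 2 1 + X 1 1 * Y 0 0 * Z 2 2
      - X 1 1 * Y 0 2 * Z 2 0 - X 1 2 * Y 0 0 * Z 2 1 + X 1 2 * Y 0 1 * Z 2 0
      + X 1 0 * Y 2 1 * Z 0 2 - X 1 0 * Y 2 2 * Z 0 1 - X 1 1 * Y 2 0 * Z 0 2
      + X 1 1 * Y 2 2 * Z 0 0 + X 1 2 * Y 2 0 * Z 0 1 - X 1 2 * Y 2 1 * Z 0 0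
      + X 2 0 * Y 0 1 * Z 1 2 - X 2 0 * Y 0 2 * Z 1 1 - X 2 1 * Y 0 0 * Z 1 2
      + X 2 1 * Y 0 2 * Z 1 0 + X 2 2 * Y 0 0 * Z 1 1 - X 2 2 * Y 0 1 * Z 1 0
      - X 2 0 * Y 1 1 * Z 0 2 + X 2 0 * Y 1 2 * Z 0 1 + X 2 1 * Y 1 0 * Z 0 2
      - X 2 1 * Y 1 2 * Z 0 0 - X 2 2 * Y 1 0 * Z 0 1 + X 2 2 * Y 1 1 * Z 0 0 := by
  rw [DD_apply]
  simp only [perm3]
  simp [Equiv.swap_apply_def, Equiv.Perm.sign_swap']
  ring

theorem DD_comm1 (X Y Z : Mc) : DD X Y Z = DD Y X Z := by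
  simp only [DD_explicit]; ring

theorem DD_comm2 (X Y Z : Mc) : DD X Y Z = DD X Z Y := by
  simp only [DD_explicit]; ring

theorem DD_self (X : Mc) : DD X X X = 6 * X.det := by
  rw [DD_explicit, Matrix.det_fin_three]; ring

theorem DD_one (X Y : Mc) : DD X Y 1 = X.trace * Y.trace - (X * Y).trace := by
  rw [DD_explicit]
  simp [Matrix.trace, Matrix.mul_apply, Fin.sum_univ_three]
  ring

/-- The quadratic companion. -/
noncomputable def D2 : Mc →ₗ[ℂ] Mc →ₗ[ℂ] ℂ := DD 1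

theorem D2_apply (X Y : Mc) : D2 X Y = X.trace * Y.trace - (X * Y).trace := by
  rw [← DD_one, D2, DD_comm1, DD_comm2]

/-- Formal expansion of the antisymmetrised sum. -/
theorem formal (b : Fin 3 → Fin 3 → Mc) :
    6 * ∑ ρ : Equiv.Perm (Fin 3), (((Equiv.Perm.sign ρ : ℤˣ) : ℤ) : ℂ) *
      DD (b 0 (ρ 0)) (b 1 (ρ 1)) (b 2 (ρ 2)) =
    (∑ i, ∑ j, ∑ k, DD (b i i) (b j j) (b k k)) - 3 * (∑ i, ∑ j, ∑ k, DD (b i j) (b j i) (b k k))
      + 2 * (∑ i, ∑ j, ∑ k, DD (b i j) (b j k) (b k i)) := by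
  simp only [perm3]
  simp [Equiv.swap_apply_def, Equiv.Perm.sign_swap', Fin.sum_univ_three]
  simp only [DD_comm1, DD_comm2]
  ring

theorem avg_det (b : Fin 3 → Fin 3 → Mc) :
    ∑ m : Fin 31, ((dw m : ℤ) : ℂ) * (6 * (AA b m).det) =
    16 * ((∑ i, ∑ j, ∑ k, DD (b i i) (b j j) (b k k))
      + 3 * (∑ i, ∑ j, ∑ k, DD (b i j) (b j i) (b k k))
      + 2 * (∑ i, ∑ j, ∑ k, DD (b i j) (b j k) (b k i))) := by
  have h := avg3 DD b
  simp only [DD_self] at h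
  rw [h]
  congr 1
  simp only [sum_add_distrib]
  have t1 : ∑ i₀, ∑ i₁, ∑ i₂, DD (b i₀ i₂) (b i₁ i₁) (b i₂ i₀) =
      ∑ i, ∑ j, ∑ k, DD (b i j) (b j i) (b k k) := by
    refine sum_congr rfl fun i _ => ?_
    rw [sum_comm]
    exact sum_congr rfl fun j _ => sum_congr rfl fun k _ => DD_comm2 _ _ _
  have t2 : ∑ i₀, ∑ i₁, ∑ i₂, DD (b i₀ i₀) (b i₁ i₂) (b i₂ i₁) =
      ∑ i, ∑ j, ∑ k, DD (b i j) (b j i) (b k k) := by
    rw [sum_comm]
    refine sum_congr rfl fun i _ => ?_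
    rw [sum_comm]
    exact sum_congr rfl fun j _ => sum_congr rfl fun k _ => by
      rw [DD_comm1, DD_comm2]
  have t3 : ∑ i₀, ∑ i₁, ∑ i₂, DD (b i₀ i₂) (b i₁ i₀) (b i₂ i₁) =
      ∑ i, ∑ j, ∑ k, DD (b i j) (b j k) (b k i) := by
    refine sum_congr rfl fun i _ => ?_
    rw [sum_comm]
    exact sum_congr rfl fun j _ => sum_congr rfl fun k _ => DD_comm2 _ _ _
  rw [t1, t2, t3]
  ring

theorem avg_e2 (b : Fin 3 → Fin 3 → Mc) :
    ∑ m : Fin 31, ((dw m : ℤ) : ℂ) * ((∑ a, cu m a * (starRingEnd ℂ) (cu m a)) *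
      ((AA b m).trace * (AA b m).trace - (AA b m * AA b m).trace)) =
    80 * ((∑ i, ∑ j, D2 (b i i) (b j j)) + ∑ i, ∑ j, D2 (b i j) (b j i)) := by
  have h := avg2 D2 b
  simp only [D2_apply] at h ⊢
  rw [h]
  congr 1
  simp only [sum_add_distrib]

/-- The balanced case. -/
theorem balanced (b : Fin 3 → Fin 3 → Mc) (c : ℝ)
    (htr : ∀ i j, (b i j).trace = if i = j then (c : ℂ) else 0)
    (hM : ∑ i, b i i = (c : ℂ) • (1 : Mc))
    (hpos : ∀ m, (AA b m).PosSemidef) :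
    0 ≤ (6 * ∑ ρ : Equiv.Perm (Fin 3), (((Equiv.Perm.sign ρ : ℤˣ) : ℤ) : ℂ) *
      DD (b 0 (ρ 0)) (b 1 (ρ 1)) (b 2 (ρ 2))).re := by
  rw [formal]
  have hd := avg_det b
  have he := avg_e2 b
  -- first moment
  have hSe : ∑ i, ∑ j, ∑ k, DD (b i i) (b j j) (b k k) = 6 * (c : ℂ) ^ 3 := by
    have : ∑ i, ∑ j, ∑ k, DD (b i i) (b j j) (b k k) = DD (∑ i, b i i) (∑ i, b i i) (∑ i, b i i) := by
      simp only [map_sum, LinearMap.sum_apply]
      rw [Fin.sum_univ_three, Fin.sum_univ_three]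
      simp only [Fin.sum_univ_three]
      simp only [DD_comm1, DD_comm2]
    rw [this, hM]
    simp only [map_smul, LinearMap.smul_apply, DD_self, Matrix.det_one, smul_eq_mul]
    ring
  set τ : ℂ := ∑ i, ∑ j, (b i j * b j i).trace with hτ
  have hD2 : ∑ i, ∑ j, D2 (b i j) (b j i) = 3 * (c : ℂ) ^ 2 - τ := by
    simp only [D2_apply, htr, sum_sub_distrib, ← hτ]
    congr 1
    simp
    ring
  have hSt : ∑ i, ∑ j, ∑ k, DD (b i j) (b j i) (b k k) = (c : ℂ) * (3 * (c : ℂ) ^ 2 - τ) := by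
    have : ∀ i j, ∑ k, DD (b i j) (b j i) (b k k) = (c : ℂ) * D2 (b i j) (b j i) := by
      intro i j
      rw [← map_sum, hM, map_smul, smul_eq_mul, D2_apply, DD_one]
    simp only [this, ← mul_sum, hD2]
  have hD20 : ∑ i, ∑ j, D2 (b i i) (b j j) = 6 * (c : ℂ) ^ 2 := by
    have : ∑ i, ∑ j, D2 (b i i) (b j j) = D2 (∑ i, b i i) (∑ i, b i i) := by
      simp only [map_sum, LinearMap.sum_apply]
      exact sum_comm
    rw [this, hM, D2_apply]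
    simp [Matrix.trace_smul]
    ring
  rw [hSe, hSt] at hd
  rw [hD20, hD2] at he
  rw [hSe, hSt]
  set Sc : ℂ := ∑ i, ∑ j, ∑ k, DD (b i j) (b j k) (b k i) with hSc
  -- norms
  have hn : ∀ m, ∃ n : ℝ, 0 ≤ n ∧ ∑ a, cu m a * (starRingEnd ℂ) (cu m a) = (n : ℂ) := by
    intro m
    refine ⟨∑ a, Complex.normSq (cu m a), sum_nonneg fun a _ => Complex.normSq_nonneg _, ?_⟩
    push_cast
    exact sum_congr rfl fun a _ => Complex.mul_conj _
  choose n hn0 hn using hn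
  have htrA : ∀ m, (AA b m).trace = (c * n m : ℝ) := by
    intro m
    rw [AA, Matrix.trace_sum]
    simp only [Matrix.trace_sum, Matrix.trace_smul, htr, smul_eq_mul, mul_ite, mul_zero,
      sum_ite_eq, mem_univ, if_true]
    rw [← sum_mul, hn m]
    push_cast
    ring
  have hw : ∀ m, (0 : ℝ) ≤ (dw m : ℤ) := by
    intro m
    have : (0 : ℤ) ≤ dw m := by revert m; decide
    exact_mod_cast this
  -- the three averages, real parts
  have h0 : ∑ m : Fin 31, ((dw m : ℤ) : ℝ) * (n m) ^ 3 = 960 := by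
    have := cdesign0
    simp only [hn] at this
    exact_mod_cast this
  have h2 : ∑ m : Fin 31, ((dw m : ℤ) : ℝ) * (n m * ((AA b m).trace.re ^ 2 -
      (AA b m * AA b m).trace.re)) = 80 * (9 * c ^ 2 - τ.re) := by
    have := congrArg Complex.re he
    rw [Complex.re_sum] at this
    have e1 : ∀ m, (((dw m : ℤ) : ℂ) * ((∑ a, cu m a * (starRingEnd ℂ) (cu m a)) *
      ((AA b m).trace * (AA b m).trace - (AA b m * AA b m).trace))).re =
      ((dw m : ℤ) : ℝ) * (n m * ((AA b m).trace.re ^ 2 - (AA b m * AA b m).trace.re)) := by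
      intro m
      rw [hn m, htrA m, ← Complex.ofReal_intCast, Complex.re_ofReal_mul, Complex.re_ofReal_mul,
        Complex.sub_re, ← Complex.ofReal_mul, Complex.ofReal_re, Complex.ofReal_re]
      ring
    simp only [e1] at this
    rw [this]
    have e2 : (80 : ℂ) * (6 * (c : ℂ) ^ 2 + (3 * (c : ℂ) ^ 2 - τ)) =
      ((80 * 9 * c ^ 2 : ℝ) : ℂ) - ((80 : ℝ) : ℂ) * τ := by push_cast; ring
    rw [e2, Complex.sub_re, Complex.ofReal_re, Complex.re_ofReal_mul]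
    ring
  have h3 : ∑ m : Fin 31, ((dw m : ℤ) : ℝ) * (6 * (AA b m).det.re) =
      16 * (6 * c ^ 3 + 3 * (c * (3 * c ^ 2 - τ.re)) + 2 * Sc.re) := by
    have := congrArg Complex.re hd
    rw [Complex.re_sum] at this
    have e1 : ∀ m, (((dw m : ℤ) : ℂ) * (6 * (AA b m).det)).re =
      ((dw m : ℤ) : ℝ) * (6 * (AA b m).det.re) := by
      intro m
      rw [← Complex.ofReal_intCast, Complex.re_ofReal_mul]
      congr 1
      simp
    simp only [e1] at this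
    rw [this]
    have e2 : (16 : ℂ) * (6 * (c : ℂ) ^ 3 + 3 * ((c : ℂ) * (3 * (c : ℂ) ^ 2 - τ)) + 2 * Sc) =
      ((16 * (15 * c ^ 3) : ℝ) : ℂ) - ((48 * c : ℝ) : ℂ) * τ + ((32 : ℝ) : ℂ) * Sc := by
      push_cast; ring
    rw [e2, Complex.add_re, Complex.sub_re, Complex.ofReal_re, Complex.re_ofReal_mul,
      Complex.re_ofReal_mul]
    ring
  have e3 : (6 * (c : ℂ) ^ 3 - 3 * ((c : ℂ) * (3 * (c : ℂ) ^ 2 - τ)) + 2 * Sc).re =
      6 * c ^ 3 - 3 * (c * (3 * c ^ 2 - τ.re)) + 2 * Sc.re := by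
    have : (6 * (c : ℂ) ^ 3 - 3 * ((c : ℂ) * (3 * (c : ℂ) ^ 2 - τ)) + 2 * Sc) =
      ((6 * c ^ 3 - 9 * c ^ 3 : ℝ) : ℂ) + ((3 * c : ℝ) : ℂ) * τ + ((2 : ℝ) : ℂ) * Sc := by
      push_cast; ring
    rw [this, Complex.add_re, Complex.add_re, Complex.ofReal_re, Complex.re_ofReal_mul,
      Complex.re_ofReal_mul]
    ring
  rw [e3]
  -- positivity
  have p3 : 0 ≤ ∑ m : Fin 31, ((dw m : ℤ) : ℝ) * (6 * (AA b m).det.re) :=
    sum_nonneg fun m _ => mul_nonneg (hw m) (mul_nonneg (by norm_num) (det_re_nonneg (hpos m)))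
  have ps : 0 ≤ ∑ m : Fin 31, ((dw m : ℤ) : ℝ) * ((AA b m).trace.re ^ 3 -
      2 * (AA b m).trace.re * ((AA b m).trace.re ^ 2 - (AA b m * AA b m).trace.re) +
        9 * (AA b m).det.re) :=
    sum_nonneg fun m _ => mul_nonneg (hw m) (schur (hpos m))
  have ps' : ∑ m : Fin 31, ((dw m : ℤ) : ℝ) * ((AA b m).trace.re ^ 3 -
      2 * (AA b m).trace.re * ((AA b m).trace.re ^ 2 - (AA b m * AA b m).trace.re) +
        9 * (AA b m).det.re) = c ^ 3 * ∑ m : Fin 31, ((dw m : ℤ) : ℝ) * (n m) ^ 3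
        - 2 * c * ∑ m : Fin 31, ((dw m : ℤ) : ℝ) * (n m * ((AA b m).trace.re ^ 2 -
      (AA b m * AA b m).trace.re)) + 3 / 2 * ∑ m : Fin 31, ((dw m : ℤ) : ℝ) *
        (6 * (AA b m).det.re) := by
    rw [mul_sum, mul_sum, mul_sum, ← sum_sub_distrib, ← sum_add_distrib]
    refine sum_congr rfl fun m _ => ?_
    have : (AA b m).trace.re = c * n m := by rw [htrA m, Complex.ofReal_re]
    rw [this]
    ring
  rw [ps', h0, h2, h3] at ps
  rw [h3] at p3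
  nlinarith [ps, p3]

end H91.Mat3
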