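import Mathlib

set_option autoImplicit false

namespace H91.Mat3

open Finset

/-- Weights of the complex projective design of strength three in dimension three. -/
def dw : Fin 31 → ℤ := ![48, 48, 48, 4, 4, 4, 4, 4, 4, 4, 4, 4, 4, 4, 4, 1, 1, 1, 1, 1, 1, 1, 1, 1, 1, 1, 1, 1, 1, 1, 1]

/-- Vectors of the complex projective design of strength three in dimension three. -/
def du : Fin 31 → Fin 3 → GaussianInt :=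
  ![![1, 0, 0],
    ![0, 1, 0],
    ![0, 0, 1],
    ![1, 1, 0],
    ![1, ⟨0, 1⟩, 0],
    ![1, ⟨-1, 0⟩, 0],
    ![1, ⟨0, -1⟩, 0],
    ![1, 0, 1],
    ![1, 0, ⟨0, 1⟩],
    ![1, 0, ⟨-1, 0⟩],
    ![1, 0, ⟨0, -1⟩],
    ![0, 1, 1],
    ![0, 1, ⟨0, 1⟩],
    ![0, 1, ⟨-1, 0⟩],
    ![0, 1, ⟨0, -1⟩],
    ![1, 1, 1],
    ![1, 1, ⟨0, 1⟩],
    ![1, 1, ⟨-1, 0⟩],
    ![1, 1, ⟨0, -1⟩],
    ![1, ⟨0, 1⟩, 1],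
    ![1, ⟨0, 1⟩, ⟨0, 1⟩],
    ![1, ⟨0, 1⟩, ⟨-1, 0⟩],
    ![1, ⟨0, 1⟩, ⟨0, -1⟩],
    ![1, ⟨-1, 0⟩, 1],
    ![1, ⟨-1, 0⟩, ⟨0, 1⟩],
    ![1, ⟨-1, 0⟩, ⟨-1, 0⟩],
    ![1, ⟨-1, 0⟩, ⟨0, -1⟩],
    ![1, ⟨0, -1⟩, 1],
    ![1, ⟨0, -1⟩, ⟨0, 1⟩],
    ![1, ⟨0, -1⟩, ⟨-1, 0⟩],
    ![1, ⟨0, -1⟩, ⟨0, -1⟩]]

theorem design3_00 : ∀ i₁ j₁ i₂ j₂ : Fin 3,
    ∑ m : Fin 31, (dw m : GaussianInt) * ((du m 0 * star (du m 0)) * (du m i₁ * star (du m j₁)) *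
      (du m i₂ * star (du m j₂))) =
    16 * ((if (0 : Fin 3) = (0 : Fin 3) ∧ j₁ = i₁ ∧ j₂ = i₂ then 1 else 0) +
      (if (0 : Fin 3) = i₁ ∧ j₁ = (0 : Fin 3) ∧ j₂ = i₂ then 1 else 0) +
      (if (0 : Fin 3) = i₂ ∧ j₁ = i₁ ∧ j₂ = (0 : Fin 3) then 1 else 0) +
      (if (0 : Fin 3) = (0 : Fin 3) ∧ j₁ = i₂ ∧ j₂ = i₁ then 1 else 0) +
      (if (0 : Fin 3) = i₁ ∧ j₁ = i₂ ∧ j₂ = (0 : Fin 3) then 1 else 0) +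
      (if (0 : Fin 3) = i₂ ∧ j₁ = (0 : Fin 3) ∧ j₂ = i₁ then 1 else 0)) := by
  decide +kernel

theorem design3_01 : ∀ i₁ j₁ i₂ j₂ : Fin 3,
    ∑ m : Fin 31, (dw m : GaussianInt) * ((du m 0 * star (du m 1)) * (du m i₁ * star (du m j₁)) *
      (du m i₂ * star (du m j₂))) =
    16 * ((if (1 : Fin 3) = (0 : Fin 3) ∧ j₁ = i₁ ∧ j₂ = i₂ then 1 else 0) +
      (if (1 : Fin 3) = i₁ ∧ j₁ = (0 : Fin 3) ∧ j₂ = i₂ then 1 else 0) +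
      (if (1 : Fin 3) = i₂ ∧ j₁ = i₁ ∧ j₂ = (0 : Fin 3) then 1 else 0) +
      (if (1 : Fin 3) = (0 : Fin 3) ∧ j₁ = i₂ ∧ j₂ = i₁ then 1 else 0) +
      (if (1 : Fin 3) = i₁ ∧ j₁ = i₂ ∧ j₂ = (0 : Fin 3) then 1 else 0) +
      (if (1 : Fin 3) = i₂ ∧ j₁ = (0 : Fin 3) ∧ j₂ = i₁ then 1 else 0)) := by
  decide +kernel

theorem design3_02 : ∀ i₁ j₁ i₂ j₂ : Fin 3,
    ∑ m : Fin 31, (dw m : GaussianInt) * ((du m 0 * star (du m 2)) * (du m i₁ * star (du m j₁)) *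
      (du m i₂ * star (du m j₂))) =
    16 * ((if (2 : Fin 3) = (0 : Fin 3) ∧ j₁ = i₁ ∧ j₂ = i₂ then 1 else 0) +
      (if (2 : Fin 3) = i₁ ∧ j₁ = (0 : Fin 3) ∧ j₂ = i₂ then 1 else 0) +
      (if (2 : Fin 3) = i₂ ∧ j₁ = i₁ ∧ j₂ = (0 : Fin 3) then 1 else 0) +
      (if (2 : Fin 3) = (0 : Fin 3) ∧ j₁ = i₂ ∧ j₂ = i₁ then 1 else 0) +
      (if (2 : Fin 3) = i₁ ∧ j₁ = i₂ ∧ j₂ = (0 : Fin 3) then 1 else 0) +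
      (if (2 : Fin 3) = i₂ ∧ j₁ = (0 : Fin 3) ∧ j₂ = i₁ then 1 else 0)) := by
  decide +kernel

theorem design3_10 : ∀ i₁ j₁ i₂ j₂ : Fin 3,
    ∑ m : Fin 31, (dw m : GaussianInt) * ((du m 1 * star (du m 0)) * (du m i₁ * star (du m j₁)) *
      (du m i₂ * star (du m j₂))) =
    16 * ((if (0 : Fin 3) = (1 : Fin 3) ∧ j₁ = i₁ ∧ j₂ = i₂ then 1 else 0) +
      (if (0 : Fin 3) = i₁ ∧ j₁ = (1 : Fin 3) ∧ j₂ = i₂ then 1 else 0) +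
      (if (0 : Fin 3) = i₂ ∧ j₁ = i₁ ∧ j₂ = (1 : Fin 3) then 1 else 0) +
      (if (0 : Fin 3) = (1 : Fin 3) ∧ j₁ = i₂ ∧ j₂ = i₁ then 1 else 0) +
      (if (0 : Fin 3) = i₁ ∧ j₁ = i₂ ∧ j₂ = (1 : Fin 3) then 1 else 0) +
      (if (0 : Fin 3) = i₂ ∧ j₁ = (1 : Fin 3) ∧ j₂ = i₁ then 1 else 0)) := by
  decide +kernel

theorem design3_11 : ∀ i₁ j₁ i₂ j₂ : Fin 3,
    ∑ m : Fin 31, (dw m : GaussianInt) * ((du m 1 * star (du m 1)) * (du m i₁ * star (du m j₁)) *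
      (du m i₂ * star (du m j₂))) =
    16 * ((if (1 : Fin 3) = (1 : Fin 3) ∧ j₁ = i₁ ∧ j₂ = i₂ then 1 else 0) +
      (if (1 : Fin 3) = i₁ ∧ j₁ = (1 : Fin 3) ∧ j₂ = i₂ then 1 else 0) +
      (if (1 : Fin 3) = i₂ ∧ j₁ = i₁ ∧ j₂ = (1 : Fin 3) then 1 else 0) +
      (if (1 : Fin 3) = (1 : Fin 3) ∧ j₁ = i₂ ∧ j₂ = i₁ then 1 else 0) +
      (if (1 : Fin 3) = i₁ ∧ j₁ = i₂ ∧ j₂ = (1 : Fin 3) then 1 else 0) +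
      (if (1 : Fin 3) = i₂ ∧ j₁ = (1 : Fin 3) ∧ j₂ = i₁ then 1 else 0)) := by
  decide +kernel

theorem design3_12 : ∀ i₁ j₁ i₂ j₂ : Fin 3,
    ∑ m : Fin 31, (dw m : GaussianInt) * ((du m 1 * star (du m 2)) * (du m i₁ * star (du m j₁)) *
      (du m i₂ * star (du m j₂))) =
    16 * ((if (2 : Fin 3) = (1 : Fin 3) ∧ j₁ = i₁ ∧ j₂ = i₂ then 1 else 0) +
      (if (2 : Fin 3) = i₁ ∧ j₁ = (1 : Fin 3) ∧ j₂ = i₂ then 1 else 0) +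
      (if (2 : Fin 3) = i₂ ∧ j₁ = i₁ ∧ j₂ = (1 : Fin 3) then 1 else 0) +
      (if (2 : Fin 3) = (1 : Fin 3) ∧ j₁ = i₂ ∧ j₂ = i₁ then 1 else 0) +
      (if (2 : Fin 3) = i₁ ∧ j₁ = i₂ ∧ j₂ = (1 : Fin 3) then 1 else 0) +
      (if (2 : Fin 3) = i₂ ∧ j₁ = (1 : Fin 3) ∧ j₂ = i₁ then 1 else 0)) := by
  decide +kernel

theorem design3_20 : ∀ i₁ j₁ i₂ j₂ : Fin 3,
    ∑ m : Fin 31, (dw m : GaussianInt) * ((du m 2 * star (du m 0)) * (du m i₁ * star (du m j₁)) *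
      (du m i₂ * star (du m j₂))) =
    16 * ((if (0 : Fin 3) = (2 : Fin 3) ∧ j₁ = i₁ ∧ j₂ = i₂ then 1 else 0) +
      (if (0 : Fin 3) = i₁ ∧ j₁ = (2 : Fin 3) ∧ j₂ = i₂ then 1 else 0) +
      (if (0 : Fin 3) = i₂ ∧ j₁ = i₁ ∧ j₂ = (2 : Fin 3) then 1 else 0) +
      (if (0 : Fin 3) = (2 : Fin 3) ∧ j₁ = i₂ ∧ j₂ = i₁ then 1 else 0) +
      (if (0 : Fin 3) = i₁ ∧ j₁ = i₂ ∧ j₂ = (2 : Fin 3) then 1 else 0) +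
      (if (0 : Fin 3) = i₂ ∧ j₁ = (2 : Fin 3) ∧ j₂ = i₁ then 1 else 0)) := by
  decide +kernel

theorem design3_21 : ∀ i₁ j₁ i₂ j₂ : Fin 3,
    ∑ m : Fin 31, (dw m : GaussianInt) * ((du m 2 * star (du m 1)) * (du m i₁ * star (du m j₁)) *
      (du m i₂ * star (du m j₂))) =
    16 * ((if (1 : Fin 3) = (2 : Fin 3) ∧ j₁ = i₁ ∧ j₂ = i₂ then 1 else 0) +
      (if (1 : Fin 3) = i₁ ∧ j₁ = (2 : Fin 3) ∧ j₂ = i₂ then 1 else 0) +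
      (if (1 : Fin 3) = i₂ ∧ j₁ = i₁ ∧ j₂ = (2 : Fin 3) then 1 else 0) +
      (if (1 : Fin 3) = (2 : Fin 3) ∧ j₁ = i₂ ∧ j₂ = i₁ then 1 else 0) +
      (if (1 : Fin 3) = i₁ ∧ j₁ = i₂ ∧ j₂ = (2 : Fin 3) then 1 else 0) +
      (if (1 : Fin 3) = i₂ ∧ j₁ = (2 : Fin 3) ∧ j₂ = i₁ then 1 else 0)) := by
  decide +kernel

theorem design3_22 : ∀ i₁ j₁ i₂ j₂ : Fin 3,
    ∑ m : Fin 31, (dw m : GaussianInt) * ((du m 2 * star (du m 2)) * (du m i₁ * star (du m j₁)) *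
      (du m i₂ * star (du m j₂))) =
    16 * ((if (2 : Fin 3) = (2 : Fin 3) ∧ j₁ = i₁ ∧ j₂ = i₂ then 1 else 0) +
      (if (2 : Fin 3) = i₁ ∧ j₁ = (2 : Fin 3) ∧ j₂ = i₂ then 1 else 0) +
      (if (2 : Fin 3) = i₂ ∧ j₁ = i₁ ∧ j₂ = (2 : Fin 3) then 1 else 0) +
      (if (2 : Fin 3) = (2 : Fin 3) ∧ j₁ = i₂ ∧ j₂ = i₁ then 1 else 0) +
      (if (2 : Fin 3) = i₁ ∧ j₁ = i₂ ∧ j₂ = (2 : Fin 3) then 1 else 0) +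
      (if (2 : Fin 3) = i₂ ∧ j₁ = (2 : Fin 3) ∧ j₂ = i₁ then 1 else 0)) := by
  decide +kernel

theorem design3 : ∀ i₀ j₀ i₁ j₁ i₂ j₂ : Fin 3,
    ∑ m : Fin 31, (dw m : GaussianInt) * ((du m i₀ * star (du m j₀)) * (du m i₁ * star (du m j₁)) *
      (du m i₂ * star (du m j₂))) =
    16 * ((if j₀ = i₀ ∧ j₁ = i₁ ∧ j₂ = i₂ then 1 else 0) +
      (if j₀ = i₁ ∧ j₁ = i₀ ∧ j₂ = i₂ then 1 else 0) +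
      (if j₀ = i₂ ∧ j₁ = i₁ ∧ j₂ = i₀ then 1 else 0) +
      (if j₀ = i₀ ∧ j₁ = i₂ ∧ j₂ = i₁ then 1 else 0) +
      (if j₀ = i₁ ∧ j₁ = i₂ ∧ j₂ = i₀ then 1 else 0) +
      (if j₀ = i₂ ∧ j₁ = i₀ ∧ j₂ = i₁ then 1 else 0)) := by
  intro i₀ j₀
  match i₀, j₀ with
  | 0, 0 => exact design3_00
  | 0, 1 => exact design3_01
  | 0, 2 => exact design3_02
  | 1, 0 => exact design3_10
  | 1, 1 => exact design3_11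
  | 1, 2 => exact design3_12
  | 2, 0 => exact design3_20
  | 2, 1 => exact design3_21
  | 2, 2 => exact design3_22

theorem design2 : ∀ i₀ j₀ i₁ j₁ : Fin 3,
    ∑ m : Fin 31, (dw m : GaussianInt) * ((∑ a, du m a * star (du m a)) *
      ((du m i₀ * star (du m j₀)) * (du m i₁ * star (du m j₁)))) =
    80 * ((if j₀ = i₀ ∧ j₁ = i₁ then 1 else 0) + (if j₀ = i₁ ∧ j₁ = i₀ then 1 else 0)) := by
  decide +kernel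

theorem design0 :
    ∑ m : Fin 31, (dw m : GaussianInt) * (∑ a, du m a * star (du m a)) ^ 3 = 960 := by
  decide +kernel

end H91.Mat3
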