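import Pool.Agent.Lib.H91.Mat3Avg

set_option autoImplicit false

namespace H91.Mat3

open Finset Matrix
open scoped ComplexOrder

theorem trace_sq_eq {A : Matrix (Fin 3) (Fin 3) ℂ} (hA : A.IsHermitian) :
    (A * A).trace = ∑ i, ((hA.eigenvalues i : ℝ) : ℂ) ^ 2 := by
  have h1 : A * A = Unitary.conjStarAlgAut ℂ _ hA.eigenvectorUnitary
      (diagonal (RCLike.ofReal ∘ hA.eigenvalues) * diagonal (RCLike.ofReal ∘ hA.eigenvalues)) := by
    rw [map_mul, ← hA.spectral_theorem]
  rw [h1, Unitary.conjStarAlgAut_apply, trace_mul_comm, ← mul_assoc]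
  simp [Matrix.diagonal_mul_diagonal, Matrix.trace_diagonal, pow_two]

/-- Schur's inequality for the elementary symmetric functions of a positive semidefinite
three by three matrix. -/
theorem schur {A : Matrix (Fin 3) (Fin 3) ℂ} (hA : A.PosSemidef) :
    0 ≤ (A.trace.re) ^ 3 - 2 * A.trace.re * ((A.trace.re) ^ 2 - (A * A).trace.re) + 9 * A.det.re := by
  have hH := hA.isHermitian
  have e0 := hA.eigenvalues_nonneg 0
  have e1 := hA.eigenvalues_nonneg 1
  have e2 := hA.eigenvalues_nonneg 2
  have ht : A.trace.re = ∑ i, hH.eigenvalues i := by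
    rw [hH.trace_eq_sum_eigenvalues]; simp
  have hd : A.det.re = ∏ i, hH.eigenvalues i := by
    rw [hH.det_eq_prod_eigenvalues, ← Complex.ofReal_re (∏ i, hH.eigenvalues i)]
    congr 1
    push_cast
    rfl
  have hs : (A * A).trace.re = ∑ i, hH.eigenvalues i ^ 2 := by
    rw [trace_sq_eq hH, ← Complex.ofReal_re (∑ i, hH.eigenvalues i ^ 2)]
    congr 1
    push_cast
    rfl
  rw [ht, hd, hs]
  simp only [Fin.sum_univ_three, Fin.prod_univ_three]
  generalize hH.eigenvalues 0 = a at *
  generalize hH.eigenvalues 1 = b at *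
  generalize hH.eigenvalues 2 = c at *
  -- Schur
  have key : ∀ x y z : ℝ, 0 ≤ z → z ≤ y → y ≤ x →
      0 ≤ x * (x - y) * (x - z) + y * (y - x) * (y - z) + z * (z - x) * (z - y) := by
    intro x y z hz hzy hyx
    have h1 : 0 ≤ (x - y) * (x * (x - z) - y * (y - z)) := by
      apply mul_nonneg (by linarith)
      nlinarith
    have h2 : 0 ≤ z * ((x - z) * (y - z)) := by
      apply mul_nonneg hz (mul_nonneg (by linarith) (by linarith))
    nlinarith
  have hall : 0 ≤ a * (a - b) * (a - c) + b * (b - a) * (b - c) + c * (c - a) * (c - b) := by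
    rcases le_total a b with h1 | h1 <;> rcases le_total b c with h2 | h2 <;>
      rcases le_total a c with h3 | h3
    · nlinarith [key c b a e0 h1 h2]
    · nlinarith [key c b a e0 h1 h2]
    · nlinarith [key b c a e0 h3 h2]
    · nlinarith [key b a c e2 h3 h1]
    · nlinarith [key c a b e1 h1 h3]
    · nlinarith [key a c b e1 h2 h3]
    · nlinarith [key a b c e2 h2 h1]
    · nlinarith [key a b c e2 h2 h1]
  nlinarith [hall]

theorem det_re_nonneg {A : Matrix (Fin 3) (Fin 3) ℂ} (hA : A.PosSemidef) : 0 ≤ A.det.re :=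
  (Complex.le_def.1 hA.det_nonneg).1

end H91.Mat3
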