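import Pool.Agent.Lib.H91.Mat3Act

set_option autoImplicit false

namespace H91.Mat3

open Finset Matrix

theorem sum4_swap {M : Type*} [AddCommMonoid M] (f : Fin 3 → Fin 3 → Fin 3 → Fin 3 → M) :
    ∑ a, ∑ b, ∑ c, ∑ d, f a b c d = ∑ c, ∑ d, ∑ a, ∑ b, f a b c d := by
  calc ∑ a, ∑ b, ∑ c, ∑ d, f a b c d = ∑ a, ∑ c, ∑ b, ∑ d, f a b c d :=
        sum_congr rfl fun a _ => sum_comm
    _ = ∑ c, ∑ a, ∑ b, ∑ d, f a b c d := sum_comm
    _ = ∑ c, ∑ a, ∑ d, ∑ b, f a b c d :=
        sum_congr rfl fun c _ => sum_congr rfl fun a _ => sum_comm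
    _ = ∑ c, ∑ d, ∑ a, ∑ b, f a b c d := sum_congr rfl fun c _ => sum_comm

/-- The complex four-linear form of `T`. -/
noncomputable def form (T : T4) (x y z w : Fin 3 → ℂ) : ℂ :=
  ∑ i, ∑ k, ∑ j, ∑ l, ((T i k j l : ℝ) : ℂ) * (x i * y k * z j * w l)

/-- Real matrix times complex vector. -/
noncomputable def mv (g : Mr) (x : Fin 3 → ℂ) : Fin 3 → ℂ := fun i' => ∑ i, ((g i' i : ℝ) : ℂ) * x i

theorem conj_mv (g : Mr) (x : Fin 3 → ℂ) (i : Fin 3) :
    (starRingEnd ℂ) (mv g x i) = mv g (fun j => (starRingEnd ℂ) (x j)) i := by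
  simp [mv, map_sum]

theorem form_s4 (h : Mr) (T : T4) (x y z w : Fin 3 → ℂ) :
    form (s4 h T) x y z w = form T x y z (mv h w) := by
  unfold form s4 mv
  refine sum_congr rfl fun i _ => sum_congr rfl fun k _ => sum_congr rfl fun j _ => ?_
  push_cast
  simp only [sum_mul, mul_sum]
  rw [sum_comm]
  refine sum_congr rfl fun l _ => sum_congr rfl fun l' _ => ?_
  ring

theorem form_swap34 (T : T4) (x y z w : Fin 3 → ℂ) :
    form (fun i k j l => T i k l j) x y z w = form T x y w z := by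
  unfold form
  refine sum_congr rfl fun i _ => sum_congr rfl fun k _ => ?_
  rw [sum_comm]
  refine sum_congr rfl fun j _ => sum_congr rfl fun l _ => ?_
  ring

theorem form_swap24 (T : T4) (x y z w : Fin 3 → ℂ) :
    form (fun i k j l => T i l j k) x y z w = form T x w z y := by
  unfold form
  refine sum_congr rfl fun i _ => ?_
  have : ∀ f : Fin 3 → Fin 3 → Fin 3 → ℂ, ∑ a, ∑ b, ∑ c, f a b c = ∑ c, ∑ b, ∑ a, f a b c := by
    intro f
    rw [sum_comm]
    calc ∑ b, ∑ a, ∑ c, f a b c = ∑ b, ∑ c, ∑ a, f a b c :=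
          sum_congr rfl fun b _ => sum_comm
      _ = ∑ c, ∑ b, ∑ a, f a b c := sum_comm
  rw [this]
  refine sum_congr rfl fun j _ => sum_congr rfl fun l _ => sum_congr rfl fun k _ => ?_
  ring

theorem form_swap13 (T : T4) (x y z w : Fin 3 → ℂ) :
    form (fun i k j l => T j k i l) x y z w = form T z y x w := by
  unfold form
  have : ∀ f : Fin 3 → Fin 3 → Fin 3 → ℂ, ∑ a, ∑ b, ∑ c, f a b c = ∑ c, ∑ b, ∑ a, f a b c := by
    intro f
    rw [sum_comm]
    calc ∑ b, ∑ a, ∑ c, f a b c = ∑ b, ∑ c, ∑ a, f a b c :=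
          sum_congr rfl fun b _ => sum_comm
      _ = ∑ c, ∑ b, ∑ a, f a b c := sum_comm
  rw [this]
  refine sum_congr rfl fun j _ => sum_congr rfl fun l _ => sum_congr rfl fun k _ =>
    sum_congr rfl fun m _ => ?_
  ring

theorem form_s3 (h : Mr) (T : T4) (x y z w : Fin 3 → ℂ) :
    form (s3 h T) x y z w = form T x y (mv h z) w := by
  have : s3 h T = fun i k j l => (s4 h (fun i k j l => T i k l j)) i k l j := rfl
  rw [this, form_swap34, form_s4, form_swap34]

theorem form_s2 (h : Mr) (T : T4) (x y z w : Fin 3 → ℂ) :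
    form (s2 h T) x y z w = form T x (mv h y) z w := by
  have : s2 h T = fun i k j l => (s4 h (fun i k j l => T i l j k)) i l j k := rfl
  rw [this, form_swap24, form_s4, form_swap24]

theorem form_s1 (h : Mr) (T : T4) (x y z w : Fin 3 → ℂ) :
    form (s1 h T) x y z w = form T (mv h x) y z w := by
  have : s1 h T = fun i k j l => (s3 h (fun i k j l => T j k i l)) j k i l := rfl
  rw [this, form_swap13, form_s3, form_swap13]

theorem form_act (g h : Mr) (T : T4) (x y z w : Fin 3 → ℂ) :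
    form (act g h T) x y z w = form T (mv g x) (mv h y) (mv g z) (mv h w) := by
  rw [act_eq, form_s1, form_s2, form_s3, form_s4]

theorem GP_iff (T : T4) : GP T ↔ ∀ x y : Fin 3 → ℂ, 0 ≤ (form T x y
    (fun j => (starRingEnd ℂ) (x j)) (fun l => (starRingEnd ℂ) (y l))).re := Iff.rfl

theorem GP_act (g h : Mr) {T : T4} (hG : GP T) : GP (act g h T) := by
  rw [GP_iff] at hG ⊢
  intro x y
  rw [form_act]
  have := hG (mv g x) (mv h y)
  simp only [conj_mv] at this
  exact this

/-! ### The trace functional -/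

/-- Contraction of the second pair with `h hᵀ`. -/
def R1 (T : T4) (h : Mr) : Mr := Matrix.of fun i j => ∑ k, ∑ l, T i k j l * (h * hᵀ) k l

/-- Contraction of the first pair with `g gᵀ`. -/
def R2 (T : T4) (g : Mr) : Mr := Matrix.of fun k l => ∑ i, ∑ j, T i k j l * (g * gᵀ) i j

/-- The functional to be minimised. -/
def NT (T : T4) (g h : Mr) : ℝ := ∑ i, ∑ j, ∑ k, ∑ l, T i k j l * (g * gᵀ) i j * (h * hᵀ) k l

theorem move_in (f : Fin 3 → Fin 3 → Fin 3 → Fin 3 → Fin 3 → ℝ) :
    ∑ k, ∑ a, ∑ b, ∑ c, ∑ d, f k a b c d = ∑ a, ∑ b, ∑ c, ∑ d, ∑ k, f k a b c d := by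
  rw [sum_comm]
  refine sum_congr rfl fun a _ => ?_
  rw [sum_comm]
  refine sum_congr rfl fun b _ => ?_
  rw [sum_comm]
  refine sum_congr rfl fun c _ => ?_
  rw [sum_comm]

theorem marg1 (T : T4) (g h : Mr) (i j : Fin 3) :
    ∑ k, act g h T i k j k = (gᵀ * R1 T h * g) i j := by
  simp only [act]
  rw [move_in]
  simp only [R1, Matrix.mul_apply, Matrix.transpose_apply, Matrix.of_apply]
  rw [show (∑ x, (∑ x_1, g x_1 i * ∑ k, ∑ l, T x_1 k x l * ∑ x, h k x * h l x) * g x j) =
    ∑ x, ∑ x_1, ∑ k, (g x_1 i * ∑ l, T x_1 k x l * ∑ x, h k x * h l x) * g x j from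
    sum_congr rfl fun x _ => by
      rw [sum_mul]
      refine sum_congr rfl fun x1 _ => ?_
      rw [mul_sum, sum_mul]]
  conv_rhs => rw [sum_comm]
  refine sum_congr rfl fun a _ => ?_
  conv_rhs => rw [sum_comm]
  refine sum_congr rfl fun b _ => sum_congr rfl fun c _ => ?_
  rw [mul_sum, sum_mul]
  refine sum_congr rfl fun d _ => ?_
  rw [mul_sum, mul_sum, sum_mul]
  refine sum_congr rfl fun k _ => ?_
  ring

theorem marg2 (T : T4) (g h : Mr) (k l : Fin 3) :
    ∑ i, act g h T i k i l = (hᵀ * R2 T g * h) k l := by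
  have h1 := marg1 (fun i k j l => T k i l j) h g k l
  have e1 : ∀ i, act h g (fun i k j l => T k i l j) k i l i = act g h T i k i l := by
    intro i
    simp only [act]
    rw [sum_comm]
    refine sum_congr rfl fun a _ => sum_congr rfl fun b _ => ?_
    rw [sum_comm]
    refine sum_congr rfl fun c _ => sum_congr rfl fun d _ => ?_
    ring
  have e2 : R1 (fun i k j l => T k i l j) g = R2 T g := rfl
  rw [e2] at h1
  rw [← h1]
  exact sum_congr rfl fun i _ => (e1 i).symm

theorem NT_eq1 (T : T4) (g h : Mr) : NT T g h = (gᵀ * R1 T h * g).trace := by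
  rw [Matrix.trace_mul_comm, ← mul_assoc, Matrix.trace]
  simp only [Matrix.diag]
  rw [show (∑ i, (g * gᵀ * R1 T h) i i) = ∑ i, ∑ j, (g * gᵀ) i j * R1 T h j i from
    sum_congr rfl fun i _ => Matrix.mul_apply]
  rw [sum_comm]
  refine sum_congr rfl fun j _ => sum_congr rfl fun i _ => ?_
  rw [R1, Matrix.of_apply, mul_sum]
  refine sum_congr rfl fun k _ => ?_
  rw [mul_sum]
  refine sum_congr rfl fun l _ => ?_
  have : (g * gᵀ) i j = (g * gᵀ) j i := by
    simp only [Matrix.mul_apply, Matrix.transpose_apply]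
    exact sum_congr rfl fun x _ => mul_comm _ _
  rw [this]
  ring

theorem NT_eq2 (T : T4) (g h : Mr) : NT T g h = (hᵀ * R2 T g * h).trace := by
  have h1 := NT_eq1 (fun i k j l => T k i l j) h g
  have e2 : R1 (fun i k j l => T k i l j) g = R2 T g := rfl
  rw [e2] at h1
  rw [← h1]
  unfold NT
  rw [sum4_swap]
  refine sum_congr rfl fun i _ => sum_congr rfl fun k _ => sum_congr rfl fun j _ =>
    sum_congr rfl fun l _ => ?_
  ring

theorem R1_symm {T : T4} (hs : Sy T) (h : Mr) : (R1 T h)ᵀ = R1 T h := by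
  ext i j
  simp only [R1, Matrix.transpose_apply, Matrix.of_apply]
  rw [sum_comm]
  refine sum_congr rfl fun k _ => sum_congr rfl fun l _ => ?_
  have : (h * hᵀ) k l = (h * hᵀ) l k := by
    simp only [Matrix.mul_apply, Matrix.transpose_apply]
    exact sum_congr rfl fun x _ => mul_comm _ _
  rw [this, hs j l i k]

theorem R2_symm {T : T4} (hs : Sy T) (g : Mr) : (R2 T g)ᵀ = R2 T g := by
  have hs' : Sy (fun i k j l => T k i l j) := fun i k j l => hs k i l j
  exact R1_symm hs' g

/-- First-order condition. -/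
theorem firstorder (P : Mr) (hP : Pᵀ = P)
    (hmin : ∀ g : Mr, g.det = 1 → P.trace ≤ (gᵀ * P * g).trace) : ∃ c : ℝ, P = c • (1 : Mr) := by
  have key : ∀ u v : Fin 3 → ℝ, ∑ i, u i * v i = 0 → ∑ i, ∑ j, v i * P i j * u j = 0 := by
    intro u v huv
    have hq : ∀ t : ℝ, 0 ≤ 2 * t * (∑ i, ∑ j, v i * P i j * u j) +
        t ^ 2 * ((∑ i, v i ^ 2) * ∑ i, ∑ j, u i * P i j * u j) := by
      intro t
      have hd : (Matrix.of fun i j => (if i = j then (1 : ℝ) else 0) + t * (u i * v j) : Mr).det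
          = 1 := by
        rw [Matrix.det_fin_three]
        simp [Matrix.of_apply]
        simp only [Fin.sum_univ_three] at huv
        linear_combination t * huv
      have := hmin _ hd
      have hP' : ∀ i j, P i j = P j i := fun i j => by
        conv_lhs => rw [← hP]
        rfl
      have e : ((Matrix.of fun i j => (if i = j then (1 : ℝ) else 0) + t * (u i * v j) : Mr)ᵀ * P *
        (Matrix.of fun i j => (if i = j then (1 : ℝ) else 0) + t * (u i * v j) : Mr)).trace =
        P.trace + 2 * t * (∑ i, ∑ j, v i * P i j * u j) +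
        t ^ 2 * ((∑ i, v i ^ 2) * ∑ i, ∑ j, u i * P i j * u j) := by
        simp [Matrix.trace, Matrix.mul_apply, Fin.sum_univ_three]
        rw [hP' 1 0, hP' 2 0, hP' 2 1]
        ring
      rw [e] at this
      linarith
    set A := ∑ i, ∑ j, v i * P i j * u j
    set B := (∑ i, v i ^ 2) * ∑ i, ∑ j, u i * P i j * u j
    by_contra hA
    -- choose t = -A / (|B|+1)
    have hB : 0 < |B| + 1 := by positivity
    have := hq (-A / (|B| + 1))
    have h2 : 2 * (-A / (|B| + 1)) * A + (-A / (|B| + 1)) ^ 2 * B < 0 := by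
      have hA2 : 0 < A ^ 2 := by positivity
      have e : 2 * (-A / (|B| + 1)) * A + (-A / (|B| + 1)) ^ 2 * B =
        A ^ 2 / (|B| + 1) ^ 2 * (B - 2 * (|B| + 1)) := by
        field_simp
        ring
      rw [e]
      apply mul_neg_of_pos_of_neg (by positivity)
      have := le_abs_self B
      have := abs_nonneg B
      linarith
    linarith
  have hP' : ∀ i j, P i j = P j i := fun i j => by
    conv_lhs => rw [← hP]
    rfl
  have k01 := key ![1, 0, 0] ![0, 1, 0] (by simp [Fin.sum_univ_three])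
  have k02 := key ![1, 0, 0] ![0, 0, 1] (by simp [Fin.sum_univ_three])
  have k12 := key ![0, 1, 0] ![0, 0, 1] (by simp [Fin.sum_univ_three])
  have d01 := key ![1, 1, 0] ![1, -1, 0] (by simp [Fin.sum_univ_three])
  have d12 := key ![0, 1, 1] ![0, 1, -1] (by simp [Fin.sum_univ_three])
  simp [Fin.sum_univ_three] at k01 k02 k12 d01 d12
  refine ⟨P 0 0, ?_⟩
  ext i j
  fin_cases i <;> fin_cases j <;> simp <;> linarith [hP' 0 1, hP' 0 2, hP' 1 2]

end H91.Mat3
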