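import Pool.Agent.Lib.H91.SplitMax
import Pool.Agent.Lib.HopfSix.Defs

set_option autoImplicit false

namespace H91.Split

open Finset Matrix

/-- First three coordinates. -/
def lo : Fin 3 → Fin 6 := ![0, 1, 2]
/-- Last three coordinates. -/
def hi : Fin 3 → Fin 6 := ![3, 4, 5]

/-- The off-diagonal skew matrix of a three by three matrix `x α a`. -/
def offd (x : Fin 3 → Fin 3 → ℝ) : M6 :=
  !![0, 0, 0, -x 0 0, -x 1 0, -x 2 0;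
     0, 0, 0, -x 0 1, -x 1 1, -x 2 1;
     0, 0, 0, -x 0 2, -x 1 2, -x 2 2;
     x 0 0, x 0 1, x 0 2, 0, 0, 0;
     x 1 0, x 1 1, x 1 2, 0, 0, 0;
     x 2 0, x 2 1, x 2 2, 0, 0, 0]

theorem offd_skew (x : Fin 3 → Fin 3 → ℝ) : (offd x)ᵀ = -offd x := by
  ext i j
  fin_cases i <;> fin_cases j <;> simp [offd]

variable {S : T6}

set_option linter.unusedSimpArgs false

theorem ell_lie (hA : HopfSix.IsAlgCurv S) (x : Fin 3 → Fin 3 → ℝ) :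
    ell (lie (offd x) S) = 2 * ∑ α, ∑ a, x α a * ∑ b, S (hi α) (lo b) (lo a) (lo b) := by
  have h0 : ∀ i k l, S i i k l = 0 := fun i k l => by have := hA.skew i i k l; linarith
  have h0' : ∀ i j k, S i j k k = 0 := fun i j k => by rw [hA.pair, h0]
  have q10 : ∀ k l, S 1 0 k l = - S 0 1 k l := fun k l => hA.skew 1 0 k l
  have r10 : ∀ k l, S k l 1 0 = - S k l 0 1 := fun k l => by rw [hA.pair, hA.skew, hA.pair]
  have q20 : ∀ k l, S 2 0 k l = - S 0 2 k l := fun k l => hA.skew 2 0 k l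
  have r20 : ∀ k l, S k l 2 0 = - S k l 0 2 := fun k l => by rw [hA.pair, hA.skew, hA.pair]
  have q21 : ∀ k l, S 2 1 k l = - S 1 2 k l := fun k l => hA.skew 2 1 k l
  have r21 : ∀ k l, S k l 2 1 = - S k l 1 2 := fun k l => by rw [hA.pair, hA.skew, hA.pair]
  have q30 : ∀ k l, S 3 0 k l = - S 0 3 k l := fun k l => hA.skew 3 0 k l
  have r30 : ∀ k l, S k l 3 0 = - S k l 0 3 := fun k l => by rw [hA.pair, hA.skew, hA.pair]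
  have q31 : ∀ k l, S 3 1 k l = - S 1 3 k l := fun k l => hA.skew 3 1 k l
  have r31 : ∀ k l, S k l 3 1 = - S k l 1 3 := fun k l => by rw [hA.pair, hA.skew, hA.pair]
  have q32 : ∀ k l, S 3 2 k l = - S 2 3 k l := fun k l => hA.skew 3 2 k l
  have r32 : ∀ k l, S k l 3 2 = - S k l 2 3 := fun k l => by rw [hA.pair, hA.skew, hA.pair]
  have q40 : ∀ k l, S 4 0 k l = - S 0 4 k l := fun k l => hA.skew 4 0 k l
  have r40 : ∀ k l, S k l 4 0 = - S k l 0 4 := fun k l => by rw [hA.pair, hA.skew, hA.pair]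
  have q41 : ∀ k l, S 4 1 k l = - S 1 4 k l := fun k l => hA.skew 4 1 k l
  have r41 : ∀ k l, S k l 4 1 = - S k l 1 4 := fun k l => by rw [hA.pair, hA.skew, hA.pair]
  have q42 : ∀ k l, S 4 2 k l = - S 2 4 k l := fun k l => hA.skew 4 2 k l
  have r42 : ∀ k l, S k l 4 2 = - S k l 2 4 := fun k l => by rw [hA.pair, hA.skew, hA.pair]
  have q43 : ∀ k l, S 4 3 k l = - S 3 4 k l := fun k l => hA.skew 4 3 k l
  have r43 : ∀ k l, S k l 4 3 = - S k l 3 4 := fun k l => by rw [hA.pair, hA.skew, hA.pair]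
  have q50 : ∀ k l, S 5 0 k l = - S 0 5 k l := fun k l => hA.skew 5 0 k l
  have r50 : ∀ k l, S k l 5 0 = - S k l 0 5 := fun k l => by rw [hA.pair, hA.skew, hA.pair]
  have q51 : ∀ k l, S 5 1 k l = - S 1 5 k l := fun k l => hA.skew 5 1 k l
  have r51 : ∀ k l, S k l 5 1 = - S k l 1 5 := fun k l => by rw [hA.pair, hA.skew, hA.pair]
  have q52 : ∀ k l, S 5 2 k l = - S 2 5 k l := fun k l => hA.skew 5 2 k l
  have r52 : ∀ k l, S k l 5 2 = - S k l 2 5 := fun k l => by rw [hA.pair, hA.skew, hA.pair]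
  have q53 : ∀ k l, S 5 3 k l = - S 3 5 k l := fun k l => hA.skew 5 3 k l
  have r53 : ∀ k l, S k l 5 3 = - S k l 3 5 := fun k l => by rw [hA.pair, hA.skew, hA.pair]
  have q54 : ∀ k l, S 5 4 k l = - S 4 5 k l := fun k l => hA.skew 5 4 k l
  have r54 : ∀ k l, S k l 5 4 = - S k l 4 5 := fun k l => by rw [hA.pair, hA.skew, hA.pair]
  have s0201 : S 0 2 0 1 = S 0 1 0 2 := hA.pair 0 2 0 1
  have s0301 : S 0 3 0 1 = S 0 1 0 3 := hA.pair 0 3 0 1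
  have s0302 : S 0 3 0 2 = S 0 2 0 3 := hA.pair 0 3 0 2
  have s0401 : S 0 4 0 1 = S 0 1 0 4 := hA.pair 0 4 0 1
  have s0402 : S 0 4 0 2 = S 0 2 0 4 := hA.pair 0 4 0 2
  have s0403 : S 0 4 0 3 = S 0 3 0 4 := hA.pair 0 4 0 3
  have s0501 : S 0 5 0 1 = S 0 1 0 5 := hA.pair 0 5 0 1
  have s0502 : S 0 5 0 2 = S 0 2 0 5 := hA.pair 0 5 0 2
  have s0503 : S 0 5 0 3 = S 0 3 0 5 := hA.pair 0 5 0 3
  have s0504 : S 0 5 0 4 = S 0 4 0 5 := hA.pair 0 5 0 4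
  have s1201 : S 1 2 0 1 = S 0 1 1 2 := hA.pair 1 2 0 1
  have s1202 : S 1 2 0 2 = S 0 2 1 2 := hA.pair 1 2 0 2
  have s1203 : S 1 2 0 3 = S 0 3 1 2 := hA.pair 1 2 0 3
  have s1204 : S 1 2 0 4 = S 0 4 1 2 := hA.pair 1 2 0 4
  have s1205 : S 1 2 0 5 = S 0 5 1 2 := hA.pair 1 2 0 5
  have s1301 : S 1 3 0 1 = S 0 1 1 3 := hA.pair 1 3 0 1
  have s1302 : S 1 3 0 2 = S 0 2 1 3 := hA.pair 1 3 0 2
  have s1303 : S 1 3 0 3 = S 0 3 1 3 := hA.pair 1 3 0 3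
  have s1304 : S 1 3 0 4 = S 0 4 1 3 := hA.pair 1 3 0 4
  have s1305 : S 1 3 0 5 = S 0 5 1 3 := hA.pair 1 3 0 5
  have s1312 : S 1 3 1 2 = S 1 2 1 3 := hA.pair 1 3 1 2
  have s1401 : S 1 4 0 1 = S 0 1 1 4 := hA.pair 1 4 0 1
  have s1402 : S 1 4 0 2 = S 0 2 1 4 := hA.pair 1 4 0 2
  have s1403 : S 1 4 0 3 = S 0 3 1 4 := hA.pair 1 4 0 3
  have s1404 : S 1 4 0 4 = S 0 4 1 4 := hA.pair 1 4 0 4
  have s1405 : S 1 4 0 5 = S 0 5 1 4 := hA.pair 1 4 0 5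
  have s1412 : S 1 4 1 2 = S 1 2 1 4 := hA.pair 1 4 1 2
  have s1413 : S 1 4 1 3 = S 1 3 1 4 := hA.pair 1 4 1 3
  have s1501 : S 1 5 0 1 = S 0 1 1 5 := hA.pair 1 5 0 1
  have s1502 : S 1 5 0 2 = S 0 2 1 5 := hA.pair 1 5 0 2
  have s1503 : S 1 5 0 3 = S 0 3 1 5 := hA.pair 1 5 0 3
  have s1504 : S 1 5 0 4 = S 0 4 1 5 := hA.pair 1 5 0 4
  have s1505 : S 1 5 0 5 = S 0 5 1 5 := hA.pair 1 5 0 5
  have s1512 : S 1 5 1 2 = S 1 2 1 5 := hA.pair 1 5 1 2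
  have s1513 : S 1 5 1 3 = S 1 3 1 5 := hA.pair 1 5 1 3
  have s1514 : S 1 5 1 4 = S 1 4 1 5 := hA.pair 1 5 1 4
  have s2301 : S 2 3 0 1 = S 0 1 2 3 := hA.pair 2 3 0 1
  have s2302 : S 2 3 0 2 = S 0 2 2 3 := hA.pair 2 3 0 2
  have s2303 : S 2 3 0 3 = S 0 3 2 3 := hA.pair 2 3 0 3
  have s2304 : S 2 3 0 4 = S 0 4 2 3 := hA.pair 2 3 0 4
  have s2305 : S 2 3 0 5 = S 0 5 2 3 := hA.pair 2 3 0 5
  have s2312 : S 2 3 1 2 = S 1 2 2 3 := hA.pair 2 3 1 2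
  have s2313 : S 2 3 1 3 = S 1 3 2 3 := hA.pair 2 3 1 3
  have s2314 : S 2 3 1 4 = S 1 4 2 3 := hA.pair 2 3 1 4
  have s2315 : S 2 3 1 5 = S 1 5 2 3 := hA.pair 2 3 1 5
  have s2401 : S 2 4 0 1 = S 0 1 2 4 := hA.pair 2 4 0 1
  have s2402 : S 2 4 0 2 = S 0 2 2 4 := hA.pair 2 4 0 2
  have s2403 : S 2 4 0 3 = S 0 3 2 4 := hA.pair 2 4 0 3
  have s2404 : S 2 4 0 4 = S 0 4 2 4 := hA.pair 2 4 0 4
  have s2405 : S 2 4 0 5 = S 0 5 2 4 := hA.pair 2 4 0 5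
  have s2412 : S 2 4 1 2 = S 1 2 2 4 := hA.pair 2 4 1 2
  have s2413 : S 2 4 1 3 = S 1 3 2 4 := hA.pair 2 4 1 3
  have s2414 : S 2 4 1 4 = S 1 4 2 4 := hA.pair 2 4 1 4
  have s2415 : S 2 4 1 5 = S 1 5 2 4 := hA.pair 2 4 1 5
  have s2423 : S 2 4 2 3 = S 2 3 2 4 := hA.pair 2 4 2 3
  have s2501 : S 2 5 0 1 = S 0 1 2 5 := hA.pair 2 5 0 1
  have s2502 : S 2 5 0 2 = S 0 2 2 5 := hA.pair 2 5 0 2
  have s2503 : S 2 5 0 3 = S 0 3 2 5 := hA.pair 2 5 0 3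
  have s2504 : S 2 5 0 4 = S 0 4 2 5 := hA.pair 2 5 0 4
  have s2505 : S 2 5 0 5 = S 0 5 2 5 := hA.pair 2 5 0 5
  have s2512 : S 2 5 1 2 = S 1 2 2 5 := hA.pair 2 5 1 2
  have s2513 : S 2 5 1 3 = S 1 3 2 5 := hA.pair 2 5 1 3
  have s2514 : S 2 5 1 4 = S 1 4 2 5 := hA.pair 2 5 1 4
  have s2515 : S 2 5 1 5 = S 1 5 2 5 := hA.pair 2 5 1 5
  have s2523 : S 2 5 2 3 = S 2 3 2 5 := hA.pair 2 5 2 3
  have s2524 : S 2 5 2 4 = S 2 4 2 5 := hA.pair 2 5 2 4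
  have s3401 : S 3 4 0 1 = S 0 1 3 4 := hA.pair 3 4 0 1
  have s3402 : S 3 4 0 2 = S 0 2 3 4 := hA.pair 3 4 0 2
  have s3403 : S 3 4 0 3 = S 0 3 3 4 := hA.pair 3 4 0 3
  have s3404 : S 3 4 0 4 = S 0 4 3 4 := hA.pair 3 4 0 4
  have s3405 : S 3 4 0 5 = S 0 5 3 4 := hA.pair 3 4 0 5
  have s3412 : S 3 4 1 2 = S 1 2 3 4 := hA.pair 3 4 1 2
  have s3413 : S 3 4 1 3 = S 1 3 3 4 := hA.pair 3 4 1 3
  have s3414 : S 3 4 1 4 = S 1 4 3 4 := hA.pair 3 4 1 4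
  have s3415 : S 3 4 1 5 = S 1 5 3 4 := hA.pair 3 4 1 5
  have s3423 : S 3 4 2 3 = S 2 3 3 4 := hA.pair 3 4 2 3
  have s3424 : S 3 4 2 4 = S 2 4 3 4 := hA.pair 3 4 2 4
  have s3425 : S 3 4 2 5 = S 2 5 3 4 := hA.pair 3 4 2 5
  have s3501 : S 3 5 0 1 = S 0 1 3 5 := hA.pair 3 5 0 1
  have s3502 : S 3 5 0 2 = S 0 2 3 5 := hA.pair 3 5 0 2
  have s3503 : S 3 5 0 3 = S 0 3 3 5 := hA.pair 3 5 0 3
  have s3504 : S 3 5 0 4 = S 0 4 3 5 := hA.pair 3 5 0 4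
  have s3505 : S 3 5 0 5 = S 0 5 3 5 := hA.pair 3 5 0 5
  have s3512 : S 3 5 1 2 = S 1 2 3 5 := hA.pair 3 5 1 2
  have s3513 : S 3 5 1 3 = S 1 3 3 5 := hA.pair 3 5 1 3
  have s3514 : S 3 5 1 4 = S 1 4 3 5 := hA.pair 3 5 1 4
  have s3515 : S 3 5 1 5 = S 1 5 3 5 := hA.pair 3 5 1 5
  have s3523 : S 3 5 2 3 = S 2 3 3 5 := hA.pair 3 5 2 3
  have s3524 : S 3 5 2 4 = S 2 4 3 5 := hA.pair 3 5 2 4
  have s3525 : S 3 5 2 5 = S 2 5 3 5 := hA.pair 3 5 2 5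
  have s3534 : S 3 5 3 4 = S 3 4 3 5 := hA.pair 3 5 3 4
  have s4501 : S 4 5 0 1 = S 0 1 4 5 := hA.pair 4 5 0 1
  have s4502 : S 4 5 0 2 = S 0 2 4 5 := hA.pair 4 5 0 2
  have s4503 : S 4 5 0 3 = S 0 3 4 5 := hA.pair 4 5 0 3
  have s4504 : S 4 5 0 4 = S 0 4 4 5 := hA.pair 4 5 0 4
  have s4505 : S 4 5 0 5 = S 0 5 4 5 := hA.pair 4 5 0 5
  have s4512 : S 4 5 1 2 = S 1 2 4 5 := hA.pair 4 5 1 2
  have s4513 : S 4 5 1 3 = S 1 3 4 5 := hA.pair 4 5 1 3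
  have s4514 : S 4 5 1 4 = S 1 4 4 5 := hA.pair 4 5 1 4
  have s4515 : S 4 5 1 5 = S 1 5 4 5 := hA.pair 4 5 1 5
  have s4523 : S 4 5 2 3 = S 2 3 4 5 := hA.pair 4 5 2 3
  have s4524 : S 4 5 2 4 = S 2 4 4 5 := hA.pair 4 5 2 4
  have s4525 : S 4 5 2 5 = S 2 5 4 5 := hA.pair 4 5 2 5
  have s4534 : S 4 5 3 4 = S 3 4 4 5 := hA.pair 4 5 3 4
  have s4535 : S 4 5 3 5 = S 3 5 4 5 := hA.pair 4 5 3 5
  simp [ell, lie, offd, Fin.sum_univ_six, Fin.sum_univ_three, lo, hi, h0, h0',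
    q10, r10, q20, r20, q21, r21, q30, r30, q31, r31, q32, r32, q40, r40, q41, r41, q42, r42, 
    q43, r43, q50, r50, q51, r51, q52, r52, q53, r53, q54, r54, s0201, s0301, s0302, s0401, 
    s0402, s0403, s0501, s0502, s0503, s0504, s1201, s1202, s1203, s1204, s1205, s1301, s1302, 
    s1303, s1304, s1305, s1312, s1401, s1402, s1403, s1404, s1405, s1412, s1413, s1501, s1502, 
    s1503, s1504, s1505, s1512, s1513, s1514, s2301, s2302, s2303, s2304, s2305, s2312, s2313, 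
    s2314, s2315, s2401, s2402, s2403, s2404, s2405, s2412, s2413, s2414, s2415, s2423, s2501, 
    s2502, s2503, s2504, s2505, s2512, s2513, s2514, s2515, s2523, s2524, s3401, s3402, s3403, 
    s3404, s3405, s3412, s3413, s3414, s3415, s3423, s3424, s3425, s3501, s3502, s3503, s3504, 
    s3505, s3512, s3513, s3514, s3515, s3523, s3524, s3525, s3534, s4501, s4502, s4503, s4504, 
    s4505, s4512, s4513, s4514, s4515, s4523, s4524, s4525, s4534, s4535]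
  ring

/-- The second variation of the scalar curvature of the three-plane. -/
def secondVar (S : T6) (x : Fin 3 → Fin 3 → ℝ) : ℝ :=
  ∑ a, ∑ b, ∑ α, ∑ β, (x α a * x β b * S (hi α) (hi β) (lo a) (lo b)
    + x α a * x β a * S (hi α) (lo b) (hi β) (lo b)
    + x α a * x β b * S (hi α) (lo b) (lo a) (hi β))
  - ∑ a, ∑ c, (∑ α, x α c * x α a) * ∑ b, S (lo c) (lo b) (lo a) (lo b)

theorem ell_lie_lie (hA : HopfSix.IsAlgCurv S) (x : Fin 3 → Fin 3 → ℝ) :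
    ell (lie (offd x) (lie (offd x) S)) = 2 * secondVar S x := by
  have h0 : ∀ i k l, S i i k l = 0 := fun i k l => by have := hA.skew i i k l; linarith
  have h0' : ∀ i j k, S i j k k = 0 := fun i j k => by rw [hA.pair, h0]
  have q10 : ∀ k l, S 1 0 k l = - S 0 1 k l := fun k l => hA.skew 1 0 k l
  have r10 : ∀ k l, S k l 1 0 = - S k l 0 1 := fun k l => by rw [hA.pair, hA.skew, hA.pair]
  have q20 : ∀ k l, S 2 0 k l = - S 0 2 k l := fun k l => hA.skew 2 0 k l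
  have r20 : ∀ k l, S k l 2 0 = - S k l 0 2 := fun k l => by rw [hA.pair, hA.skew, hA.pair]
  have q21 : ∀ k l, S 2 1 k l = - S 1 2 k l := fun k l => hA.skew 2 1 k l
  have r21 : ∀ k l, S k l 2 1 = - S k l 1 2 := fun k l => by rw [hA.pair, hA.skew, hA.pair]
  have q30 : ∀ k l, S 3 0 k l = - S 0 3 k l := fun k l => hA.skew 3 0 k l
  have r30 : ∀ k l, S k l 3 0 = - S k l 0 3 := fun k l => by rw [hA.pair, hA.skew, hA.pair]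
  have q31 : ∀ k l, S 3 1 k l = - S 1 3 k l := fun k l => hA.skew 3 1 k l
  have r31 : ∀ k l, S k l 3 1 = - S k l 1 3 := fun k l => by rw [hA.pair, hA.skew, hA.pair]
  have q32 : ∀ k l, S 3 2 k l = - S 2 3 k l := fun k l => hA.skew 3 2 k l
  have r32 : ∀ k l, S k l 3 2 = - S k l 2 3 := fun k l => by rw [hA.pair, hA.skew, hA.pair]
  have q40 : ∀ k l, S 4 0 k l = - S 0 4 k l := fun k l => hA.skew 4 0 k l
  have r40 : ∀ k l, S k l 4 0 = - S k l 0 4 := fun k l => by rw [hA.pair, hA.skew, hA.pair]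
  have q41 : ∀ k l, S 4 1 k l = - S 1 4 k l := fun k l => hA.skew 4 1 k l
  have r41 : ∀ k l, S k l 4 1 = - S k l 1 4 := fun k l => by rw [hA.pair, hA.skew, hA.pair]
  have q42 : ∀ k l, S 4 2 k l = - S 2 4 k l := fun k l => hA.skew 4 2 k l
  have r42 : ∀ k l, S k l 4 2 = - S k l 2 4 := fun k l => by rw [hA.pair, hA.skew, hA.pair]
  have q43 : ∀ k l, S 4 3 k l = - S 3 4 k l := fun k l => hA.skew 4 3 k l
  have r43 : ∀ k l, S k l 4 3 = - S k l 3 4 := fun k l => by rw [hA.pair, hA.skew, hA.pair]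
  have q50 : ∀ k l, S 5 0 k l = - S 0 5 k l := fun k l => hA.skew 5 0 k l
  have r50 : ∀ k l, S k l 5 0 = - S k l 0 5 := fun k l => by rw [hA.pair, hA.skew, hA.pair]
  have q51 : ∀ k l, S 5 1 k l = - S 1 5 k l := fun k l => hA.skew 5 1 k l
  have r51 : ∀ k l, S k l 5 1 = - S k l 1 5 := fun k l => by rw [hA.pair, hA.skew, hA.pair]
  have q52 : ∀ k l, S 5 2 k l = - S 2 5 k l := fun k l => hA.skew 5 2 k l
  have r52 : ∀ k l, S k l 5 2 = - S k l 2 5 := fun k l => by rw [hA.pair, hA.skew, hA.pair]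
  have q53 : ∀ k l, S 5 3 k l = - S 3 5 k l := fun k l => hA.skew 5 3 k l
  have r53 : ∀ k l, S k l 5 3 = - S k l 3 5 := fun k l => by rw [hA.pair, hA.skew, hA.pair]
  have q54 : ∀ k l, S 5 4 k l = - S 4 5 k l := fun k l => hA.skew 5 4 k l
  have r54 : ∀ k l, S k l 5 4 = - S k l 4 5 := fun k l => by rw [hA.pair, hA.skew, hA.pair]
  have s0201 : S 0 2 0 1 = S 0 1 0 2 := hA.pair 0 2 0 1
  have s0301 : S 0 3 0 1 = S 0 1 0 3 := hA.pair 0 3 0 1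
  have s0302 : S 0 3 0 2 = S 0 2 0 3 := hA.pair 0 3 0 2
  have s0401 : S 0 4 0 1 = S 0 1 0 4 := hA.pair 0 4 0 1
  have s0402 : S 0 4 0 2 = S 0 2 0 4 := hA.pair 0 4 0 2
  have s0403 : S 0 4 0 3 = S 0 3 0 4 := hA.pair 0 4 0 3
  have s0501 : S 0 5 0 1 = S 0 1 0 5 := hA.pair 0 5 0 1
  have s0502 : S 0 5 0 2 = S 0 2 0 5 := hA.pair 0 5 0 2
  have s0503 : S 0 5 0 3 = S 0 3 0 5 := hA.pair 0 5 0 3
  have s0504 : S 0 5 0 4 = S 0 4 0 5 := hA.pair 0 5 0 4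
  have s1201 : S 1 2 0 1 = S 0 1 1 2 := hA.pair 1 2 0 1
  have s1202 : S 1 2 0 2 = S 0 2 1 2 := hA.pair 1 2 0 2
  have s1203 : S 1 2 0 3 = S 0 3 1 2 := hA.pair 1 2 0 3
  have s1204 : S 1 2 0 4 = S 0 4 1 2 := hA.pair 1 2 0 4
  have s1205 : S 1 2 0 5 = S 0 5 1 2 := hA.pair 1 2 0 5
  have s1301 : S 1 3 0 1 = S 0 1 1 3 := hA.pair 1 3 0 1
  have s1302 : S 1 3 0 2 = S 0 2 1 3 := hA.pair 1 3 0 2
  have s1303 : S 1 3 0 3 = S 0 3 1 3 := hA.pair 1 3 0 3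
  have s1304 : S 1 3 0 4 = S 0 4 1 3 := hA.pair 1 3 0 4
  have s1305 : S 1 3 0 5 = S 0 5 1 3 := hA.pair 1 3 0 5
  have s1312 : S 1 3 1 2 = S 1 2 1 3 := hA.pair 1 3 1 2
  have s1401 : S 1 4 0 1 = S 0 1 1 4 := hA.pair 1 4 0 1
  have s1402 : S 1 4 0 2 = S 0 2 1 4 := hA.pair 1 4 0 2
  have s1403 : S 1 4 0 3 = S 0 3 1 4 := hA.pair 1 4 0 3
  have s1404 : S 1 4 0 4 = S 0 4 1 4 := hA.pair 1 4 0 4
  have s1405 : S 1 4 0 5 = S 0 5 1 4 := hA.pair 1 4 0 5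
  have s1412 : S 1 4 1 2 = S 1 2 1 4 := hA.pair 1 4 1 2
  have s1413 : S 1 4 1 3 = S 1 3 1 4 := hA.pair 1 4 1 3
  have s1501 : S 1 5 0 1 = S 0 1 1 5 := hA.pair 1 5 0 1
  have s1502 : S 1 5 0 2 = S 0 2 1 5 := hA.pair 1 5 0 2
  have s1503 : S 1 5 0 3 = S 0 3 1 5 := hA.pair 1 5 0 3
  have s1504 : S 1 5 0 4 = S 0 4 1 5 := hA.pair 1 5 0 4
  have s1505 : S 1 5 0 5 = S 0 5 1 5 := hA.pair 1 5 0 5
  have s1512 : S 1 5 1 2 = S 1 2 1 5 := hA.pair 1 5 1 2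
  have s1513 : S 1 5 1 3 = S 1 3 1 5 := hA.pair 1 5 1 3
  have s1514 : S 1 5 1 4 = S 1 4 1 5 := hA.pair 1 5 1 4
  have s2301 : S 2 3 0 1 = S 0 1 2 3 := hA.pair 2 3 0 1
  have s2302 : S 2 3 0 2 = S 0 2 2 3 := hA.pair 2 3 0 2
  have s2303 : S 2 3 0 3 = S 0 3 2 3 := hA.pair 2 3 0 3
  have s2304 : S 2 3 0 4 = S 0 4 2 3 := hA.pair 2 3 0 4
  have s2305 : S 2 3 0 5 = S 0 5 2 3 := hA.pair 2 3 0 5
  have s2312 : S 2 3 1 2 = S 1 2 2 3 := hA.pair 2 3 1 2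
  have s2313 : S 2 3 1 3 = S 1 3 2 3 := hA.pair 2 3 1 3
  have s2314 : S 2 3 1 4 = S 1 4 2 3 := hA.pair 2 3 1 4
  have s2315 : S 2 3 1 5 = S 1 5 2 3 := hA.pair 2 3 1 5
  have s2401 : S 2 4 0 1 = S 0 1 2 4 := hA.pair 2 4 0 1
  have s2402 : S 2 4 0 2 = S 0 2 2 4 := hA.pair 2 4 0 2
  have s2403 : S 2 4 0 3 = S 0 3 2 4 := hA.pair 2 4 0 3
  have s2404 : S 2 4 0 4 = S 0 4 2 4 := hA.pair 2 4 0 4
  have s2405 : S 2 4 0 5 = S 0 5 2 4 := hA.pair 2 4 0 5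
  have s2412 : S 2 4 1 2 = S 1 2 2 4 := hA.pair 2 4 1 2
  have s2413 : S 2 4 1 3 = S 1 3 2 4 := hA.pair 2 4 1 3
  have s2414 : S 2 4 1 4 = S 1 4 2 4 := hA.pair 2 4 1 4
  have s2415 : S 2 4 1 5 = S 1 5 2 4 := hA.pair 2 4 1 5
  have s2423 : S 2 4 2 3 = S 2 3 2 4 := hA.pair 2 4 2 3
  have s2501 : S 2 5 0 1 = S 0 1 2 5 := hA.pair 2 5 0 1
  have s2502 : S 2 5 0 2 = S 0 2 2 5 := hA.pair 2 5 0 2
  have s2503 : S 2 5 0 3 = S 0 3 2 5 := hA.pair 2 5 0 3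
  have s2504 : S 2 5 0 4 = S 0 4 2 5 := hA.pair 2 5 0 4
  have s2505 : S 2 5 0 5 = S 0 5 2 5 := hA.pair 2 5 0 5
  have s2512 : S 2 5 1 2 = S 1 2 2 5 := hA.pair 2 5 1 2
  have s2513 : S 2 5 1 3 = S 1 3 2 5 := hA.pair 2 5 1 3
  have s2514 : S 2 5 1 4 = S 1 4 2 5 := hA.pair 2 5 1 4
  have s2515 : S 2 5 1 5 = S 1 5 2 5 := hA.pair 2 5 1 5
  have s2523 : S 2 5 2 3 = S 2 3 2 5 := hA.pair 2 5 2 3
  have s2524 : S 2 5 2 4 = S 2 4 2 5 := hA.pair 2 5 2 4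
  have s3401 : S 3 4 0 1 = S 0 1 3 4 := hA.pair 3 4 0 1
  have s3402 : S 3 4 0 2 = S 0 2 3 4 := hA.pair 3 4 0 2
  have s3403 : S 3 4 0 3 = S 0 3 3 4 := hA.pair 3 4 0 3
  have s3404 : S 3 4 0 4 = S 0 4 3 4 := hA.pair 3 4 0 4
  have s3405 : S 3 4 0 5 = S 0 5 3 4 := hA.pair 3 4 0 5
  have s3412 : S 3 4 1 2 = S 1 2 3 4 := hA.pair 3 4 1 2
  have s3413 : S 3 4 1 3 = S 1 3 3 4 := hA.pair 3 4 1 3
  have s3414 : S 3 4 1 4 = S 1 4 3 4 := hA.pair 3 4 1 4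
  have s3415 : S 3 4 1 5 = S 1 5 3 4 := hA.pair 3 4 1 5
  have s3423 : S 3 4 2 3 = S 2 3 3 4 := hA.pair 3 4 2 3
  have s3424 : S 3 4 2 4 = S 2 4 3 4 := hA.pair 3 4 2 4
  have s3425 : S 3 4 2 5 = S 2 5 3 4 := hA.pair 3 4 2 5
  have s3501 : S 3 5 0 1 = S 0 1 3 5 := hA.pair 3 5 0 1
  have s3502 : S 3 5 0 2 = S 0 2 3 5 := hA.pair 3 5 0 2
  have s3503 : S 3 5 0 3 = S 0 3 3 5 := hA.pair 3 5 0 3
  have s3504 : S 3 5 0 4 = S 0 4 3 5 := hA.pair 3 5 0 4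
  have s3505 : S 3 5 0 5 = S 0 5 3 5 := hA.pair 3 5 0 5
  have s3512 : S 3 5 1 2 = S 1 2 3 5 := hA.pair 3 5 1 2
  have s3513 : S 3 5 1 3 = S 1 3 3 5 := hA.pair 3 5 1 3
  have s3514 : S 3 5 1 4 = S 1 4 3 5 := hA.pair 3 5 1 4
  have s3515 : S 3 5 1 5 = S 1 5 3 5 := hA.pair 3 5 1 5
  have s3523 : S 3 5 2 3 = S 2 3 3 5 := hA.pair 3 5 2 3
  have s3524 : S 3 5 2 4 = S 2 4 3 5 := hA.pair 3 5 2 4
  have s3525 : S 3 5 2 5 = S 2 5 3 5 := hA.pair 3 5 2 5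
  have s3534 : S 3 5 3 4 = S 3 4 3 5 := hA.pair 3 5 3 4
  have s4501 : S 4 5 0 1 = S 0 1 4 5 := hA.pair 4 5 0 1
  have s4502 : S 4 5 0 2 = S 0 2 4 5 := hA.pair 4 5 0 2
  have s4503 : S 4 5 0 3 = S 0 3 4 5 := hA.pair 4 5 0 3
  have s4504 : S 4 5 0 4 = S 0 4 4 5 := hA.pair 4 5 0 4
  have s4505 : S 4 5 0 5 = S 0 5 4 5 := hA.pair 4 5 0 5
  have s4512 : S 4 5 1 2 = S 1 2 4 5 := hA.pair 4 5 1 2
  have s4513 : S 4 5 1 3 = S 1 3 4 5 := hA.pair 4 5 1 3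
  have s4514 : S 4 5 1 4 = S 1 4 4 5 := hA.pair 4 5 1 4
  have s4515 : S 4 5 1 5 = S 1 5 4 5 := hA.pair 4 5 1 5
  have s4523 : S 4 5 2 3 = S 2 3 4 5 := hA.pair 4 5 2 3
  have s4524 : S 4 5 2 4 = S 2 4 4 5 := hA.pair 4 5 2 4
  have s4525 : S 4 5 2 5 = S 2 5 4 5 := hA.pair 4 5 2 5
  have s4534 : S 4 5 3 4 = S 3 4 4 5 := hA.pair 4 5 3 4
  have s4535 : S 4 5 3 5 = S 3 5 4 5 := hA.pair 4 5 3 5
  simp [ell, lie, offd, Fin.sum_univ_six, Fin.sum_univ_three, lo, hi, h0, h0', secondVar,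
    q10, r10, q20, r20, q21, r21, q30, r30, q31, r31, q32, r32, q40, r40, q41, r41, q42, r42, 
    q43, r43, q50, r50, q51, r51, q52, r52, q53, r53, q54, r54, s0201, s0301, s0302, s0401, 
    s0402, s0403, s0501, s0502, s0503, s0504, s1201, s1202, s1203, s1204, s1205, s1301, s1302, 
    s1303, s1304, s1305, s1312, s1401, s1402, s1403, s1404, s1405, s1412, s1413, s1501, s1502, 
    s1503, s1504, s1505, s1512, s1513, s1514, s2301, s2302, s2303, s2304, s2305, s2312, s2313, 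
    s2314, s2315, s2401, s2402, s2403, s2404, s2405, s2412, s2413, s2414, s2415, s2423, s2501, 
    s2502, s2503, s2504, s2505, s2512, s2513, s2514, s2515, s2523, s2524, s3401, s3402, s3403, 
    s3404, s3405, s3412, s3413, s3414, s3415, s3423, s3424, s3425, s3501, s3502, s3503, s3504, 
    s3505, s3512, s3513, s3514, s3515, s3523, s3524, s3525, s3534, s4501, s4502, s4503, s4504, 
    s4505, s4512, s4513, s4514, s4515, s4523, s4524, s4525, s4534, s4535]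
  ring

end H91.Split
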