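import Pool.Agent.Lib.H91.SplitRot

set_option autoImplicit false

namespace H91.Split

open Finset Matrix NormedSpace

section ExpDeriv
open scoped Norms.Operator

theorem hasDerivAt_exp_entry (X : M6) (t : ℝ) (a b : Fin 6) :
    HasDerivAt (fun s : ℝ => (exp (s • X) : M6) a b) (∑ m, (exp (t • X) : M6) a m * X m b) t := by
  have h := hasDerivAt_exp_smul_const (𝕂 := ℝ) X t
  have h2 := (LinearMap.toContinuousLinearMap
    (Matrix.entryLinearMap ℝ ℝ a b : M6 →ₗ[ℝ] ℝ)).hasFDerivAt.comp_hasDerivAt t h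
  have e : (∑ m, (exp (t • X) : M6) a m * X m b) = (LinearMap.toContinuousLinearMap
    (Matrix.entryLinearMap ℝ ℝ a b : M6 →ₗ[ℝ] ℝ)) (exp (t • X) * X) := by
    rw [← Matrix.mul_apply]
    rfl
  rw [e]
  exact h2

end ExpDeriv

/-- orthogonality of the exponential of a skew matrix -/
theorem exp_orth {X : M6} (hX : Xᵀ = -X) (t : ℝ) :
    (exp (t • X) : M6)ᵀ * (exp (t • X) : M6) = 1 := by
  rw [← Matrix.exp_transpose, Matrix.transpose_smul, hX, smul_neg, Matrix.exp_neg]
  exact Matrix.nonsing_inv_mul _ ((Matrix.isUnit_iff_isUnit_det _).1 (Matrix.isUnit_exp _))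

/-- Second order necessary condition. -/
theorem second_order {f f' : ℝ → ℝ} {f'' : ℝ} (hf : ∀ t, HasDerivAt f (f' t) t)
    (hf' : HasDerivAt f' f'' 0) (hmax : ∀ t, f t ≤ f 0) : f' 0 = 0 ∧ f'' ≤ 0 := by
  have h1 : f' 0 = 0 := IsLocalMax.hasDerivAt_eq_zero
    (Filter.Eventually.of_forall hmax) (hf 0)
  refine ⟨h1, ?_⟩
  by_contra hcon
  push Not at hcon
  have hd : deriv f = f' := funext fun t => (hf t).deriv
  have hmin : IsLocalMin f 0 := isLocalMin_of_deriv_deriv_pos
    (by rw [hd, hf'.deriv]; exact hcon) (by rw [hd]; exact h1) (hf 0).continuousAt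
  have hev : f =ᶠ[nhds 0] fun _ => f 0 := by
    filter_upwards [hmin] with t ht
    exact le_antisymm (hmax t) ht
  have hev2 : f' =ᶠ[nhds 0] fun _ => 0 := by
    have := hev.deriv
    rw [hd] at this
    simpa using this
  have := hev2.hasDerivAt_iff.1 hf'
  have h0 := this.unique (hasDerivAt_const (0 : ℝ) (0 : ℝ))
  linarith

theorem rot_one (R : T6) : rot 1 R = R := by
  funext i j k l
  simp only [rot, Matrix.one_apply]
  rw [Finset.sum_eq_single i, Finset.sum_eq_single j, Finset.sum_eq_single k,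
    Finset.sum_eq_single l]
  · simp
  all_goals first | (intro b _ hb; simp [hb]) | (intro h; exact absurd (mem_univ _) h)

/-- slot actions -/
def a1 (g : M6) (R : T6) : T6 := fun i j k l => ∑ m, g m i * R m j k l
def a2 (g : M6) (R : T6) : T6 := fun i j k l => ∑ m, g m j * R i m k l
def a3 (g : M6) (R : T6) : T6 := fun i j k l => ∑ m, g m k * R i j m l
def a4 (g : M6) (R : T6) : T6 := fun i j k l => ∑ m, g m l * R i j k m

theorem rot_eq (g : M6) (R : T6) : rot g R = a1 g (a2 g (a3 g (a4 g R))) := by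
  funext i j k l
  simp only [rot, a1, a2, a3, a4, mul_sum]
  refine sum_congr rfl fun a _ => sum_congr rfl fun b _ => sum_congr rfl fun c _ =>
    sum_congr rfl fun d _ => ?_
  ring

theorem comp_aux (g h : M6) (F : Fin 6 → ℝ) (i : Fin 6) :
    ∑ m, g m i * ∑ m', h m' m * F m' = ∑ m', (h * g) m' i * F m' := by
  simp only [mul_sum, Matrix.mul_apply, sum_mul]
  rw [sum_comm]
  exact sum_congr rfl fun a _ => sum_congr rfl fun b _ => by ring

theorem a1_comp (g h : M6) (R : T6) : a1 g (a1 h R) = a1 (h * g) R := by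
  funext i j k l; exact comp_aux g h (fun m => R m j k l) i
theorem a2_comp (g h : M6) (R : T6) : a2 g (a2 h R) = a2 (h * g) R := by
  funext i j k l; exact comp_aux g h (fun m => R i m k l) j
theorem a3_comp (g h : M6) (R : T6) : a3 g (a3 h R) = a3 (h * g) R := by
  funext i j k l; exact comp_aux g h (fun m => R i j m l) k
theorem a4_comp (g h : M6) (R : T6) : a4 g (a4 h R) = a4 (h * g) R := by
  funext i j k l; exact comp_aux g h (fun m => R i j k m) l

theorem comm_aux (g h : M6) (F : Fin 6 → Fin 6 → ℝ) (i j : Fin 6) :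
    ∑ m, g m i * ∑ m', h m' j * F m m' = ∑ m', h m' j * ∑ m, g m i * F m m' := by
  simp only [mul_sum]
  rw [sum_comm]
  exact sum_congr rfl fun a _ => sum_congr rfl fun b _ => by ring

theorem a12 (g h : M6) (R : T6) : a1 g (a2 h R) = a2 h (a1 g R) := by
  funext i j k l; exact comm_aux g h (fun m m' => R m m' k l) i j
theorem a13 (g h : M6) (R : T6) : a1 g (a3 h R) = a3 h (a1 g R) := by
  funext i j k l; exact comm_aux g h (fun m m' => R m j m' l) i k
theorem a14 (g h : M6) (R : T6) : a1 g (a4 h R) = a4 h (a1 g R) := by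
  funext i j k l; exact comm_aux g h (fun m m' => R m j k m') i l
theorem a23 (g h : M6) (R : T6) : a2 g (a3 h R) = a3 h (a2 g R) := by
  funext i j k l; exact comm_aux g h (fun m m' => R i m m' l) j k
theorem a24 (g h : M6) (R : T6) : a2 g (a4 h R) = a4 h (a2 g R) := by
  funext i j k l; exact comm_aux g h (fun m m' => R i m k m') j l
theorem a34 (g h : M6) (R : T6) : a3 g (a4 h R) = a4 h (a3 g R) := by
  funext i j k l; exact comm_aux g h (fun m m' => R i j m m') k l

theorem rot_rot (g h : M6) (R : T6) : rot g (rot h R) = rot (h * g) R := by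
  simp only [rot_eq]
  rw [← a14 h g, ← a13 h g, ← a12 h g, a1_comp, ← a24 h g, ← a23 h g, a2_comp, ← a34 h g,
    a3_comp, a4_comp]

/-- The orthogonal group is compact. -/
theorem isCompact_orth : IsCompact {O : Fin 6 → Fin 6 → ℝ |
    ∀ i j, ∑ m, O m i * O m j = if i = j then 1 else 0} := by
  have hbox : IsCompact (Set.univ.pi fun _ : Fin 6 => Set.univ.pi fun _ : Fin 6 =>
      Set.Icc (-1 : ℝ) 1) := isCompact_univ_pi fun _ => isCompact_univ_pi fun _ => isCompact_Icc
  refine hbox.of_isClosed_subset ?_ ?_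
  · have : {O : Fin 6 → Fin 6 → ℝ | ∀ i j, ∑ m, O m i * O m j = if i = j then 1 else 0} =
        ⋂ i, ⋂ j, {O | ∑ m, O m i * O m j = if i = j then 1 else 0} := by
      ext O; simp
    rw [this]
    exact isClosed_iInter fun i => isClosed_iInter fun j =>
      isClosed_eq (by fun_prop) continuous_const
  · intro O hO i _ j _
    have h1 := hO j j
    rw [if_pos rfl] at h1
    have h2 : O i j * O i j ≤ ∑ m, O m j * O m j :=
      single_le_sum (f := fun m => O m j * O m j) (fun m _ => mul_self_nonneg _) (mem_univ i)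
    rw [h1] at h2
    constructor <;> nlinarith

theorem orth_iff (O : M6) : Oᵀ * O = 1 ↔ ∀ i j, ∑ m, O m i * O m j = if i = j then 1 else 0 := by
  constructor
  · intro h i j
    have := congrFun (congrFun h i) j
    simpa [Matrix.mul_apply, Matrix.one_apply] using this
  · intro h
    ext i j
    simpa [Matrix.mul_apply, Matrix.one_apply] using h i j

/-- **Best splitting.** There is an orthogonal matrix after which the scalar curvature of the
first coordinate three-plane is maximal; the rotated tensor then satisfies the first and the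
second order conditions. -/
theorem exists_best (R : T6) : ∃ O : M6, Oᵀ * O = 1 ∧
    (∀ g : M6, gᵀ * g = 1 → ell (rot g (rot O R)) ≤ ell (rot O R)) ∧
    (∀ X : M6, Xᵀ = -X → ell (lie X (rot O R)) = 0 ∧ ell (lie X (lie X (rot O R))) ≤ 0) := by
  have hc : Continuous fun O : Fin 6 → Fin 6 → ℝ => ell (rot (Matrix.of O) R) := by
    simp only [ell, rot, Matrix.of_apply]
    fun_prop
  have hne : ({O : Fin 6 → Fin 6 → ℝ | ∀ i j, ∑ m, O m i * O m j = if i = j then 1 else 0}).Nonempty :=
    ⟨fun i j => if i = j then 1 else 0, fun i j => by simp [eq_comm]⟩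
  obtain ⟨O, hO, hmax⟩ := isCompact_orth.exists_isMaxOn hne hc.continuousOn
  have hO' : (Matrix.of O : M6)ᵀ * Matrix.of O = 1 := (orth_iff _).2 hO
  have hm : ∀ g : M6, gᵀ * g = 1 → ell (rot g (rot (Matrix.of O) R)) ≤
      ell (rot (Matrix.of O) R) := by
    intro g hg
    rw [rot_rot]
    have h1 : (Matrix.of O * g : M6)ᵀ * (Matrix.of O * g) = 1 := by
      rw [Matrix.transpose_mul, mul_assoc, ← mul_assoc (Matrix.of O)ᵀ, hO', one_mul, hg]
    have h2 := isMaxOn_iff.1 hmax (Matrix.of.symm (Matrix.of O * g : M6)) ((orth_iff _).1 h1)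
    simpa using h2
  refine ⟨Matrix.of O, hO', hm, fun X hX => ?_⟩
  set S := rot (Matrix.of O) R with hS
  have hd : ∀ t, ∀ i j k l, HasDerivAt (fun s : ℝ => rot (exp (s • X)) S i j k l)
      (lie X (rot (exp (t • X)) S) i j k l) t := fun t i j k l =>
    hasDerivAt_rot (g := fun s : ℝ => exp (s • X)) (fun a b => hasDerivAt_exp_entry X t a b) i j k l
  have h1 : ∀ t, HasDerivAt (fun s : ℝ => ell (rot (exp (s • X)) S))
      (ell (lie X (rot (exp (t • X)) S))) t := fun t => hasDerivAt_ell (hd t)
  have h2 : HasDerivAt (fun s : ℝ => ell (lie X (rot (exp (s • X)) S)))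
      (ell (lie X (lie X (rot (exp ((0 : ℝ) • X)) S)))) 0 :=
    hasDerivAt_ell (hasDerivAt_lie (hd 0))
  have h0 : rot (exp ((0 : ℝ) • X)) S = S := by
    rw [zero_smul, exp_zero, rot_one]
  have := second_order h1 h2 (fun t => by
    simp only [zero_smul, exp_zero, rot_one]
    exact hm _ (exp_orth hX t))
  rw [h0] at this
  exact this

end H91.Split
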