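import Mathlib

set_option autoImplicit false

namespace H91.Split

open Finset Matrix

abbrev T6 : Type := Fin 6 → Fin 6 → Fin 6 → Fin 6 → ℝ
abbrev M6 : Type := Matrix (Fin 6) (Fin 6) ℝ

/-- Pullback of a four-tensor by a matrix: `R (g eᵢ, g eⱼ, g eₖ, g eₗ)`. -/
def rot (g : M6) (R : T6) : T6 := fun i j k l =>
  ∑ i', ∑ j', ∑ k', ∑ l', g i' i * g j' j * g k' k * g l' l * R i' j' k' l'

/-- Infinitesimal action. -/
def lie (X : M6) (R : T6) : T6 := fun i j k l =>
  ∑ m, (X m i * R m j k l + X m j * R i m k l + X m k * R i j m l + X m l * R i j k m)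

theorem move_in (f : Fin 6 → Fin 6 → Fin 6 → Fin 6 → Fin 6 → ℝ) :
    ∑ k, ∑ a, ∑ b, ∑ c, ∑ d, f k a b c d = ∑ a, ∑ b, ∑ c, ∑ d, ∑ k, f k a b c d := by
  rw [sum_comm]
  refine sum_congr rfl fun a _ => ?_
  rw [sum_comm]
  refine sum_congr rfl fun b _ => ?_
  rw [sum_comm]
  refine sum_congr rfl fun c _ => ?_
  rw [sum_comm]

theorem rot_term1 (g X : M6) (R : T6) (i j k l : Fin 6) :
    ∑ m, X m i * rot g R m j k l = ∑ i', ∑ j', ∑ k', ∑ l',
      (∑ m, g i' m * X m i) * g j' j * g k' k * g l' l * R i' j' k' l' := by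
  simp only [rot, mul_sum]
  rw [move_in]
  refine sum_congr rfl fun a _ => sum_congr rfl fun b _ => sum_congr rfl fun c _ =>
    sum_congr rfl fun d _ => ?_
  simp only [sum_mul]
  exact sum_congr rfl fun m _ => by ring

theorem rot_term2 (g X : M6) (R : T6) (i j k l : Fin 6) :
    ∑ m, X m j * rot g R i m k l = ∑ i', ∑ j', ∑ k', ∑ l',
      g i' i * (∑ m, g j' m * X m j) * g k' k * g l' l * R i' j' k' l' := by
  simp only [rot, mul_sum]
  rw [move_in]
  refine sum_congr rfl fun a _ => sum_congr rfl fun b _ => sum_congr rfl fun c _ =>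
    sum_congr rfl fun d _ => ?_
  simp only [sum_mul]
  exact sum_congr rfl fun m _ => by ring

theorem rot_term3 (g X : M6) (R : T6) (i j k l : Fin 6) :
    ∑ m, X m k * rot g R i j m l = ∑ i', ∑ j', ∑ k', ∑ l',
      g i' i * g j' j * (∑ m, g k' m * X m k) * g l' l * R i' j' k' l' := by
  simp only [rot, mul_sum]
  rw [move_in]
  refine sum_congr rfl fun a _ => sum_congr rfl fun b _ => sum_congr rfl fun c _ =>
    sum_congr rfl fun d _ => ?_
  simp only [sum_mul]
  exact sum_congr rfl fun m _ => by ring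

theorem rot_term4 (g X : M6) (R : T6) (i j k l : Fin 6) :
    ∑ m, X m l * rot g R i j k m = ∑ i', ∑ j', ∑ k', ∑ l',
      g i' i * g j' j * g k' k * (∑ m, g l' m * X m l) * R i' j' k' l' := by
  simp only [rot, mul_sum]
  rw [move_in]
  refine sum_congr rfl fun a _ => sum_congr rfl fun b _ => sum_congr rfl fun c _ =>
    sum_congr rfl fun d _ => ?_
  simp only [sum_mul]
  exact sum_congr rfl fun m _ => by ring

theorem hasDerivAt_rot {g : ℝ → M6} {X : M6} {R : T6} {t : ℝ}
    (hg : ∀ a b, HasDerivAt (fun s => g s a b) (∑ m, g t a m * X m b) t) (i j k l : Fin 6) :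
    HasDerivAt (fun s => rot (g s) R i j k l) (lie X (rot (g t) R) i j k l) t := by
  have h : HasDerivAt (fun s => rot (g s) R i j k l)
      (∑ i', ∑ j', ∑ k', ∑ l',
        (((((∑ m, g t i' m * X m i) * g t j' j + g t i' i * (∑ m, g t j' m * X m j)) * g t k' k
          + g t i' i * g t j' j * (∑ m, g t k' m * X m k)) * g t l' l
          + g t i' i * g t j' j * g t k' k * (∑ m, g t l' m * X m l)) * R i' j' k' l')) t := by
    unfold rot
    refine HasDerivAt.fun_sum fun i' _ => HasDerivAt.fun_sum fun j' _ =>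
      HasDerivAt.fun_sum fun k' _ => HasDerivAt.fun_sum fun l' _ => ?_
    exact ((((hg i' i).mul (hg j' j)).mul (hg k' k)).mul (hg l' l)).mul_const _
  convert h using 1
  simp only [lie, sum_add_distrib]
  rw [rot_term1, rot_term2, rot_term3, rot_term4]
  simp only [← sum_add_distrib]
  refine sum_congr rfl fun a _ => sum_congr rfl fun b _ => sum_congr rfl fun c _ =>
    sum_congr rfl fun d _ => ?_
  ring

theorem hasDerivAt_lie {S : ℝ → T6} {S' : T6} {X : M6} {t : ℝ}
    (hS : ∀ i j k l, HasDerivAt (fun s => S s i j k l) (S' i j k l) t) (i j k l : Fin 6) :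
    HasDerivAt (fun s => lie X (S s) i j k l) (lie X S' i j k l) t := by
  unfold lie
  refine HasDerivAt.fun_sum fun m _ => ?_
  exact ((((hS m j k l).const_mul _).add ((hS i m k l).const_mul _)).add
    ((hS i j m l).const_mul _)).add ((hS i j k m).const_mul _)

/-- The scalar curvature of the first coordinate three-plane. -/
def ell (R : T6) : ℝ := R 0 1 0 1 + R 0 2 0 2 + R 1 2 1 2

theorem hasDerivAt_ell {S : ℝ → T6} {S' : T6} {t : ℝ}
    (hS : ∀ i j k l, HasDerivAt (fun s => S s i j k l) (S' i j k l) t) :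
    HasDerivAt (fun s => ell (S s)) (ell S') t := by
  unfold ell
  exact ((hS 0 1 0 1).add (hS 0 2 0 2)).add (hS 1 2 1 2)

end H91.Split
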